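import Mathlib

/-!
# The theorem of Effros for the homeomorphism group of a compact metric space
-/

open Set Filter Topology Metric

namespace Pool.Agent.Work.MP_7dea6f_gt

namespace Eff

variable {X : Type*} [MetricSpace X]

/-- homeomorphisms of displacement less than `e` -/
def NN (e : ℝ) : Set (X ≃ₜ X) := {h | ∀ z, dist (h z) z < e}

/-- the orbit of `x` under the homeomorphisms of displacement less than `e` -/
def OO (e : ℝ) (x : X) : Set X := {y | ∃ h : X ≃ₜ X, h ∈ NN e ∧ h x = y}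

/-- the interior of the closure of the small orbit -/
def II (e : ℝ) (x : X) : Set X := interior (closure (OO e x))

theorem nn_symm {e : ℝ} {h : X ≃ₜ X} (hh : h ∈ NN e) : h.symm ∈ NN e := by
  intro z
  have := hh (h.symm z)
  rw [h.apply_symm_apply, dist_comm] at this
  exact this

theorem nn_trans {e e' : ℝ} {h k : X ≃ₜ X} (hh : h ∈ NN e) (hk : k ∈ NN e') :
    h.trans k ∈ NN (e + e') := by
  intro z
  have h1 := hh z
  have h2 := hk (h z)
  have h3 := dist_triangle (k (h z)) (h z) z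
  simp only [Homeomorph.trans_apply]
  linarith

variable [CompactSpace X]

theorem exists_countable_dense : ∃ D : Set (X ≃ₜ X), D.Countable ∧
    ∀ h : X ≃ₜ X, ∀ r > 0, ∃ d ∈ D, ∀ z, dist (h z) (d z) < r := by
  let ι : (X ≃ₜ X) → C(X, X) := fun h => ⟨h, h.continuous⟩
  have hS : TopologicalSpace.IsSeparable (range ι) := TopologicalSpace.IsSeparable.of_separableSpace _
  obtain ⟨t, hts, htc, htd⟩ := hS.exists_countable_dense_subset
  have hinj : Function.Injective ι := by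
    intro a b hab
    ext z
    exact DFunLike.congr_fun hab z
  refine ⟨ι ⁻¹' t, htc.preimage hinj, fun h r hr => ?_⟩
  have h1 : ι h ∈ closure t := htd ⟨h, rfl⟩
  obtain ⟨f, hf, hd⟩ := Metric.mem_closure_iff.1 h1 r hr
  obtain ⟨d, rfl⟩ := hts hf
  exact ⟨d, hf, fun z => (ContinuousMap.dist_lt_iff hr).1 hd z⟩

theorem mem_II (hom : ∀ x y : X, ∃ h : X ≃ₜ X, h x = y) (x : X) {e : ℝ} (he : 0 < e) :
    x ∈ II e x := by
  have : Nonempty X := ⟨x⟩
  obtain ⟨D, hDc, hD⟩ := exists_countable_dense (X := X)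
  have hcD : Countable D := hDc.to_subtype
  have hcov : ⋃ d : D, closure ((d : X ≃ₜ X).symm '' (OO (e / 2) x)) = univ := by
    refine eq_univ_of_forall fun y => ?_
    obtain ⟨h, hh⟩ := hom x y
    obtain ⟨d, hd, hdz⟩ := hD h.symm (e / 2) (by positivity)
    refine mem_iUnion.2 ⟨⟨d, hd⟩, subset_closure ?_⟩
    -- `h.symm = n ∘ d` with `n` small, `h = d⁻¹ n⁻¹`
    refine ⟨d y, ⟨h.trans d, ?_, ?_⟩, by simp⟩
    · intro z
      have h1 := hdz (h z)
      rw [h.symm_apply_apply, dist_comm] at h1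
      exact h1
    · simp [hh]
  obtain ⟨d, hd⟩ := nonempty_interior_of_iUnion_of_closed (fun _ => isClosed_closure) hcov
  rw [← Homeomorph.image_closure, ← Homeomorph.image_interior] at hd
  have hd' : (interior (closure (OO (e / 2) x))).Nonempty := by
    obtain ⟨y, z, hz, -⟩ := hd
    exact ⟨z, hz⟩
  obtain ⟨y, hy⟩ := hd'
  obtain ⟨w, hw, hwO⟩ := mem_closure_iff.1 (interior_subset hy) _ isOpen_interior hy
  obtain ⟨n, hn, rfl⟩ := hwO
  have h1 : x ∈ n.symm '' (interior (closure (OO (e / 2) x))) := ⟨n x, hw, by simp⟩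
  rw [Homeomorph.image_interior, Homeomorph.image_closure] at h1
  refine interior_mono (closure_mono ?_) h1
  rintro _ ⟨_, ⟨m, hm, rfl⟩, rfl⟩
  refine ⟨m.trans n.symm, ?_, rfl⟩
  have := nn_trans hm (nn_symm hn)
  rwa [add_halves] at this

/-- Uniform limits of homeomorphisms with uniformly converging inverses. -/
theorem limit_homeo (φ : ℕ → X ≃ₜ X) {c : ℝ}
    (h1 : ∀ n z, dist (φ n z) (φ (n + 1) z) ≤ c / 2 / 2 ^ n)
    (h2 : ∀ n z, dist ((φ n).symm z) ((φ (n + 1)).symm z) ≤ 1 / 2 / 2 ^ n) :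
    ∃ g : X ≃ₜ X, (∀ z, Tendsto (fun n => φ n z) atTop (𝓝 (g z))) ∧
      ∀ z, dist (φ 0 z) (g z) ≤ c := by
  rcases isEmpty_or_nonempty X with hX | hX
  · exact ⟨φ 0, fun z => isEmptyElim z, fun z => isEmptyElim z⟩
  let F : ℕ → C(X, X) := fun n => ⟨φ n, (φ n).continuous⟩
  let G : ℕ → C(X, X) := fun n => ⟨(φ n).symm, (φ n).symm.continuous⟩
  have hF : ∀ n, dist (F n) (F (n + 1)) ≤ c / 2 / 2 ^ n := fun n =>
    (ContinuousMap.dist_le_iff_of_nonempty).2 (h1 n)
  have hG : ∀ n, dist (G n) (G (n + 1)) ≤ 1 / 2 / 2 ^ n := fun n =>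
    (ContinuousMap.dist_le_iff_of_nonempty).2 (h2 n)
  obtain ⟨f, hf⟩ := cauchySeq_tendsto_of_complete (cauchySeq_of_le_geometric_two hF)
  obtain ⟨g, hg⟩ := cauchySeq_tendsto_of_complete (cauchySeq_of_le_geometric_two hG)
  have hfg : f.comp g = ContinuousMap.id X := by
    refine tendsto_nhds_unique (hf.compCM hg) ?_
    have : (fun n => (F n).comp (G n)) = fun _ => ContinuousMap.id X := by
      funext n
      ext z
      simp [F, G]
    rw [this]
    exact tendsto_const_nhds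
  have hgf : g.comp f = ContinuousMap.id X := by
    refine tendsto_nhds_unique (hg.compCM hf) ?_
    have : (fun n => (G n).comp (F n)) = fun _ => ContinuousMap.id X := by
      funext n
      ext z
      simp [F, G]
    rw [this]
    exact tendsto_const_nhds
  refine ⟨⟨⟨f, g, fun z => DFunLike.congr_fun hgf z, fun z => DFunLike.congr_fun hfg z⟩,
    f.continuous, g.continuous⟩, fun z => ?_, fun z => ?_⟩
  · exact ((continuous_eval_const (F := C(X, X)) z).tendsto f).comp hf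
  · have h3 := dist_le_of_le_geometric_two_of_tendsto₀ hF hf
    exact ((ContinuousMap.dist_le_iff_of_nonempty).1 h3) z

/-- small homeomorphisms move the inverse of a given homeomorphism little -/
theorem exists_modulus (φ : X ≃ₜ X) {r : ℝ} (hr : 0 < r) : ∃ η > 0, ∀ v ∈ NN (X := X) η, ∀ z,
    dist (φ.symm (v.symm z)) (φ.symm z) ≤ r := by
  have h1 : UniformContinuous φ.symm :=
    CompactSpace.uniformContinuous_of_continuous φ.symm.continuous
  obtain ⟨η, hη, h⟩ := Metric.uniformContinuous_iff.1 h1 r hr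
  exact ⟨η, hη, fun v hv z => (h (nn_symm hv z)).le⟩

/-- the invariant of the successive approximations -/
def Inv (x y : X) (c : ℝ) (n : ℕ) (s : (X ≃ₜ X) × (X ≃ₜ X) × ℝ) : Prop :=
  0 < s.2.2 ∧ s.2.2 ≤ c / 2 / 2 ^ n ∧
    (∀ v ∈ NN (X := X) s.2.2, ∀ z, dist (s.1.symm (v.symm z)) (s.1.symm z) ≤ 1 / 2 / 2 ^ n) ∧
    s.2.1 y ∈ II s.2.2 (s.1 x)

/-- one double step of the successive approximations -/
theorem step (hom : ∀ x y : X, ∃ h : X ≃ₜ X, h x = y) (x y : X) {c : ℝ} (hc : 0 < c) (n : ℕ)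
    (s : (X ≃ₜ X) × (X ≃ₜ X) × ℝ) (hs : Inv x y c n s) :
    ∃ s' : (X ≃ₜ X) × (X ≃ₜ X) × ℝ, Inv x y c (n + 1) s' ∧
      (∀ z, dist (s.1 z) (s'.1 z) ≤ c / 2 / 2 ^ n) ∧
      (∀ z, dist (s.1.symm z) (s'.1.symm z) ≤ 1 / 2 / 2 ^ n) ∧
      (∀ z, dist (s.2.1 z) (s'.2.1 z) ≤ c / 2 / 2 ^ n) ∧
      (∀ z, dist (s.2.1.symm z) (s'.2.1.symm z) ≤ 1 / 2 / 2 ^ n) ∧
      dist (s'.1 x) (s'.2.1 y) ≤ 1 / 2 / 2 ^ n := by
  obtain ⟨φ, ψ, η⟩ := s
  obtain ⟨hη, hηc, hmod, hI⟩ := hs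
  simp only at hη hηc hmod hI ⊢
  have h2n : (0 : ℝ) < 1 / 2 / 2 ^ n := by positivity
  -- first half step
  obtain ⟨η₁', hη₁', hmod₁⟩ := exists_modulus ψ h2n
  set η₁ := min η₁' (c / 2 / 2 ^ n) with hη₁d
  have hη₁ : 0 < η₁ := lt_min hη₁' (by positivity)
  have hsub : ∀ {a b : ℝ}, a ≤ b → NN (X := X) a ⊆ NN b := fun hab h hh z => (hh z).trans_le hab
  obtain ⟨v, hv, hvI⟩ : ∃ v ∈ NN (X := X) η, v (φ x) ∈ II η₁ (ψ y) := by
    have h1 : ψ y ∈ closure (OO η (φ x)) := interior_subset hI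
    obtain ⟨w, hw, v, hv, rfl⟩ := mem_closure_iff.1 h1 _ isOpen_interior (mem_II hom (ψ y) hη₁)
    exact ⟨v, hv, hw⟩
  -- second half step
  set φ' := φ.trans v with hφ'
  have h2n1 : (0 : ℝ) < 1 / 2 / 2 ^ (n + 1) := by positivity
  obtain ⟨η₂', hη₂', hmod₂⟩ := exists_modulus φ' h2n1
  set η₂ := min η₂' (c / 2 / 2 ^ (n + 1)) with hη₂d
  have hη₂ : 0 < η₂ := lt_min hη₂' (by positivity)
  obtain ⟨w, hw, hwI, hwd⟩ : ∃ w ∈ NN (X := X) η₁, w (ψ y) ∈ II η₂ (φ' x) ∧
      dist (φ' x) (w (ψ y)) < 1 / 2 / 2 ^ n := by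
    have h1 : φ' x ∈ closure (OO η₁ (ψ y)) := interior_subset hvI
    obtain ⟨u, hu, w, hw, rfl⟩ := mem_closure_iff.1 h1 (II η₂ (φ' x) ∩ ball (φ' x) (1 / 2 / 2 ^ n))
      (isOpen_interior.inter isOpen_ball) ⟨mem_II hom _ hη₂, mem_ball_self h2n⟩
    refine ⟨w, hw, hu.1, ?_⟩
    rw [dist_comm]
    exact hu.2
  refine ⟨(φ', ψ.trans w, η₂), ⟨hη₂, min_le_right _ _, fun u hu z => hmod₂ u (hsub (min_le_left _ _) hu) z, hwI⟩, fun z => ?_, fun z => ?_, fun z => ?_, fun z => ?_, hwd.le⟩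
  · rw [dist_comm]
    exact ((hv (φ z)).le).trans hηc
  · rw [dist_comm]
    exact hmod v hv z
  · rw [dist_comm]
    exact ((hw (ψ z)).le).trans (min_le_right _ _)
  · rw [dist_comm]
    exact hmod₁ w (hsub (min_le_left _ _) hw) z

theorem exists_of_mem_II (hom : ∀ x y : X, ∃ h : X ≃ₜ X, h x = y) (x y : X) {c : ℝ} (hc : 0 < c)
    (h : y ∈ II (min (c / 2) (1 / 2)) x) :
    ∃ g : X ≃ₜ X, g x = y ∧ ∀ z, dist (g z) z ≤ 2 * c := by
  have h0 : Inv x y c 0 (Homeomorph.refl X, Homeomorph.refl X, min (c / 2) (1 / 2)) := by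
    refine ⟨lt_min (by positivity) (by norm_num), ?_, fun v hv z => ?_, h⟩
    · simp
    · have := nn_symm hv z
      simp only [Homeomorph.refl_symm, Homeomorph.refl_apply, pow_zero, div_one, id_eq]
      exact this.le.trans (min_le_right _ _)
  choose! f hf using step hom x y hc
  let sq : (n : ℕ) → {s : (X ≃ₜ X) × (X ≃ₜ X) × ℝ // Inv x y c n s} := fun n =>
    Nat.rec ⟨_, h0⟩ (fun n s => ⟨f n s.1, (hf n s.1 s.2).1⟩) n
  have hsq : ∀ n, (sq (n + 1)).1 = f n (sq n).1 := fun n => rfl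
  have hst := fun n => (hf n (sq n).1 (sq n).2).2
  simp only [← hsq] at hst
  obtain ⟨g, hg, hg'⟩ := limit_homeo (fun n => (sq n).1.1) (c := c) (fun n => (hst n).1)
    (fun n => (hst n).2.1)
  obtain ⟨k, hk, hk'⟩ := limit_homeo (fun n => (sq n).1.2.1) (c := c) (fun n => (hst n).2.2.1)
    (fun n => (hst n).2.2.2.1)
  have hgk : g x = k y := by
    have h1 : Tendsto (fun n => dist ((sq (n + 1)).1.1 x) ((sq (n + 1)).1.2.1 y)) atTop
        (𝓝 (dist (g x) (k y))) :=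
      ((hg x).comp (tendsto_add_atTop_nat 1)).dist ((hk y).comp (tendsto_add_atTop_nat 1))
    have h2 : Tendsto (fun n : ℕ => (1 : ℝ) / 2 / 2 ^ n) atTop (𝓝 0) := by
      have := (tendsto_pow_atTop_nhds_zero_of_lt_one (r := (1 / 2 : ℝ)) (by norm_num)
        (by norm_num)).const_mul (1 / 2)
      rw [mul_zero] at this
      refine this.congr fun n => ?_
      rw [one_div_pow]
      ring
    have h3 : dist (g x) (k y) ≤ 0 := le_of_tendsto_of_tendsto' h1 h2 fun n => (hst n).2.2.2.2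
    exact dist_le_zero.1 h3
  refine ⟨g.trans k.symm, by simp [hgk], fun z => ?_⟩
  have h1 := hg' z
  have h2 := hk' (k.symm (g z))
  have h4 : (sq 0).1.1 = Homeomorph.refl X := rfl
  have h5 : (sq 0).1.2.1 = Homeomorph.refl X := rfl
  simp only [h4, h5, Homeomorph.refl_apply, id_eq, k.apply_symm_apply] at h1 h2
  have h3 := dist_triangle (k.symm (g z)) (g z) z
  rw [dist_comm z] at h1
  simp only [Homeomorph.trans_apply]
  linarith

end Eff

open Eff

theorem effros {X : Type*} [MetricSpace X] [CompactSpace X]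
    (hom : ∀ x y : X, ∃ h : X ≃ₜ X, h x = y) (ε : ℝ) (hε : 0 < ε) :
    ∃ δ > 0, ∀ x y : X, dist x y < δ → ∃ h : X ≃ₜ X, h x = y ∧ ∀ z, dist (h z) z < ε := by
  have hc : 0 < ε / 8 := by positivity
  have hη : (0 : ℝ) < min (ε / 8 / 2) (1 / 2) := lt_min (by positivity) (by norm_num)
  obtain ⟨δ, hδ, h⟩ := lebesgue_number_lemma_of_metric (isCompact_univ (X := X))
    (c := fun x : X => II (min (ε / 8 / 2) (1 / 2)) x) (fun _ => isOpen_interior)
    (fun x _ => mem_iUnion.2 ⟨x, mem_II hom x hη⟩)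
  refine ⟨δ, hδ, fun x y hxy => ?_⟩
  obtain ⟨i, hi⟩ := h x (mem_univ x)
  obtain ⟨g, hg, hg'⟩ := exists_of_mem_II hom i x hc (hi (mem_ball_self hδ))
  obtain ⟨k, hk, hk'⟩ := exists_of_mem_II hom i y hc (hi (by rwa [mem_ball, dist_comm]))
  refine ⟨g.symm.trans k, by simp [← hg, hk], fun z => ?_⟩
  have h1 := hg' (g.symm z)
  have h2 := hk' (g.symm z)
  rw [g.apply_symm_apply, dist_comm] at h1
  have h3 := dist_triangle (k (g.symm z)) (g.symm z) z
  simp only [Homeomorph.trans_apply]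
  linarith

end Pool.Agent.Work.MP_7dea6f_gt
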