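import Mathlib

/-! Definitions for the full solution of MP_7dea6f_gt (S13445). -/

namespace Pool.Agent.Work.MP_7dea6f_gt

/-- uniform micro-homogeneity: points at distance `< δ` are carried to each other by
homeomorphisms of displacement `< ε`. -/
def UH (E : Type*) [MetricSpace E] : Prop :=
  ∀ ε > (0:ℝ), ∃ δ > (0:ℝ), ∀ e e' : E, dist e e' < δ →
    ∃ g : E ≃ₜ E, (∀ z, dist (g z) z < ε) ∧ g e = e'

/-- the chain component of `x` at scale `δ` -/
def chainComp {E : Type*} [MetricSpace E] (δ : ℝ) (x : E) : Set E :=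
  {y | Relation.ReflTransGen (fun a b => dist a b < δ) x y}

/-- the nerve graph of a family of sets -/
def nerve {C W : Type*} (V : W → Set C) : SimpleGraph W where
  Adj w w' := w ≠ w' ∧ (V w ∩ V w').Nonempty
  symm := ⟨fun _ _ h => ⟨h.1.symm, by rw [Set.inter_comm]; exact h.2⟩⟩
  loopless := ⟨fun _ h => h.1 rfl⟩

/-- An `S`-equivariant open cover by relatively compact sets, locally finite, with acyclic nerve. -/
structure TreeCover (C S : Type) [TopologicalSpace C] [Group S] [MulAction S C] where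
  W : Type
  act : S → W → W
  V : W → Set C
  isOpen : ∀ w, IsOpen (V w)
  nonempty : ∀ w, (V w).Nonempty
  cover : ∀ x, ∃ w, x ∈ V w
  act_one : ∀ w, act 1 w = w
  act_mul : ∀ h k w, act (h * k) w = act h (act k w)
  equi : ∀ (h : S) (w : W), V (act h w) = (fun x => h • x) '' V w
  relcpt : ∀ w, ∃ K, IsCompact K ∧ V w ⊆ K
  locfin : ∀ K, IsCompact K → {w | (V w ∩ K).Nonempty}.Finite
  acyclic : (nerve V).IsAcyclic

end Pool.Agent.Work.MP_7dea6f_gt
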