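import Mathlib

/-!
# Almost invariant sets in free groups
-/

set_option autoImplicit false

namespace Pool.Agent.Work.MP_7dea6f_gt

open Filter

namespace FreeEnds

variable {B : Type*} [DecidableEq B]

/-- Multiplying a reduced word of length at least two by one letter keeps the first letter. -/
theorem head_append_singleton (x : B × Bool) : ∀ w : List (B × Bool), FreeGroup.IsReduced w →
    2 ≤ w.length → (FreeGroup.reduce (w ++ [x])).head? = w.head?
  | [], _, h => by simp at h
  | [_], _, h => by simp at h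
  | y :: z :: w, hw, _ => by
    have hyz : ¬ (y.1 = z.1 ∧ y.2 = !z.2) := by
      intro h
      have := hw
      rw [FreeGroup.IsReduced, List.isChain_cons_cons] at this
      have h2 := this.1 h.1
      rw [h.2] at h2
      simp at h2
    have hw' : FreeGroup.IsReduced (z :: w) := by
      have := hw
      rw [FreeGroup.IsReduced, List.isChain_cons_cons] at this
      exact this.2
    rw [List.cons_append, FreeGroup.reduce.cons]
    rcases Nat.lt_or_ge (z :: w).length 2 with h | h
    · have hw0 : w = [] := by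
        rw [List.length_cons] at h
        exact List.length_eq_zero_iff.1 (by omega)
      subst hw0
      simp only [List.cons_append, List.nil_append, FreeGroup.reduce.cons,
        FreeGroup.reduce_nil]
      by_cases hzx : z.1 = x.1 ∧ z.2 = !x.2
      · simp [hzx]
      · simp [hzx, hyz]
    · have ih := head_append_singleton x (z :: w) hw' h
      revert ih
      generalize FreeGroup.reduce (z :: w ++ [x]) = r
      intro ih
      rcases r with _ | ⟨a, r⟩
      · simp at ih
      · have : a = z := by simpa using ih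
        subst this
        simp [hyz]

theorem head_mul_mk : ∀ (L : List (B × Bool)) (k : FreeGroup B), L.length < k.norm →
    (k * FreeGroup.mk L).toWord.head? = k.toWord.head?
  | [], k, _ => by
    have : (FreeGroup.mk [] : FreeGroup B) = 1 := rfl
    rw [this, mul_one]
  | x :: L, k, h => by
    rw [List.length_cons] at h
    have e : (FreeGroup.mk (x :: L) : FreeGroup B) = FreeGroup.mk [x] * FreeGroup.mk L := by
      rw [FreeGroup.mul_mk]; rfl
    have hn : k.norm ≤ (k * FreeGroup.mk [x]).norm + 1 := by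
      have h1 := FreeGroup.norm_mul_le (k * FreeGroup.mk [x]) (FreeGroup.mk [x])⁻¹
      rw [mul_inv_cancel_right, FreeGroup.norm_inv_eq] at h1
      have h2 : (FreeGroup.mk [x] : FreeGroup B).norm ≤ 1 := FreeGroup.norm_mk_le
      omega
    rw [e, ← mul_assoc, head_mul_mk L (k * FreeGroup.mk [x]) (by omega)]
    rw [FreeGroup.toWord_mul, FreeGroup.toWord_mk, FreeGroup.reduce_singleton]
    refine head_append_singleton x _ FreeGroup.isReduced_toWord ?_
    rw [FreeGroup.norm] at h
    omega

theorem head_mul (k h : FreeGroup B) (hh : h.norm < k.norm) :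
    (k * h).toWord.head? = k.toWord.head? := by
  have := head_mul_mk h.toWord k hh
  rwa [FreeGroup.mk_toWord] at this

theorem finite_norm_le [Finite B] (n : ℕ) : {k : FreeGroup B | k.norm ≤ n}.Finite := by
  have : {k : FreeGroup B | k.norm ≤ n} ⊆
      FreeGroup.mk '' {l : List (B × Bool) | l.length ≤ n} := by
    intro k hk
    exact ⟨k.toWord, hk, FreeGroup.mk_toWord⟩
  exact ((List.finite_length_le (B × Bool) n).image _).subset this

theorem finite_ai [Finite B] (a : B × Bool) (h : FreeGroup B) :
    {k : FreeGroup B | k ∈ {k : FreeGroup B | k.toWord.head? = some a} ∧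
      k * h ∉ {k : FreeGroup B | k.toWord.head? = some a}}.Finite := by
  refine (finite_norm_le h.norm).subset ?_
  rintro k ⟨h1, h2⟩
  rw [Set.mem_ofPred_eq] at h1 h2 ⊢
  by_contra h3
  rw [head_mul k h (not_le.1 h3)] at h2
  exact h2 h1

theorem eventually_pow (s : B) (φ : FreeGroup B) : ∀ᶠ n : ℕ in atTop,
    ((FreeGroup.of s) ^ n * φ).toWord.head? = some (s, true) := by
  filter_upwards [eventually_gt_atTop φ.norm] with n hn
  rw [head_mul _ _ (by rw [FreeGroup.norm_of_pow]; exact hn), FreeGroup.toWord_of_pow]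
  obtain ⟨m, rfl⟩ : ∃ m, n = m + 1 := ⟨n - 1, by omega⟩
  rw [List.replicate_succ, List.head?_cons]

theorem eventually_inv_pow (s : B) (φ : FreeGroup B) : ∀ᶠ n : ℕ in atTop,
    (((FreeGroup.of s)⁻¹) ^ n * φ).toWord.head? = some (s, false) := by
  filter_upwards [eventually_gt_atTop φ.norm] with n hn
  rw [head_mul _ _ (by rw [inv_pow, FreeGroup.norm_inv_eq, FreeGroup.norm_of_pow]; exact hn),
    inv_pow, FreeGroup.toWord_inv, FreeGroup.toWord_of_pow]
  obtain ⟨m, rfl⟩ : ∃ m, n = m + 1 := ⟨n - 1, by omega⟩
  rw [FreeGroup.invRev, List.map_replicate, List.reverse_replicate, List.replicate_succ,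
    List.head?_cons]
  rfl

end FreeEnds

theorem free_ends {B : Type*} [Finite B] (s t : B) (hst : s ≠ t) :
    ∃ Wa Wb Wc : Set (FreeGroup B), Disjoint Wa Wb ∧ Disjoint Wa Wc ∧ Disjoint Wb Wc ∧
      (∀ h, {k | k ∈ Wa ∧ k * h ∉ Wa}.Finite) ∧ (∀ h, {k | k ∈ Wb ∧ k * h ∉ Wb}.Finite) ∧
      (∀ φ, ∀ᶠ n : ℕ in atTop, (FreeGroup.of s) ^ n * φ ∈ Wa) ∧
      (∀ φ, ∀ᶠ n : ℕ in atTop, ((FreeGroup.of s)⁻¹) ^ n * φ ∈ Wb) ∧
      (∀ φ, ∀ᶠ n : ℕ in atTop, (FreeGroup.of t) ^ n * φ ∈ Wc) := by
  classical
  have hd : ∀ a b : B × Bool, a ≠ b → Disjoint {k : FreeGroup B | k.toWord.head? = some a}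
      {k : FreeGroup B | k.toWord.head? = some b} := by
    intro a b hab
    rw [Set.disjoint_left]
    intro k h1 h2
    rw [Set.mem_ofPred_eq] at h1 h2
    rw [h1] at h2
    exact hab (Option.some.inj h2)
  refine ⟨{k | k.toWord.head? = some (s, true)}, {k | k.toWord.head? = some (s, false)},
    {k | k.toWord.head? = some (t, true)}, hd _ _ (by simp), hd _ _ ?_, hd _ _ ?_,
    FreeEnds.finite_ai _, FreeEnds.finite_ai _, FreeEnds.eventually_pow s,
    FreeEnds.eventually_inv_pow s, FreeEnds.eventually_pow t⟩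
  · intro h; exact hst (congrArg Prod.fst h)
  · intro h; exact hst (congrArg Prod.fst h)

end Pool.Agent.Work.MP_7dea6f_gt
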