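import Mathlib
import Pool.Agent.Work.MP_7dea6f_gt.Defs
import Pool.Agent.Work.MP_7dea6f_gt.FreeEnds

open Filter Topology Set

namespace Pool.Agent.Work.MP_7dea6f_gt

section ends
variable {C S : Type} [TopologicalSpace C] [Group S] [MulAction S C]

/-- eventually `γ^n K ⊆ P`, for every compact `K` -/
def Ev (γ : S) (P : Set C) : Prop :=
  ∀ K : Set C, IsCompact K → ∀ᶠ n : ℕ in atTop, ∀ x ∈ K, γ ^ n • x ∈ P

theorem Ev.mono {γ : S} {P Q : Set C} (h : Ev γ P) (hPQ : P ⊆ Q) : Ev γ Q := by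
  intro K hK
  filter_upwards [h K hK] with n hn x hx
  exact hPQ (hn x hx)

theorem Ev.inter {γ : S} {P Q : Set C} (h : Ev γ P) (h' : Ev γ Q) : Ev γ (P ∩ Q) := by
  intro K hK
  filter_upwards [h K hK, h' K hK] with n hn hn' x hx
  exact ⟨hn x hx, hn' x hx⟩

theorem Ev.univ (γ : S) : Ev γ (Set.univ : Set C) := by
  intro K hK
  exact Eventually.of_forall (fun _ _ _ => trivial)

theorem Ev.biInter {γ : S} {ι : Type*} (t : Finset ι) (R : ι → Set C)
    (h : ∀ i ∈ t, Ev γ (R i)) : Ev γ (⋂ i ∈ t, R i) := by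
  intro K hK
  have : ∀ᶠ n : ℕ in atTop, ∀ i ∈ t, ∀ x ∈ K, γ ^ n • x ∈ R i := by
    rw [Filter.eventually_all_finset]
    intro i hi
    exact h i hi K hK
  filter_upwards [this] with n hn x hx
  simp only [Set.mem_iInter]
  intro i hi
  exact hn i hi x hx

theorem Ev.nonempty [Nonempty C] {γ : S} {P : Set C} (h : Ev γ P) : P.Nonempty := by
  obtain ⟨x⟩ := (inferInstance : Nonempty C)
  obtain ⟨n, hn⟩ := (h {x} isCompact_singleton).exists
  exact ⟨_, hn x rfl⟩

theorem Ev.image {γ : S} {P : Set C} (h : Ev γ P) (g : C ≃ₜ C)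
    (hg : ∀ (h : S) (z : C), g (h • z) = h • g z) : Ev γ (g '' P) := by
  intro K hK
  have hK' : IsCompact (g.symm '' K) := hK.image g.symm.continuous
  filter_upwards [h _ hK'] with n hn x hx
  refine ⟨γ ^ n • g.symm x, hn _ ⟨x, hx, rfl⟩, ?_⟩
  rw [hg, g.apply_symm_apply]

theorem Ev.preimage {γ : S} {P : Set C} (h : Ev γ P) (g : C ≃ₜ C)
    (hg : ∀ (h : S) (z : C), g (h • z) = h • g z) : Ev γ (g ⁻¹' P) := by
  intro K hK
  have hK' : IsCompact (g '' K) := hK.image g.continuous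
  filter_upwards [h _ hK'] with n hn x hx
  show g (γ ^ n • x) ∈ P
  rw [hg]
  exact hn _ ⟨x, hx, rfl⟩

/-- the union of the translates `h K0`, `h ∈ W` -/
def HH (K0 : Set C) (W : Set S) : Set C := {x | ∃ h ∈ W, ∃ y ∈ K0, h • y = x}

omit [TopologicalSpace C] in
theorem HH_mono (K0 : Set C) {W W' : Set S} (h : W ⊆ W') : HH K0 W ⊆ HH K0 W' := by
  rintro x ⟨g, hg, y, hy, rfl⟩
  exact ⟨g, h hg, y, hy, rfl⟩

omit [TopologicalSpace C] in
theorem HH_cover (K0 : Set C) (hcc : ∀ x : C, ∃ h : S, h • x ∈ K0) (W : Set S) (x : C) :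
    x ∈ HH K0 W ∨ x ∈ HH K0 Wᶜ := by
  obtain ⟨h, hh⟩ := hcc x
  by_cases hW : h⁻¹ ∈ W
  · left; exact ⟨h⁻¹, hW, h • x, hh, by simp⟩
  · right; exact ⟨h⁻¹, hW, h • x, hh, by simp⟩

theorem HH_closed [T2Space C] [LocallyCompactSpace C]
    (hcont : ∀ h : S, Continuous (fun x : C => h • x))
    (proper : ∀ K L : Set C, IsCompact K → IsCompact L →
      {h : S | (((fun x => h • x) '' K) ∩ L).Nonempty}.Finite)
    (K0 : Set C) (hK0 : IsCompact K0) (W : Set S) : IsClosed (HH K0 W) := by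
  have e : HH K0 W = ⋃ h : W, ((fun x => (h : S) • x) '' K0) := by
    ext x
    simp only [HH, Set.mem_ofPred_eq, Set.mem_iUnion, Set.mem_image, Subtype.exists, exists_prop]
  rw [e]
  apply LocallyFinite.isClosed_iUnion
  · intro x
    obtain ⟨L, hL, hxL⟩ := exists_compact_mem_nhds x
    refine ⟨L, hxL, ?_⟩
    apply Set.Finite.of_finite_image (f := (Subtype.val : W → S))
    · apply (proper K0 L hK0 hL).subset
      rintro _ ⟨h, hh, rfl⟩
      exact hh
    · exact Subtype.val_injective.injOn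
  · intro h
    exact (hK0.image (hcont h)).isClosed

theorem HH_inter_compact [T2Space C] [LocallyCompactSpace C]
    (hcont : ∀ h : S, Continuous (fun x : C => h • x))
    (proper : ∀ K L : Set C, IsCompact K → IsCompact L →
      {h : S | (((fun x => h • x) '' K) ∩ L).Nonempty}.Finite)
    (K0 : Set C) (hK0 : IsCompact K0) (W : Set S)
    (hW : ∀ h, {k | k ∈ W ∧ k * h ∉ W}.Finite) : IsCompact (HH K0 W ∩ HH K0 Wᶜ) := by
  have hΦ := proper K0 K0 hK0 hK0
  set Φ := {h : S | (((fun x => h • x) '' K0) ∩ K0).Nonempty} with hΦdef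
  have hF : (⋃ φ ∈ Φ, {k | k ∈ W ∧ k * φ ∉ W}).Finite := hΦ.biUnion (fun φ _ => hW φ)
  have hc : IsCompact (⋃ h ∈ (⋃ φ ∈ Φ, {k | k ∈ W ∧ k * φ ∉ W}), ((fun x => h • x) '' K0)) :=
    hF.isCompact_biUnion (fun h _ => hK0.image (hcont h))
  apply hc.of_isClosed_subset
  · exact (HH_closed hcont proper K0 hK0 W).inter (HH_closed hcont proper K0 hK0 Wᶜ)
  · rintro x ⟨⟨h, hh, y, hy, rfl⟩, ⟨k, hk, z, hz, hkz⟩⟩
    simp only [Set.mem_iUnion]
    refine ⟨h, ⟨h⁻¹ * k, ?_, hh, ?_⟩, ⟨y, hy, rfl⟩⟩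
    · refine ⟨y, ⟨z, hz, ?_⟩, hy⟩
      show (h⁻¹ * k) • z = y
      rw [mul_smul, hkz, inv_smul_smul]
    · rw [mul_inv_cancel_left]; exact hk

theorem Ev_compl_HH
    (proper : ∀ K L : Set C, IsCompact K → IsCompact L →
      {h : S | (((fun x => h • x) '' K) ∩ L).Nonempty}.Finite)
    (K0 : Set C) (hK0 : IsCompact K0) (W : Set S) (γ : S)
    (hW : ∀ φ, ∀ᶠ n : ℕ in atTop, γ ^ n * φ ∈ W) : Ev γ (HH K0 Wᶜ)ᶜ := by
  intro K hK
  have hΦ := proper K0 K hK0 hK
  set Φ := {h : S | (((fun x => h • x) '' K0) ∩ K).Nonempty} with hΦdef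
  have : ∀ᶠ n : ℕ in atTop, ∀ φ ∈ Φ, γ ^ n * φ ∈ W := by
    rw [Filter.eventually_all_finite hΦ]
    intro φ _
    exact hW φ
  filter_upwards [this] with n hn x hx
  rintro ⟨h, hh, y, hy, hxy⟩
  have h1 : (γ ^ n)⁻¹ * h ∈ Φ := by
    refine ⟨x, ⟨y, hy, ?_⟩, hx⟩
    show ((γ ^ n)⁻¹ * h) • y = x
    rw [mul_smul, hxy, inv_smul_smul]
  have h2 := hn _ h1
  rw [mul_inv_cancel_left] at h2
  exact hh h2

/-- step (1) -/
theorem exists_ya [T2Space C] [LocallyCompactSpace C] [ConnectedSpace C]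
    (hcont : ∀ h : S, Continuous (fun x : C => h • x))
    (proper : ∀ K L : Set C, IsCompact K → IsCompact L →
      {h : S | (((fun x => h • x) '' K) ∩ L).Nonempty}.Finite)
    (K0 : Set C) (hK0 : IsCompact K0) (hcc : ∀ x : C, ∃ h : S, h • x ∈ K0)
    (W : Set S) (γ : S)
    (hW : ∀ h, {k | k ∈ W ∧ k * h ∉ W}.Finite)
    (ha : Ev γ (HH K0 W)) (hne : (HH K0 W)ᶜ.Nonempty) :
    ∃ y ∈ HH K0 W, ∀ P R : Set C, IsClosed P → IsClosed R → Disjoint P R →
      P ∪ R = HH K0 W → y ∈ P → ¬ Ev γ R := by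
  by_contra hcon
  push Not at hcon
  have hcl := HH_closed hcont proper K0 hK0 W
  have hcl' := HH_closed hcont proper K0 hK0 Wᶜ
  have hD := HH_inter_compact hcont proper K0 hK0 W hW
  have hch : ∀ y : (HH K0 W ∩ HH K0 Wᶜ : Set C), ∃ PR : Set C × Set C, IsClosed PR.1 ∧
      IsClosed PR.2 ∧ Disjoint PR.1 PR.2 ∧ PR.1 ∪ PR.2 = HH K0 W ∧ (y : C) ∈ PR.1 ∧
      Ev γ PR.2 := by
    intro y
    obtain ⟨P, R, h1, h2, h3, h4, h5, h6⟩ := hcon y y.2.1
    exact ⟨(P, R), h1, h2, h3, h4, h5, h6⟩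
  choose PR h1 h2 h3 h4 h5 h6 using hch
  obtain ⟨t, ht⟩ := hD.elim_finite_subcover (fun y => (PR y).2ᶜ)
    (fun y => (h2 y).isOpen_compl) (by
      intro y hy
      simp only [Set.mem_iUnion]
      refine ⟨⟨y, hy⟩, ?_⟩
      intro hy2
      exact (Set.disjoint_left.mp (h3 ⟨y, hy⟩)) (h5 ⟨y, hy⟩) hy2)
  set R : Set C := HH K0 W ∩ ⋂ y ∈ t, (PR y).2 with hRdef
  have hRcl : IsClosed R := by
    apply hcl.inter
    exact isClosed_biInter (fun y _ => h2 y)
  have hRD : ∀ x ∈ R, x ∉ HH K0 Wᶜ := by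
    rintro x ⟨hx1, hx2⟩ hx3
    have := ht ⟨hx1, hx3⟩
    simp only [Set.mem_iUnion, Set.mem_compl_iff] at this
    obtain ⟨y, hy, hy2⟩ := this
    simp only [Set.mem_iInter] at hx2
    exact hy2 (hx2 y hy)
  have hRop : IsOpen R := by
    have e : R = (HH K0 Wᶜ)ᶜ ∩ ⋂ y ∈ t, (PR y).1ᶜ := by
      ext x
      constructor
      · intro hx
        refine ⟨hRD x hx, ?_⟩
        simp only [Set.mem_iInter, Set.mem_compl_iff]
        intro y hy hxy
        have := hx.2
        simp only [Set.mem_iInter] at this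
        exact (Set.disjoint_left.mp (h3 y)) hxy (this y hy)
      · rintro ⟨hx1, hx2⟩
        have hxW : x ∈ HH K0 W := (HH_cover K0 hcc W x).resolve_right hx1
        refine ⟨hxW, ?_⟩
        simp only [Set.mem_iInter, Set.mem_compl_iff] at hx2 ⊢
        intro y hy
        have := hxW
        rw [← h4 y] at this
        exact this.resolve_left (hx2 y hy)
    rw [e]
    apply hcl'.isOpen_compl.inter
    exact isOpen_biInter_finset (fun y _ => (h1 y).isOpen_compl)
  have hRev : Ev γ R := ha.inter (Ev.biInter t _ (fun y _ => h6 y))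
  have hcl : IsClopen R := ⟨hRcl, hRop⟩
  rcases isClopen_iff.mp hcl with h | h
  · have := hRev.nonempty
    rw [h] at this
    exact Set.not_nonempty_empty this
  · obtain ⟨z, hz⟩ := hne
    apply hz
    have : z ∈ R := by rw [h]; trivial
    exact this.1

/-- no splitting of `X` into disjoint closed sets, one containing the `α` end, the other the
`β` end -/
def NoSplit (α β : S) (X : Set C) : Prop :=
  ∀ P R : Set C, IsClosed P → IsClosed R → Disjoint P R → P ∪ R = X → Ev α P → Ev β R → False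

theorem nosplit (α β : S) (Ha Hb : Set C) (ya yb : C) (hya : ya ∈ Ha) (hyb : yb ∈ Hb)
    (hA : ∀ P R : Set C, IsClosed P → IsClosed R → Disjoint P R →
      P ∪ R = Ha → ya ∈ P → ¬ Ev α R)
    (hB : ∀ P R : Set C, IsClosed P → IsClosed R → Disjoint P R →
      P ∪ R = Hb → yb ∈ P → ¬ Ev β R)
    (hEa : Ev α Ha) (hEb : Ev β Hb) (hHa : IsClosed Ha) (hHb : IsClosed Hb)
    (g : C ≃ₜ C) (hg : ∀ (h : S) (z : C), g (h • z) = h • g z) (hgy : g yb = ya) :
    NoSplit α β (Ha ∪ g '' Hb) := by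
  intro P R hP hR hPR hu hEP hER
  have hy : ya ∈ P ∪ R := by rw [hu]; exact Or.inl hya
  rcases hy with hy | hy
  · refine hB (g ⁻¹' P ∩ Hb) (g ⁻¹' R ∩ Hb) ((hP.preimage g.continuous).inter hHb)
      ((hR.preimage g.continuous).inter hHb) ?_ ?_ ?_ ?_
    · rw [Set.disjoint_left] at hPR ⊢
      rintro x ⟨hx, _⟩ ⟨hx', _⟩
      exact hPR hx hx'
    · ext x
      constructor
      · rintro (⟨_, h⟩ | ⟨_, h⟩) <;> exact h
      · intro hx
        have : g x ∈ P ∪ R := by rw [hu]; exact Or.inr ⟨x, hx, rfl⟩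
        rcases this with h | h
        · exact Or.inl ⟨h, hx⟩
        · exact Or.inr ⟨h, hx⟩
    · refine ⟨?_, hyb⟩
      show g yb ∈ P
      rw [hgy]; exact hy
    · exact (hER.preimage g hg).inter hEb
  · refine hA (R ∩ Ha) (P ∩ Ha) (hR.inter hHa) (hP.inter hHa) ?_ ?_ ⟨hy, hya⟩ (hEP.inter hEa)
    · rw [Set.disjoint_left] at hPR ⊢
      rintro x ⟨hx, _⟩ ⟨hx', _⟩
      exact hPR hx' hx
    · ext x
      constructor
      · rintro (⟨_, h⟩ | ⟨_, h⟩) <;> exact h
      · intro hx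
        have : x ∈ P ∪ R := by rw [hu]; exact Or.inl hx
        rcases this with h | h
        · exact Or.inr ⟨h, hx⟩
        · exact Or.inl ⟨h, hx⟩

theorem NoSplit.image {α β : S} {X : Set C} (h : NoSplit α β X) (g : C ≃ₜ C)
    (hg : ∀ (h : S) (z : C), g (h • z) = h • g z) : NoSplit α β (g '' X) := by
  intro P R hP hR hPR hu hEP hER
  refine h (g ⁻¹' P) (g ⁻¹' R) (hP.preimage g.continuous) (hR.preimage g.continuous)
    (hPR.preimage g) ?_ (hEP.preimage g hg) (hER.preimage g hg)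
  rw [← Set.preimage_union, hu, Set.preimage_image_eq _ g.injective]

theorem eventually_avoid
    (proper : ∀ K L : Set C, IsCompact K → IsCompact L →
      {h : S | (((fun x => h • x) '' K) ∩ L).Nonempty}.Finite)
    (γ : S) (hγ : Function.Injective (fun n : ℕ => γ ^ n)) (K L : Set C) (hK : IsCompact K)
    (hL : IsCompact L) : ∀ᶠ n : ℕ in atTop, ∀ x ∈ K, γ ^ n • x ∉ L := by
  have hF := (proper K L hK hL).preimage (f := fun n : ℕ => γ ^ n) hγ.injOn
  have := hF.compl_mem_cofinite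
  rw [Nat.cofinite_eq_atTop] at this
  filter_upwards [this] with n hn x hx hxL
  exact hn ⟨_, ⟨x, hx, rfl⟩, hxL⟩

/-- reachability avoiding a set -/
def av {W : Type} (G : SimpleGraph W) (X : Set W) (u v : W) : Prop :=
  ∃ p : G.Walk u v, ∀ x ∈ p.support, x ∉ X

theorem av.mono {W : Type} {G : SimpleGraph W} {X Y : Set W} {u v : W} (h : av G X u v)
    (hYX : Y ⊆ X) : av G Y u v := by
  obtain ⟨p, hp⟩ := h
  exact ⟨p, fun x hx hxY => hp x hx (hYX hxY)⟩

theorem av.trans {W : Type} {G : SimpleGraph W} {X : Set W} {u v w : W} (h : av G X u v)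
    (h' : av G X v w) : av G X u w := by
  obtain ⟨p, hp⟩ := h
  obtain ⟨q, hq⟩ := h'
  refine ⟨p.append q, fun x hx => ?_⟩
  rw [SimpleGraph.Walk.mem_support_append_iff] at hx
  rcases hx with hx | hx
  · exact hp x hx
  · exact hq x hx

theorem av.symm {W : Type} {G : SimpleGraph W} {X : Set W} {u v : W} (h : av G X u v) :
    av G X v u := by
  obtain ⟨p, hp⟩ := h
  refine ⟨p.reverse, fun x hx => ?_⟩
  rw [SimpleGraph.Walk.support_reverse, List.mem_reverse] at hx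
  exact hp x hx

theorem av.right {W : Type} {G : SimpleGraph W} {X : Set W} {u v : W} (h : av G X u v) :
    v ∉ X := by
  obtain ⟨p, hp⟩ := h
  exact hp v p.end_mem_support

theorem av.left {W : Type} {G : SimpleGraph W} {X : Set W} {u v : W} (h : av G X u v) :
    u ∉ X := by
  obtain ⟨p, hp⟩ := h
  exact hp u p.start_mem_support

theorem av.refl {W : Type} {G : SimpleGraph W} {X : Set W} {u : W} (h : u ∉ X) :
    av G X u u := by
  refine ⟨SimpleGraph.Walk.nil, fun x hx => ?_⟩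
  rw [SimpleGraph.Walk.support_nil, List.mem_singleton] at hx
  rw [hx]; exact h

theorem av.step {W : Type} {G : SimpleGraph W} {X : Set W} {u v w : W} (h : av G X u v)
    (ha : G.Adj v w) (hw : w ∉ X) : av G X u w := by
  refine h.trans ⟨SimpleGraph.Walk.cons ha SimpleGraph.Walk.nil, fun x hx => ?_⟩
  rw [SimpleGraph.Walk.support_cons, SimpleGraph.Walk.support_nil] at hx
  simp only [List.mem_cons, List.not_mem_nil, or_false] at hx
  rcases hx with rfl | rfl
  · exact h.right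
  · exact hw

theorem act_injective (T : TreeCover C S) (h : S) : Function.Injective (T.act h) := by
  intro a b hab
  have := congrArg (T.act h⁻¹) hab
  rw [← T.act_mul, ← T.act_mul, inv_mul_cancel, T.act_one, T.act_one] at this
  exact this

/-- the action on the nerve -/
def actHom (T : TreeCover C S) (h : S) : nerve T.V →g nerve T.V where
  toFun := T.act h
  map_rel' := by
    rintro a b ⟨hab, x, hxa, hxb⟩
    refine ⟨fun h' => hab (act_injective T h h'), h • x, ?_, ?_⟩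
    · rw [T.equi]; exact ⟨x, hxa, rfl⟩
    · rw [T.equi]; exact ⟨x, hxb, rfl⟩

theorem av.act {T : TreeCover C S} (h : S) {X : Set T.W} {u v : T.W}
    (p : (nerve T.V).Walk u v) (hp : ∀ x ∈ p.support, T.act h x ∉ X) :
    av (nerve T.V) X (T.act h u) (T.act h v) := by
  refine ⟨p.map (actHom T h), fun x hx => ?_⟩
  have hx' : x ∈ p.support.map (actHom T h) := by
    rw [← SimpleGraph.Walk.support_map]; exact hx
  rw [List.mem_map] at hx'
  obtain ⟨y, hy, rfl⟩ := hx'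
  exact hp y hy

theorem nerve_connected [ConnectedSpace C] (T : TreeCover C S) (w w' : T.W) :
    (nerve T.V).Reachable w w' := by
  set U : Set C := ⋃ v ∈ {v | (nerve T.V).Reachable w v}, T.V v with hU
  have hUo : IsOpen U := isOpen_biUnion (fun v _ => T.isOpen v)
  have hUc : Uᶜ = ⋃ v ∈ {v | ¬ (nerve T.V).Reachable w v}, T.V v := by
    ext x
    constructor
    · intro hx
      obtain ⟨v, hv⟩ := T.cover x
      rw [Set.mem_iUnion₂]
      refine ⟨v, ?_, hv⟩
      intro hr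
      apply hx
      rw [hU, Set.mem_iUnion₂]
      exact ⟨v, hr, hv⟩
    · intro hx hxU
      rw [Set.mem_iUnion₂] at hx
      rw [hU, Set.mem_iUnion₂] at hxU
      obtain ⟨v, hv, hxv⟩ := hx
      obtain ⟨v', hv', hxv'⟩ := hxU
      by_cases hvv : v' = v
      · subst hvv; exact hv hv'
      · apply hv
        exact SimpleGraph.Reachable.trans hv' (SimpleGraph.Adj.reachable ⟨hvv, x, hxv', hxv⟩)
  have hcl : IsClopen U := by
    refine ⟨⟨?_⟩, hUo⟩
    rw [hUc]
    exact isOpen_biUnion (fun v _ => T.isOpen v)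
  rcases isClopen_iff.mp hcl with h | h
  · exfalso
    obtain ⟨x, hx⟩ := T.nonempty w
    have : x ∈ U := by
      rw [hU, Set.mem_iUnion₂]
      exact ⟨w, SimpleGraph.Reachable.refl w, hx⟩
    rw [h] at this
    exact this
  · by_contra hcon
    obtain ⟨x, hx⟩ := T.nonempty w'
    have h1 : x ∈ Uᶜ := by
      rw [hUc, Set.mem_iUnion₂]
      exact ⟨w', hcon, hx⟩
    rw [h] at h1
    exact h1 trivial

/-- the splitting of `C \ V w` obtained from a separating vertex `w` -/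
theorem split_of_sep
    (proper : ∀ K L : Set C, IsCompact K → IsCompact L →
      {h : S | (((fun x => h • x) '' K) ∩ L).Nonempty}.Finite)
    (T : TreeCover C S) (α β : S) (hα : Function.Injective (fun n : ℕ => α ^ n))
    (hβ : Function.Injective (fun n : ℕ => β ^ n)) (w u v : T.W)
    (hsep : ¬ av (nerve T.V) {w} u v)
    (ha : ∀ w', ∀ᶠ n : ℕ in atTop, av (nerve T.V) {w} u (T.act (α ^ n) w'))
    (hb : ∀ w', ∀ᶠ n : ℕ in atTop, av (nerve T.V) {w} v (T.act (β ^ n) w')) :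
    ∃ P R : Set C, IsClosed P ∧ IsClosed R ∧ Disjoint P R ∧ P ∪ R = (T.V w)ᶜ ∧
      Ev α P ∧ Ev β R := by
  set A : Set T.W := {w' | av (nerve T.V) {w} u w'} with hA
  set A' : Set T.W := {w' | w' ≠ w ∧ w' ∉ A} with hA'
  have hwA : w ∉ A := fun h => (av.right h) rfl
  have hkey : ∀ w1 ∈ A, ∀ w2 ∈ A', ∀ x, x ∈ T.V w1 → x ∈ T.V w2 → False := by
    intro w1 h1 w2 h2 x hx1 hx2
    by_cases h12 : w1 = w2
    · subst h12; exact h2.2 h1
    · exact h2.2 (av.step h1 ⟨h12, x, hx1, hx2⟩ h2.1)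
  have hcov : ∀ x, x ∉ T.V w → (∃ w1 ∈ A, x ∈ T.V w1) ∨ (∃ w2 ∈ A', x ∈ T.V w2) := by
    intro x hx
    obtain ⟨v', hv'⟩ := T.cover x
    by_cases h : v' ∈ A
    · left; exact ⟨v', h, hv'⟩
    · right
      refine ⟨v', ⟨?_, h⟩, hv'⟩
      rintro rfl
      exact hx hv'
  have hop1 : IsOpen (T.V w ∪ ⋃ w2 ∈ A', T.V w2) :=
    (T.isOpen w).union (isOpen_biUnion (fun v _ => T.isOpen v))
  have hop2 : IsOpen (T.V w ∪ ⋃ w1 ∈ A, T.V w1) :=
    (T.isOpen w).union (isOpen_biUnion (fun v _ => T.isOpen v))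
  refine ⟨(T.V w ∪ ⋃ w2 ∈ A', T.V w2)ᶜ, (T.V w ∪ ⋃ w1 ∈ A, T.V w1)ᶜ, hop1.isClosed_compl,
    hop2.isClosed_compl, ?_, ?_, ?_, ?_⟩
  · rw [Set.disjoint_left]
    intro x hx1 hx2
    rcases hcov x (fun h => hx1 (Or.inl h)) with ⟨w1, h1, h2⟩ | ⟨w1, h1, h2⟩
    · apply hx2; right; rw [Set.mem_iUnion₂]; exact ⟨w1, h1, h2⟩
    · apply hx1; right; rw [Set.mem_iUnion₂]; exact ⟨w1, h1, h2⟩
  · ext x
    constructor
    · rintro (hx | hx) hxw
      · exact hx (Or.inl hxw)
      · exact hx (Or.inl hxw)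
    · intro hx
      rcases hcov x hx with ⟨w1, h1, h2⟩ | ⟨w1, h1, h2⟩
      · left
        rintro (h | h)
        · exact hx h
        · rw [Set.mem_iUnion₂] at h
          obtain ⟨w2, h3, h4⟩ := h
          exact hkey w1 h1 w2 h3 x h2 h4
      · right
        rintro (h | h)
        · exact hx h
        · rw [Set.mem_iUnion₂] at h
          obtain ⟨w2, h3, h4⟩ := h
          exact hkey w2 h3 w1 h1 x h4 h2
  · intro K hK
    obtain ⟨Kw, hKw, hVw⟩ := T.relcpt w
    have hF := T.locfin K hK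
    have h1 : ∀ᶠ n : ℕ in atTop, ∀ w' ∈ {w' | (T.V w' ∩ K).Nonempty},
        av (nerve T.V) {w} u (T.act (α ^ n) w') := by
      rw [Filter.eventually_all_finite hF]
      intro w' _
      exact ha w'
    filter_upwards [h1, eventually_avoid proper α hα K Kw hK hKw] with n hn hn' x hx
    rintro (h | h)
    · exact hn' x hx (hVw h)
    · rw [Set.mem_iUnion₂] at h
      obtain ⟨w2, h3, h4⟩ := h
      obtain ⟨w', hw'⟩ := T.cover x
      refine hkey _ (hn w' ⟨x, hw', hx⟩) w2 h3 _ ?_ h4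
      rw [T.equi]; exact ⟨x, hw', rfl⟩
  · intro K hK
    obtain ⟨Kw, hKw, hVw⟩ := T.relcpt w
    have hF := T.locfin K hK
    have h1 : ∀ᶠ n : ℕ in atTop, ∀ w' ∈ {w' | (T.V w' ∩ K).Nonempty},
        av (nerve T.V) {w} v (T.act (β ^ n) w') := by
      rw [Filter.eventually_all_finite hF]
      intro w' _
      exact hb w'
    filter_upwards [h1, eventually_avoid proper β hβ K Kw hK hKw] with n hn hn' x hx
    rintro (h | h)
    · exact hn' x hx (hVw h)
    · rw [Set.mem_iUnion₂] at h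
      obtain ⟨w2, h3, h4⟩ := h
      obtain ⟨w', hw'⟩ := T.cover x
      have h5 := hn w' ⟨x, hw', hx⟩
      refine hkey w2 h3 (T.act (β ^ n) w') ⟨h5.right, ?_⟩ _ h4 ?_
      · intro h6
        exact hsep (av.trans h6 h5.symm)
      · rw [T.equi]; exact ⟨x, hw', rfl⟩

/-- step (4) -/
theorem exists_sep [ConnectedSpace C]
    (proper : ∀ K L : Set C, IsCompact K → IsCompact L →
      {h : S | (((fun x => h • x) '' K) ∩ L).Nonempty}.Finite)
    (T : TreeCover C S) (α β : S) (hα : Function.Injective (fun n : ℕ => α ^ n))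
    (hβ : Function.Injective (fun n : ℕ => β ^ n)) (K2 : Set C) (hK2 : IsCompact K2)
    (A1 B1 : Set C) (hAB : Disjoint A1 B1) (hA1 : Ev α A1) (hB1 : Ev β B1)
    (hside : ∀ w, ¬ (T.V w ∩ K2).Nonempty → T.V w ⊆ A1 ∨ T.V w ⊆ B1) :
    ∃ w, (T.V w ∩ K2).Nonempty ∧ ∃ P R : Set C, IsClosed P ∧ IsClosed R ∧ Disjoint P R ∧
      P ∪ R = (T.V w)ᶜ ∧ Ev α P ∧ Ev β R := by
  classical
  obtain ⟨x0⟩ := (inferInstance : Nonempty C)
  obtain ⟨w0, hw0⟩ := T.cover x0
  set N1 : Set T.W := {w | (T.V w ∩ K2).Nonempty} with hN1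
  -- translates of walks avoid `N1`
  have hev : ∀ (γ : S), Function.Injective (fun n : ℕ => γ ^ n) → ∀ w1 w2 : T.W,
      ∀ᶠ n : ℕ in atTop, av (nerve T.V) N1 (T.act (γ ^ n) w1) (T.act (γ ^ n) w2) := by
    intro γ hγ w1 w2
    obtain ⟨p⟩ := nerve_connected T w1 w2
    have h1 : ∀ᶠ n : ℕ in atTop, ∀ x ∈ p.support.toFinset, T.act (γ ^ n) x ∉ N1 := by
      rw [Filter.eventually_all_finset]
      intro x _
      obtain ⟨Kx, hKx, hVx⟩ := T.relcpt x
      filter_upwards [eventually_avoid proper γ hγ Kx K2 hKx hK2] with n hn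
      rintro ⟨z, hz, hz2⟩
      rw [T.equi] at hz
      obtain ⟨y, hy, rfl⟩ := hz
      exact hn y (hVx hy) hz2
    filter_upwards [h1] with n hn
    exact av.act (γ ^ n) p (fun x hx => hn x (List.mem_toFinset.mpr hx))
  have hev2 : ∀ (γ : S), Function.Injective (fun n : ℕ => γ ^ n) →
      ∃ n0 : ℕ, ∀ n1 ≥ n0, ∀ w', ∀ᶠ n : ℕ in atTop,
        av (nerve T.V) N1 (T.act (γ ^ n1) w0) (T.act (γ ^ n) w') := by
    intro γ hγ
    obtain ⟨n0, hn0⟩ := eventually_atTop.mp (hev γ hγ w0 (T.act γ w0))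
    refine ⟨n0, fun n1 hn1 w' => ?_⟩
    have h1 : ∀ n ≥ n1, av (nerve T.V) N1 (T.act (γ ^ n1) w0) (T.act (γ ^ n) w0) := by
      intro n hn
      induction n, hn using Nat.le_induction with
      | base => exact av.refl (hn0 n1 hn1).left
      | succ n hn ih =>
        refine ih.trans ?_
        have := hn0 n (le_trans hn1 hn)
        rw [← T.act_mul, ← pow_succ] at this
        exact this
    filter_upwards [hev γ hγ w0 w', eventually_ge_atTop n1] with n hn hn'
    exact (h1 n hn').trans hn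
  have hVev : ∀ (γ : S) (X : Set C), Ev γ X → ∀ᶠ n : ℕ in atTop, T.V (T.act (γ ^ n) w0) ⊆ X := by
    intro γ X hX
    obtain ⟨Kx, hKx, hVx⟩ := T.relcpt w0
    filter_upwards [hX Kx hKx] with n hn
    rw [T.equi]
    rintro _ ⟨y, hy, rfl⟩
    exact hn y (hVx hy)
  obtain ⟨n0, hn0⟩ := hev2 α hα
  obtain ⟨m0, hm0⟩ := hev2 β hβ
  obtain ⟨n1, hn1, hn1'⟩ := ((hVev α A1 hA1).and (eventually_ge_atTop n0)).exists
  obtain ⟨m1, hm1, hm1'⟩ := ((hVev β B1 hB1).and (eventually_ge_atTop m0)).exists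
  set u := T.act (α ^ n1) w0 with hu
  set v := T.act (β ^ m1) w0 with hv
  have hside2 : ∀ (a b : T.W) (p : (nerve T.V).Walk a b), (∀ x ∈ p.support, x ∉ N1) →
      T.V a ⊆ A1 → T.V b ⊆ A1 := by
    intro a b p
    induction p with
    | nil => intro _ h; exact h
    | @cons a c b hac p ih =>
      intro hp ha
      apply ih
      · intro x hx
        apply hp
        rw [SimpleGraph.Walk.support_cons]
        exact List.mem_cons_of_mem _ hx
      · have hc : c ∉ N1 := by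
          apply hp
          rw [SimpleGraph.Walk.support_cons]
          exact List.mem_cons_of_mem _ p.start_mem_support
        rcases hside c hc with h | h
        · exact h
        · exfalso
          obtain ⟨_, x, hx1, hx2⟩ := hac
          exact Set.disjoint_left.mp hAB (ha hx1) (h hx2)
  obtain ⟨p⟩ := nerve_connected T u v
  have hmeet : ∃ w ∈ p.bypass.support, w ∈ N1 := by
    by_contra hcon
    push Not at hcon
    have h1 := hside2 u v p.bypass hcon hn1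
    obtain ⟨x, hx⟩ := T.nonempty v
    exact Set.disjoint_left.mp hAB (h1 hx) (hm1 hx)
  obtain ⟨w, hwp, hwN⟩ := hmeet
  have hsep : ¬ av (nerve T.V) {w} u v := by
    rintro ⟨q, hq⟩
    have h1 : (⟨q.bypass, q.bypass_isPath⟩ : (nerve T.V).Path u v) =
        ⟨p.bypass, p.bypass_isPath⟩ := 
      (T.acyclic.subsingleton_path u v).elim _ _
    have h2 : q.bypass = p.bypass := congrArg Subtype.val h1
    have h3 : w ∈ q.bypass.support := by rw [h2]; exact hwp
    exact hq w (q.support_bypass_subset_support h3) rfl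
  have hsub : ({w} : Set T.W) ⊆ N1 := by
    rintro x hx
    rw [Set.mem_singleton_iff] at hx
    rw [hx]; exact hwN
  refine ⟨w, hwN, ?_⟩
  apply split_of_sep proper T α β hα hβ w u v hsep
  · intro w'
    filter_upwards [hn0 n1 hn1' w'] with n hn
    exact hn.mono hsub
  · intro w'
    filter_upwards [hm0 m1 hm1' w'] with n hn
    exact hn.mono hsub

end ends

theorem of_pow_injective {B : Type} (s : B) :
    Function.Injective (fun n : ℕ => (FreeGroup.of s) ^ n) := by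
  intro m n hmn
  have := congrArg (FreeGroup.lift (fun _ : B => Multiplicative.ofAdd (1:ℤ))) hmn
  simp only [map_pow, FreeGroup.lift_apply_of, ← ofAdd_nsmul] at this
  have h2 := Multiplicative.ofAdd.injective this
  simpa using h2

theorem of_inv_pow_injective {B : Type} (s : B) :
    Function.Injective (fun n : ℕ => ((FreeGroup.of s)⁻¹) ^ n) := by
  intro m n hmn
  simp only [inv_pow, inv_inj] at hmn
  exact of_pow_injective s hmn

theorem no_homog_tree_aux {C B : Type} [Finite B] [TopologicalSpace C] [T2Space C]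
    [LocallyCompactSpace C] [ConnectedSpace C] [MulAction (FreeGroup B) C]
    (hcont : ∀ h : FreeGroup B, Continuous (fun x : C => h • x))
    (s t : B)
    (hends : ∃ Wa Wb Wc : Set (FreeGroup B), Disjoint Wa Wb ∧ Disjoint Wa Wc ∧ Disjoint Wb Wc ∧
      (∀ h, {k | k ∈ Wa ∧ k * h ∉ Wa}.Finite) ∧ (∀ h, {k | k ∈ Wb ∧ k * h ∉ Wb}.Finite) ∧
      (∀ φ, ∀ᶠ n : ℕ in atTop, (FreeGroup.of s) ^ n * φ ∈ Wa) ∧
      (∀ φ, ∀ᶠ n : ℕ in atTop, ((FreeGroup.of s)⁻¹) ^ n * φ ∈ Wb) ∧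
      (∀ φ, ∀ᶠ n : ℕ in atTop, (FreeGroup.of t) ^ n * φ ∈ Wc))
    (proper : ∀ K L : Set C, IsCompact K → IsCompact L →
      {h : FreeGroup B | (((fun x => h • x) '' K) ∩ L).Nonempty}.Finite)
    (K0 : Set C) (hK0 : IsCompact K0) (hcc : ∀ x : C, ∃ h : FreeGroup B, h • x ∈ K0)
    (trans : ∀ x y : C, ∃ g : C ≃ₜ C, (∀ (h : FreeGroup B) (z : C), g (h • z) = h • g z) ∧ g x = y)
    (fine : ∀ O : C → Set C, (∀ x, IsOpen (O x) ∧ x ∈ O x) → ∀ K : Set C, IsCompact K →
      ∃ T : TreeCover C (FreeGroup B), ∀ w, (T.V w ∩ K).Nonempty → ∃ x, T.V w ⊆ O x) :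
    False := by
  obtain ⟨Wa, Wb, Wc, hab, hac, hbc, hWa, hWb, hsa, hsb, htc⟩ := hends
  set α : FreeGroup B := FreeGroup.of s with hα
  set β : FreeGroup B := (FreeGroup.of s)⁻¹ with hβ
  set γ : FreeGroup B := FreeGroup.of t with hγ
  have hiα : Function.Injective (fun n : ℕ => α ^ n) := of_pow_injective s
  have hiβ : Function.Injective (fun n : ℕ => β ^ n) := of_inv_pow_injective s
  have hcover := HH_cover K0 hcc
  have hclosed := HH_closed hcont proper K0 hK0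
  have hA1 : Ev α (HH K0 Waᶜ)ᶜ := Ev_compl_HH proper K0 hK0 Wa α hsa
  have hB1' : Ev β (HH K0 Wbᶜ)ᶜ := Ev_compl_HH proper K0 hK0 Wb β hsb
  have hC1' : Ev γ (HH K0 Wcᶜ)ᶜ := Ev_compl_HH proper K0 hK0 Wc γ htc
  have hsubab : (HH K0 Wbᶜ)ᶜ ⊆ (HH K0 Wa)ᶜ :=
    Set.compl_subset_compl.mpr (HH_mono K0 (fun x hx hx' => Set.disjoint_left.mp hab hx hx'))
  have hsubac : (HH K0 Wcᶜ)ᶜ ⊆ (HH K0 Wa)ᶜ :=
    Set.compl_subset_compl.mpr (HH_mono K0 (fun x hx hx' => Set.disjoint_left.mp hac hx hx'))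
  have hsubbc : (HH K0 Wcᶜ)ᶜ ⊆ (HH K0 Wb)ᶜ :=
    Set.compl_subset_compl.mpr (HH_mono K0 (fun x hx hx' => Set.disjoint_left.mp hbc hx hx'))
  have hB1 : Ev β (HH K0 Wa)ᶜ := hB1'.mono hsubab
  have hCa : Ev γ (HH K0 Wa)ᶜ := hC1'.mono hsubac
  have hCb : Ev γ (HH K0 Wb)ᶜ := hC1'.mono hsubbc
  have hHa : Ev α (HH K0 Wa) := hA1.mono (fun x hx => (hcover Wa x).resolve_right hx)
  have hHb : Ev β (HH K0 Wb) := hB1'.mono (fun x hx => (hcover Wb x).resolve_right hx)
  obtain ⟨ya, hya, hyA⟩ := exists_ya hcont proper K0 hK0 hcc Wa α hWa hHa hCa.nonempty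
  obtain ⟨yb, hyb, hyB⟩ := exists_ya hcont proper K0 hK0 hcc Wb β hWb hHb hCb.nonempty
  obtain ⟨g, hg, hgy⟩ := trans yb ya
  have hNS := nosplit α β (HH K0 Wa) (HH K0 Wb) ya yb hya hyb hyA hyB hHa hHb (hclosed Wa)
    (hclosed Wb) g hg hgy
  set X : Set C := HH K0 Wa ∪ g '' HH K0 Wb with hX
  have hXc : IsClosed X := (hclosed Wa).union (g.isClosedMap _ (hclosed Wb))
  have hXa : Ev α X := hHa.mono Set.subset_union_left
  have hXb : Ev β X := (hHb.image g hg).mono Set.subset_union_right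
  have hVne : Xᶜ.Nonempty := by
    have h1 : Ev γ (g '' (HH K0 Wb)ᶜ) := hCb.image g hg
    obtain ⟨z, hz1, hz2⟩ := (hCa.inter h1).nonempty
    refine ⟨z, ?_⟩
    rintro (h | h)
    · exact hz1 h
    · rw [Set.image_compl_eq g.bijective] at hz2
      exact hz2 h
  obtain ⟨x1, hx1⟩ := hVne
  -- cover by translates of `Xᶜ`
  choose G hG hGx using (fun x => trans x1 x)
  obtain ⟨K0', hK0', hKK⟩ := exists_compact_superset hK0
  classical
  set O : C → Set C := fun x => (G x '' X)ᶜ ∩ (if x ∈ K0 then interior K0' else K0ᶜ) with hO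
  have hOo : ∀ x, IsOpen (O x) ∧ x ∈ O x := by
    intro x
    constructor
    · apply IsOpen.inter
      · exact ((G x).isClosedMap _ hXc).isOpen_compl
      · split_ifs
        · exact isOpen_interior
        · exact hK0.isClosed.isOpen_compl
    · constructor
      · rintro ⟨z, hz, hzx⟩
        have : z = x1 := (G x).injective (by rw [hzx, hGx])
        rw [this] at hz
        exact hx1 hz
      · split_ifs with h
        · exact hKK h
        · exact h
  have hF := proper K0 K0' hK0 hK0'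
  set Φ := {h : FreeGroup B | (((fun x => h • x) '' K0) ∩ K0').Nonempty} with hΦdef
  set K2 : Set C := ⋃ h ∈ (⋃ φ ∈ Φ, {k | k ∈ Wa ∧ k * φ ∉ Wa}), ((fun x => h • x) '' K0) with hK2
  have hK2c : IsCompact K2 := (hF.biUnion (fun φ _ => hWa φ)).isCompact_biUnion
    (fun h _ => hK0.image (hcont h))
  obtain ⟨T, hT⟩ := fine O hOo (K0 ∪ K2) (hK0.union hK2c)
  have hT1 : ∀ w, (T.V w ∩ K0).Nonempty → T.V w ⊆ K0' := by
    intro w hw
    obtain ⟨x, hx⟩ := hT w (by
      obtain ⟨z, hz1, hz2⟩ := hw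
      exact ⟨z, hz1, Or.inl hz2⟩)
    by_cases hxK : x ∈ K0
    · intro z hz
      have := (hx hz).2
      rw [if_pos hxK] at this
      exact interior_subset this
    · exfalso
      obtain ⟨z, hz1, hz2⟩ := hw
      have := (hx hz1).2
      rw [if_neg hxK] at this
      exact this hz2
  have hT2 : ∀ w (h : FreeGroup B), (T.V w ∩ ((fun x => h • x) '' K0)).Nonempty →
      ∀ z ∈ T.V w, h⁻¹ • z ∈ K0' := by
    intro w h hw z hz
    apply hT1 (T.act h⁻¹ w)
    · obtain ⟨y, hy1, y', hy', rfl⟩ := hw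
      refine ⟨y', ?_, hy'⟩
      rw [T.equi]
      exact ⟨_, hy1, inv_smul_smul h y'⟩
    · rw [T.equi]
      exact ⟨z, hz, rfl⟩
  have hside : ∀ w, ¬ (T.V w ∩ K2).Nonempty → T.V w ⊆ (HH K0 Waᶜ)ᶜ ∨ T.V w ⊆ (HH K0 Wa)ᶜ := by
    intro w hw
    by_contra hcon
    push Not at hcon
    obtain ⟨h1, h2⟩ := hcon
    rw [Set.not_subset] at h1 h2
    obtain ⟨x, hx, hx'⟩ := h1
    obtain ⟨z, hz, hz'⟩ := h2
    rw [Set.mem_compl_iff, not_not] at hx' hz'
    obtain ⟨k, hk, ξ, hξ, hkξ⟩ := hx'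
    obtain ⟨h, hh, ζ, hζ, hhζ⟩ := hz'
    apply hw
    refine ⟨z, hz, ?_⟩
    rw [hK2]
    simp only [Set.mem_iUnion]
    refine ⟨h, ⟨h⁻¹ * k, ?_, hh, ?_⟩, ⟨ζ, hζ, hhζ⟩⟩
    · have := hT2 w h ⟨z, hz, ζ, hζ, hhζ⟩ x hx
      refine ⟨h⁻¹ • x, ⟨ξ, hξ, ?_⟩, this⟩
      show (h⁻¹ * k) • ξ = h⁻¹ • x
      rw [mul_smul, hkξ]
    · rw [mul_inv_cancel_left]; exact hk
  have hdisj : Disjoint (HH K0 Waᶜ)ᶜ (HH K0 Wa)ᶜ := by
    rw [Set.disjoint_left]
    intro x hx1 hx2
    rcases hcover Wa x with h | h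
    · exact hx2 h
    · exact hx1 h
  obtain ⟨w, hw, P, R, hP, hR, hPR, hPRu, hEP, hER⟩ := exists_sep proper T α β hiα hiβ K2 hK2c
    _ _ hdisj hA1 hB1 hside
  obtain ⟨x, hx⟩ := hT w (by
      obtain ⟨z, hz1, hz2⟩ := hw
      exact ⟨z, hz1, Or.inr hz2⟩)
  have hNS' := hNS.image (G x) (hG x)
  have hYc : IsClosed (G x '' X) := (G x).isClosedMap _ hXc
  refine hNS' (P ∩ G x '' X) (R ∩ G x '' X) (hP.inter hYc) (hR.inter hYc) ?_ ?_
    (hEP.inter (hXa.image (G x) (hG x))) (hER.inter (hXb.image (G x) (hG x)))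
  · rw [Set.disjoint_left] at hPR ⊢
    rintro y ⟨hy, _⟩ ⟨hy', _⟩
    exact hPR hy hy'
  · ext y
    constructor
    · rintro (⟨_, h⟩ | ⟨_, h⟩) <;> exact h
    · intro hy
      have : y ∈ P ∪ R := by
        rw [hPRu]
        intro hyw
        exact (hx hyw).1 hy
      rcases this with h | h
      · exact Or.inl ⟨h, hy⟩
      · exact Or.inr ⟨h, hy⟩

theorem no_homog_tree {C B : Type} [Finite B] [TopologicalSpace C] [T2Space C]
    [LocallyCompactSpace C] [ConnectedSpace C] [MulAction (FreeGroup B) C]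
    (hcont : ∀ h : FreeGroup B, Continuous (fun x : C => h • x))
    (s t : B) (hst : s ≠ t)
    (proper : ∀ K L : Set C, IsCompact K → IsCompact L →
      {h : FreeGroup B | (((fun x => h • x) '' K) ∩ L).Nonempty}.Finite)
    (K0 : Set C) (hK0 : IsCompact K0) (hcc : ∀ x : C, ∃ h : FreeGroup B, h • x ∈ K0)
    (trans : ∀ x y : C, ∃ g : C ≃ₜ C, (∀ (h : FreeGroup B) (z : C), g (h • z) = h • g z) ∧ g x = y)
    (fine : ∀ O : C → Set C, (∀ x, IsOpen (O x) ∧ x ∈ O x) → ∀ K : Set C, IsCompact K →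
      ∃ T : TreeCover C (FreeGroup B), ∀ w, (T.V w ∩ K).Nonempty → ∃ x, T.V w ⊆ O x) :
    False :=
  no_homog_tree_aux hcont s t (free_ends s t hst) proper K0 hK0 hcc trans fine

end Pool.Agent.Work.MP_7dea6f_gt
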