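import Mathlib
import Pool.Agent.Work.MP_7dea6f_gt.Defs

/-! Covering spaces given by cocycles at a scale `r`. -/

namespace Pool.Agent.Work.MP_7dea6f_gt

open Classical Filter Topology

/-- a `G`-valued cocycle at scale `r` on the metric space `X` -/
structure Coc (X G : Type) [MetricSpace X] [Group G] where
  c : X → X → G
  r : ℝ
  r_pos : 0 < r
  coc : ∀ x y z, dist x y < r → dist y z < r → dist x z < r → c x y * c y z = c x z

variable {X G : Type} [MetricSpace X] [Group G]

theorem Coc.self (D : Coc X G) (x : X) : D.c x x = 1 := by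
  have h := D.coc x x x (by simpa using D.r_pos) (by simpa using D.r_pos) (by simpa using D.r_pos)
  simpa using h

theorem Coc.symm' (D : Coc X G) {x y : X} (h : dist x y < D.r) : D.c x y * D.c y x = 1 := by
  have h' := D.coc x y x h (by rwa [dist_comm]) (by simpa using D.r_pos)
  rw [h', D.self]

theorem Coc.inv (D : Coc X G) {x y : X} (h : dist x y < D.r) : (D.c x y)⁻¹ = D.c y x := by
  rw [inv_eq_iff_mul_eq_one]; exact D.symm' h

/-- total space of the covering -/
@[ext] structure Cov (D : Coc X G) where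
  pt : X
  el : G

variable {D : Coc X G}

namespace Cov

/-- being on the same sheet at distance `< r` -/
def Cl (e e' : Cov D) : Prop := dist e.pt e'.pt < D.r ∧ e'.el = e.el * D.c e.pt e'.pt

theorem Cl.refl (e : Cov D) : Cl e e := ⟨by simpa using D.r_pos, by simp [D.self]⟩

theorem Cl.symm {e e' : Cov D} (h : Cl e e') : Cl e' e := by
  refine ⟨by rw [dist_comm]; exact h.1, ?_⟩
  rw [h.2, mul_assoc, D.symm' h.1, mul_one]

theorem Cl.trans {e e' e'' : Cov D} (h : Cl e e') (h' : Cl e' e'') (hd : dist e.pt e''.pt < D.r) :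
    Cl e e'' := by
  refine ⟨hd, ?_⟩
  rw [h'.2, h.2, mul_assoc, D.coc _ _ _ h.1 h'.1 hd]

noncomputable instance : MetricSpace (Cov D) where
  dist e e' := if Cl e e' then dist e.pt e'.pt else D.r
  dist_self e := by
    show (if Cl e e then dist e.pt e.pt else D.r) = 0
    rw [if_pos (Cl.refl e)]; simp
  dist_comm e e' := by
    show (if Cl e e' then dist e.pt e'.pt else D.r) = (if Cl e' e then dist e'.pt e.pt else D.r)
    by_cases h : Cl e e'
    · rw [if_pos h, if_pos h.symm, dist_comm]
    · rw [if_neg h, if_neg (fun h' => h h'.symm)]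
  dist_triangle e e' e'' := by
    show (if Cl e e'' then dist e.pt e''.pt else D.r) ≤
      (if Cl e e' then dist e.pt e'.pt else D.r) + (if Cl e' e'' then dist e'.pt e''.pt else D.r)
    have hle : (if Cl e e'' then dist e.pt e''.pt else D.r) ≤ D.r := by
      split_ifs with h
      · exact h.1.le
      · exact le_rfl
    have hr := D.r_pos
    by_cases h1 : Cl e e'
    · by_cases h2 : Cl e' e''
      · rw [if_pos h1, if_pos h2]
        by_cases h3 : dist e.pt e''.pt < D.r
        · rw [if_pos (h1.trans h2 h3)]; exact dist_triangle _ _ _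
        · refine hle.trans ?_
          exact (not_lt.1 h3).trans (dist_triangle _ _ _)
      · rw [if_neg h2]
        have : 0 ≤ (if Cl e e' then dist e.pt e'.pt else D.r) := by split_ifs; exact dist_nonneg
        linarith
    · rw [if_neg h1]
      have : 0 ≤ (if Cl e' e'' then dist e'.pt e''.pt else D.r) := by
        split_ifs
        · exact dist_nonneg
        · exact hr.le
      linarith
  eq_of_dist_eq_zero {e e'} h := by
    change (if Cl e e' then dist e.pt e'.pt else D.r) = 0 at h
    by_cases h1 : Cl e e'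
    · rw [if_pos h1] at h
      have hp : e.pt = e'.pt := dist_eq_zero.1 h
      have h2 := h1.2
      rw [← hp, D.self, mul_one] at h2
      exact Cov.ext hp h2.symm
    · rw [if_neg h1] at h
      exact absurd h D.r_pos.ne'

theorem dist_def (e e' : Cov D) : dist e e' = if Cl e e' then dist e.pt e'.pt else D.r := rfl

theorem dist_of_cl {e e' : Cov D} (h : Cl e e') : dist e e' = dist e.pt e'.pt := by
  rw [dist_def, if_pos h]

theorem dist_le_r (e e' : Cov D) : dist e e' ≤ D.r := by
  rw [dist_def]; split_ifs with h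
  · exact h.1.le
  · exact le_rfl

theorem cl_iff {e e' : Cov D} : Cl e e' ↔ dist e e' < D.r := by
  constructor
  · intro h; rw [dist_of_cl h]; exact h.1
  · intro h
    by_contra h'
    rw [dist_def, if_neg h'] at h
    exact lt_irrefl _ h

theorem pt_dist {e e' : Cov D} (h : dist e e' < D.r) : dist e.pt e'.pt = dist e e' :=
  (dist_of_cl (cl_iff.2 h)).symm

theorem continuous_pt : Continuous (Cov.pt : Cov D → X) := by
  rw [Metric.continuous_iff]
  intro b ε hε
  refine ⟨min ε D.r, lt_min hε D.r_pos, fun a ha => ?_⟩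
  rw [pt_dist (lt_of_lt_of_le ha (min_le_right _ _))]
  exact lt_of_lt_of_le ha (min_le_left _ _)

instance : MulAction G (Cov D) where
  smul k e := ⟨e.pt, k * e.el⟩
  one_smul e := by
    show (⟨e.pt, 1 * e.el⟩ : Cov D) = e
    ext <;> simp
  mul_smul k l e := by
    show (⟨e.pt, k * l * e.el⟩ : Cov D) = ⟨e.pt, k * (l * e.el)⟩
    rw [mul_assoc]

@[simp] theorem smul_pt (k : G) (e : Cov D) : (k • e).pt = e.pt := rfl
@[simp] theorem smul_el (k : G) (e : Cov D) : (k • e).el = k * e.el := rfl

theorem cl_smul (k : G) {e e' : Cov D} : Cl (k • e) (k • e') ↔ Cl e e' := by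
  simp only [Cl, smul_pt, smul_el, mul_assoc, mul_right_inj]

theorem dist_smul (k : G) (e e' : Cov D) : dist (k • e) (k • e') = dist e e' := by
  rw [dist_def, dist_def]
  by_cases h : Cl e e'
  · rw [if_pos h, if_pos ((cl_smul k).2 h)]; rfl
  · rw [if_neg h, if_neg (fun h' => h ((cl_smul k).1 h'))]

theorem continuous_smul (k : G) : Continuous (fun e : Cov D => k • e) :=
  (Isometry.of_dist_eq (dist_smul k)).continuous

theorem exists_smul {e e' : Cov D} (h : e.pt = e'.pt) : ∃ k : G, e' = k • e :=
  ⟨e'.el * e.el⁻¹, Cov.ext h.symm (by simp)⟩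

theorem smul_eq_self {k : G} {e : Cov D} (h : k • e = e) : k = 1 := by
  have := congrArg Cov.el h
  simpa using this

theorem smul_close {k : G} {e : Cov D} (h : dist (k • e) e < D.r) : k = 1 := by
  have h1 := (cl_iff.2 h).symm.2
  simp only [smul_pt, smul_el, D.self, mul_one] at h1
  simpa using h1

/-- the point above `x` on the sheet of `e` -/
def lp (e : Cov D) (x : X) : Cov D := ⟨x, e.el * D.c e.pt x⟩

@[simp] theorem lp_pt (e : Cov D) (x : X) : (lp e x).pt = x := rfl

theorem cl_lp {e : Cov D} {x : X} (h : dist e.pt x < D.r) : Cl e (lp e x) := ⟨h, rfl⟩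

theorem dist_lp {e : Cov D} {x : X} (h : dist e.pt x < D.r) : dist e (lp e x) = dist e.pt x :=
  dist_of_cl (cl_lp h)

theorem lp_self (e : Cov D) : lp e e.pt = e := by
  ext <;> simp [lp, D.self]

theorem eq_lp {e e' : Cov D} (h : dist e e' < D.r) : e' = lp e e'.pt :=
  Cov.ext rfl (cl_iff.2 h).2

theorem smul_lp (k : G) (e : Cov D) (x : X) : lp (k • e) x = k • lp e x := by
  ext <;> simp [lp, mul_assoc]

theorem dist_lp_lp {e : Cov D} {x y : X} (hx : dist e.pt x < D.r) (hy : dist e.pt y < D.r)
    (hxy : dist x y < D.r) : dist (lp e x) (lp e y) = dist x y := by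
  refine dist_of_cl ⟨hxy, ?_⟩
  show e.el * D.c e.pt y = e.el * D.c e.pt x * D.c x y
  rw [mul_assoc, D.coc _ _ _ hx hxy hy]

theorem isCompact_closedBall [CompactSpace X] (e : Cov D) {s : ℝ} (hs : s < D.r / 2) :
    IsCompact (Metric.closedBall e s) := by
  have hr := D.r_pos
  have himg : Metric.closedBall e s ⊆ (lp e) '' (Metric.closedBall e.pt s) := by
    intro e' he'
    rw [Metric.mem_closedBall] at he'
    have hlt : dist e e' < D.r := by rw [dist_comm]; linarith
    refine ⟨e'.pt, ?_, (eq_lp hlt).symm⟩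
    rw [Metric.mem_closedBall, dist_comm, pt_dist hlt, dist_comm]; exact he'
  have hcont : ContinuousOn (lp e) (Metric.closedBall e.pt s) := by
    intro x hx
    rw [Metric.mem_closedBall] at hx
    rw [Metric.continuousWithinAt_iff]
    intro ε hε
    refine ⟨min ε D.r, lt_min hε hr, fun y hy hyx => ?_⟩
    rw [Metric.mem_closedBall] at hy
    rw [dist_lp_lp (by rw [dist_comm]; linarith) (by rw [dist_comm]; linarith)
      (lt_of_lt_of_le hyx (min_le_right _ _))]
    exact lt_of_lt_of_le hyx (min_le_left _ _)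
  have hc : IsCompact ((lp e) '' (Metric.closedBall e.pt s)) :=
    (Metric.isClosed_closedBall.isCompact).image_of_continuousOn hcont
  exact hc.of_isClosed_subset Metric.isClosed_closedBall himg

instance [CompactSpace X] : LocallyCompactSpace (Cov D) := by
  have : WeaklyLocallyCompactSpace (Cov D) := by
    refine ⟨fun e => ⟨Metric.closedBall e (D.r / 4), isCompact_closedBall e ?_, ?_⟩⟩
    · have := D.r_pos; linarith
    · exact Metric.closedBall_mem_nhds _ (by have := D.r_pos; linarith)
  infer_instance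

/-- lift of a small homeomorphism (as a function) -/
def liftFun (h : X → X) (e : Cov D) : Cov D := lp e (h e.pt)

theorem liftFun_smul (h : X → X) (k : G) (e : Cov D) : liftFun h (k • e) = k • liftFun h e := by
  simp only [liftFun, smul_pt, smul_lp]

theorem continuous_liftFun {h : X → X} (hc : Continuous h) (hh : ∀ x, dist (h x) x < D.r / 3) :
    Continuous (liftFun (D := D) h) := by
  have hr := D.r_pos
  rw [Metric.continuous_iff]
  intro e ε hε
  rw [Metric.continuous_iff] at hc
  obtain ⟨δ, hδ, hδ'⟩ := hc e.pt (min ε (D.r / 3)) (lt_min hε (by linarith))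
  refine ⟨min δ (D.r / 3), lt_min hδ (by linarith), fun e' he' => ?_⟩
  have h1 : dist e' e < D.r / 3 := lt_of_lt_of_le he' (min_le_right _ _)
  have h2 : dist e' e < D.r := by linarith
  have h3 : dist e'.pt e.pt = dist e' e := pt_dist h2
  have h4 : dist (h e'.pt) (h e.pt) < min ε (D.r / 3) :=
    hδ' _ (by rw [h3]; exact lt_of_lt_of_le he' (min_le_left _ _))
  have h5 : dist (h e'.pt) (h e.pt) < D.r / 3 := lt_of_lt_of_le h4 (min_le_right _ _)
  have hcl : Cl (liftFun h e') (liftFun h e) := by
    have c1 : Cl (liftFun h e') e' := by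
      refine (cl_lp ?_).symm
      rw [dist_comm]; linarith [hh e'.pt]
    have c2 : Cl e' e := cl_iff.2 h2
    have c3 : Cl e (liftFun h e) := by
      refine (cl_lp ?_)
      rw [dist_comm]; linarith [hh e.pt]
    have c12 : Cl (liftFun h e') e := by
      refine c1.trans c2 ?_
      show dist (h e'.pt) e.pt < D.r
      have := dist_triangle (h e'.pt) e'.pt e.pt
      linarith [hh e'.pt]
    refine c12.trans c3 ?_
    show dist (h e'.pt) (h e.pt) < D.r
    linarith
  rw [dist_of_cl hcl]
  exact lt_of_lt_of_le h4 (min_le_left _ _)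

/-- lift of a small homeomorphism -/
def lift (h : X ≃ₜ X) (hh : ∀ x, dist (h x) x < D.r / 3) : Cov D ≃ₜ Cov D where
  toFun := liftFun h
  invFun := liftFun h.symm
  left_inv e := by
    have hr := D.r_pos
    have h1 : dist e.pt (h e.pt) < D.r := by rw [dist_comm]; linarith [hh e.pt]
    show (⟨h.symm (h e.pt), e.el * D.c e.pt (h e.pt) * D.c (h e.pt) (h.symm (h e.pt))⟩ : Cov D) = e
    rw [h.symm_apply_apply, mul_assoc, D.symm' h1, mul_one]
  right_inv e := by
    have hr := D.r_pos
    have h1 : dist e.pt (h.symm e.pt) < D.r := by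
      have := hh (h.symm e.pt)
      rw [h.apply_symm_apply] at this
      linarith
    show (⟨h (h.symm e.pt), e.el * D.c e.pt (h.symm e.pt) * D.c (h.symm e.pt) (h (h.symm e.pt))⟩ : Cov D) = e
    rw [h.apply_symm_apply, mul_assoc, D.symm' h1, mul_one]
  continuous_toFun := continuous_liftFun h.continuous hh
  continuous_invFun := by
    refine continuous_liftFun h.symm.continuous fun x => ?_
    have := hh (h.symm x)
    rw [h.apply_symm_apply] at this
    rwa [dist_comm]

theorem lift_apply (h : X ≃ₜ X) (hh : ∀ x, dist (h x) x < D.r / 3) (e : Cov D) :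
    lift h hh e = lp e (h e.pt) := rfl

theorem lift_dist (h : X ≃ₜ X) (hh : ∀ x, dist (h x) x < D.r / 3) (e : Cov D) :
    dist (lift h hh e) e = dist (h e.pt) e.pt := by
  have hr := D.r_pos
  rw [lift_apply, dist_comm, dist_lp (by rw [dist_comm]; linarith [hh e.pt]), dist_comm]

end Cov

/-- uniform micro-homogeneity by homeomorphisms commuting with the action -/
def UHG (G E : Type) [Group G] [MetricSpace E] [MulAction G E] : Prop :=
  ∀ ε > (0:ℝ), ∃ δ > (0:ℝ), ∀ e e' : E, dist e e' < δ →
    ∃ g : E ≃ₜ E, (∀ z, dist (g z) z < ε) ∧ g e = e' ∧ ∀ (k : G) z, g (k • z) = k • g z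

theorem UHG.uh {E : Type} [MetricSpace E] [MulAction G E] (h : UHG G E) : UH E := by
  intro ε hε
  obtain ⟨δ, hδ, h'⟩ := h ε hε
  refine ⟨δ, hδ, fun e e' hd => ?_⟩
  obtain ⟨g, h1, h2, -⟩ := h' e e' hd
  exact ⟨g, h1, h2⟩

theorem uhg_cov (D : Coc X G)
    (heff : ∀ ε > (0:ℝ), ∃ δ > 0, ∀ x y : X, dist x y < δ → ∃ h : X ≃ₜ X, h x = y ∧ ∀ z, dist (h z) z < ε) :
    UHG G (Cov D) := by
  intro ε hε
  have hr := D.r_pos
  obtain ⟨δ, hδ, h⟩ := heff (min ε (D.r / 3)) (lt_min hε (by linarith))
  refine ⟨min δ D.r, lt_min hδ hr, fun e e' hd => ?_⟩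
  have hd1 : dist e e' < D.r := lt_of_lt_of_le hd (min_le_right _ _)
  obtain ⟨g, hg, hgz⟩ := h e.pt e'.pt (by
    rw [Cov.pt_dist hd1]; exact lt_of_lt_of_le hd (min_le_left _ _))
  have hh : ∀ x, dist (g x) x < D.r / 3 := fun x => lt_of_lt_of_le (hgz x) (min_le_right _ _)
  refine ⟨Cov.lift g hh, fun z => ?_, ?_, fun k z => Cov.liftFun_smul _ k z⟩
  · rw [Cov.lift_dist]; exact lt_of_lt_of_le (hgz _) (min_le_left _ _)
  · rw [Cov.lift_apply, hg]; exact (Cov.eq_lp hd1).symm

end Pool.Agent.Work.MP_7dea6f_gt
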