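import Mathlib
import Pool.Agent.Work.MP_7dea6f_gt.Cov

/-! Chain components of a covering space. -/

namespace Pool.Agent.Work.MP_7dea6f_gt

open Classical Filter Topology

section general

variable {E : Type} [MetricSpace E]

theorem chainComp_self (δ : ℝ) (x : E) : x ∈ chainComp δ x := Relation.ReflTransGen.refl

theorem chainComp_step {δ : ℝ} {x y z : E} (h : y ∈ chainComp δ x) (hd : dist y z < δ) :
    z ∈ chainComp δ x := Relation.ReflTransGen.tail h hd

theorem chainComp_symm {δ : ℝ} {x y : E} (h : y ∈ chainComp δ x) : x ∈ chainComp δ y := by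
  induction h with
  | refl => exact chainComp_self _ _
  | tail _ hab ih =>
    refine Relation.ReflTransGen.head ?_ ih
    rwa [dist_comm]

theorem chainComp_trans {δ : ℝ} {x y z : E} (h : y ∈ chainComp δ x) (h' : z ∈ chainComp δ y) :
    z ∈ chainComp δ x := Relation.ReflTransGen.trans h h'

theorem chainComp_mono {δ δ' : ℝ} (h : δ' ≤ δ) (x : E) : chainComp δ' x ⊆ chainComp δ x :=
  fun y hy => Relation.ReflTransGen.mono (r := fun a b => dist a b < δ')
    (p := fun a b => dist a b < δ) (fun _ _ hab => lt_of_lt_of_le hab h) x y hy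

theorem isClopen_chainComp {δ : ℝ} (hδ : 0 < δ) (x : E) : IsClopen (chainComp δ x) := by
  constructor
  · rw [← isOpen_compl_iff, Metric.isOpen_iff]
    intro y hy
    refine ⟨δ, hδ, fun z hz hz' => hy ?_⟩
    exact chainComp_step hz' (by rwa [Metric.mem_ball] at hz)
  · rw [Metric.isOpen_iff]
    intro y hy
    refine ⟨δ, hδ, fun z hz => chainComp_step hy (by rwa [Metric.mem_ball, dist_comm] at hz)⟩

theorem component_subset_chainComp {δ : ℝ} (hδ : 0 < δ) (x : E) :
    connectedComponent x ⊆ chainComp δ x :=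
  (isClopen_chainComp hδ x).connectedComponent_subset (chainComp_self δ x)

end general

variable {X G : Type} [MetricSpace X] [Group G] {D : Coc X G}

theorem chainComp_smul {δ : ℝ} {x y : Cov D} (h : y ∈ chainComp δ x) (k : G) :
    k • y ∈ chainComp δ (k • x) := by
  induction h with
  | refl => exact chainComp_self _ _
  | tail _ hab ih => exact chainComp_step ih (by rwa [Cov.dist_smul])

/-- the stabilizer of the chain component -/
def stab (e : Cov D) (δ : ℝ) : Subgroup G where
  carrier := {k | k • e ∈ chainComp δ e}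
  mul_mem' := by
    intro a b ha hb
    show (a * b) • e ∈ chainComp δ e
    rw [mul_smul]
    exact chainComp_trans ha (chainComp_smul hb a)
  one_mem' := by
    show (1 : G) • e ∈ chainComp δ e
    rw [one_smul]; exact chainComp_self _ _
  inv_mem' := by
    intro a ha
    show a⁻¹ • e ∈ chainComp δ e
    have := chainComp_smul ha a⁻¹
    rw [inv_smul_smul] at this
    exact chainComp_symm this

theorem mem_stab {e : Cov D} {δ : ℝ} {k : G} : k ∈ stab e δ ↔ k • e ∈ chainComp δ e := Iff.rfl

theorem stab_mono (e : Cov D) {δ δ' : ℝ} (h : δ' ≤ δ) : stab e δ' ≤ stab e δ :=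
  fun _ hk => chainComp_mono h e hk

theorem stab_smul_mem {e : Cov D} {δ : ℝ} {k : G} (hk : k ∈ stab e δ) {y : Cov D}
    (hy : y ∈ chainComp δ e) : k • y ∈ chainComp δ e :=
  chainComp_trans hk (chainComp_smul hy k)

theorem mem_stab_of {e : Cov D} {δ : ℝ} {k : G} {y : Cov D}
    (hy : y ∈ chainComp δ e) (hky : k • y ∈ chainComp δ e) : k ∈ stab e δ := by
  have h1 := chainComp_smul (chainComp_symm hy) k
  exact chainComp_trans hky h1

/-- every fibre meets every chain component -/
theorem exists_above [PreconnectedSpace X] (e : Cov D) {δ : ℝ} (hδ : 0 < δ) (x : X) :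
    ∃ y ∈ chainComp δ e, y.pt = x := by
  set A : Set X := Cov.pt '' (chainComp δ e) with hA
  have hr := D.r_pos
  have hstep : ∀ x ∈ A, ∀ x', dist x x' < min δ D.r → x' ∈ A := by
    rintro _ ⟨y, hy, rfl⟩ x' hx'
    refine ⟨Cov.lp y x', chainComp_step hy ?_, rfl⟩
    rw [Cov.dist_lp (lt_of_lt_of_le hx' (min_le_right _ _))]
    exact lt_of_lt_of_le hx' (min_le_left _ _)
  have hpos : 0 < min δ D.r := lt_min hδ hr
  have hcl : IsClopen A := by
    constructor
    · rw [← isOpen_compl_iff, Metric.isOpen_iff]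
      intro y hy
      refine ⟨_, hpos, fun z hz hz' => hy ?_⟩
      exact hstep z hz' y (by rwa [Metric.mem_ball] at hz)
    · rw [Metric.isOpen_iff]
      intro y hy
      exact ⟨_, hpos, fun z hz => hstep y hy z (by rwa [Metric.mem_ball, dist_comm] at hz)⟩
  have hne : A.Nonempty := ⟨e.pt, e, chainComp_self _ _, rfl⟩
  have huniv : A = Set.univ := by
    rcases isClopen_iff.1 hcl with h | h
    · rw [h] at hne; exact absurd hne Set.not_nonempty_empty
    · exact h
  have : x ∈ A := by rw [huniv]; trivial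
  obtain ⟨y, hy, h⟩ := this
  exact ⟨y, hy, h⟩

/-- `G` permutes the chain components transitively -/
theorem exists_smul_mem [PreconnectedSpace X] (e y : Cov D) {δ : ℝ} (hδ : 0 < δ) :
    ∃ k : G, k • y ∈ chainComp δ e := by
  obtain ⟨z, hz, h⟩ := exists_above e hδ y.pt
  obtain ⟨k, hk⟩ := Cov.exists_smul (e := y) (e' := z) h.symm
  exact ⟨k, hk ▸ hz⟩

/-- if the stabilizers agree the chain components agree -/
theorem chainComp_eq_of_stab [PreconnectedSpace X] (e : Cov D) {δ δ' : ℝ} (hδ' : 0 < δ')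
    (h : δ' ≤ δ) (hs : stab e δ ≤ stab e δ') : chainComp δ e ⊆ chainComp δ' e := by
  intro y hy
  obtain ⟨k, hk⟩ := exists_smul_mem e y hδ'
  have h1 : k ∈ stab e δ := mem_stab_of hy (chainComp_mono h e hk)
  have h2 := (stab e δ').inv_mem (hs h1)
  have := stab_smul_mem h2 hk
  rwa [inv_smul_smul] at this

/-- the compactness property of chain components for clopen covers -/
def QC {E : Type} [TopologicalSpace E] (A : Set E) : Prop :=
  ∀ (ι : Type) (O : ι → Set E), (∀ i, IsClopen (O i)) → A ⊆ ⋃ i, O i →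
    ∃ t : Finset ι, A ⊆ ⋃ i ∈ t, O i

theorem finiteIndex_of_QC [PreconnectedSpace X] (e : Cov D) {δ δ' : ℝ} (hδ' : 0 < δ')
    (h : δ' ≤ δ) (hQ : QC (chainComp δ e)) :
    ((stab e δ').subgroupOf (stab e δ)).FiniteIndex := by
  have hcov : chainComp δ e ⊆ ⋃ k : stab e δ, (fun y => (k : G)⁻¹ • y) ⁻¹' (chainComp δ' e) := by
    intro y hy
    obtain ⟨k, hk⟩ := exists_smul_mem e y hδ'
    have h1 : k ∈ stab e δ := mem_stab_of hy (chainComp_mono h e hk)
    refine Set.mem_iUnion.2 ⟨⟨k⁻¹, (stab e δ).inv_mem h1⟩, ?_⟩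
    simpa using hk
  obtain ⟨t, ht⟩ := hQ _ _ (fun k => (isClopen_chainComp hδ' e).preimage
    (Cov.continuous_smul _)) hcov
  rw [Subgroup.finiteIndex_iff_finite_quotient]
  have hsurj : ∀ q : (stab e δ) ⧸ ((stab e δ').subgroupOf (stab e δ)), ∃ k ∈ t, (k : (stab e δ) ⧸ ((stab e δ').subgroupOf (stab e δ))) = q := by
    intro q
    induction q using QuotientGroup.induction_on with
    | _ g =>
      have hg : (g : G) • e ∈ chainComp δ e := g.2
      have := ht hg
      simp only [Set.mem_iUnion] at this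
      obtain ⟨k, hk, hk'⟩ := this
      refine ⟨k, hk, ?_⟩
      rw [QuotientGroup.eq, Subgroup.mem_subgroupOf]
      show ((k : G)⁻¹ * (g : G)) • e ∈ chainComp δ' e
      rw [mul_smul]; exact hk'
  have : Set.univ ⊆ ((fun k : stab e δ => (k : (stab e δ) ⧸ ((stab e δ').subgroupOf (stab e δ)))) '' (t : Set (stab e δ))) := by
    intro q _
    obtain ⟨k, hk, h⟩ := hsurj q
    exact ⟨k, hk, h⟩
  exact Set.finite_univ_iff.1 ((t.finite_toSet.image _).subset this)

end Pool.Agent.Work.MP_7dea6f_gt
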