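import Mathlib

/-! Free groups are residually finite and Hopfian. -/

namespace Pool.Agent.Work.MP_7dea6f_gt

theorem exists_perm_of_partial {n : ℕ} (P : Fin n → Fin n → Prop)
    (hf : ∀ x y y', P x y → P x y' → y = y') (hi : ∀ x x' y, P x y → P x' y → x = x') :
    ∃ σ : Equiv.Perm (Fin n), ∀ x y, P x y → σ x = y := by
  classical
  let f : Fin n → Fin n := fun x => if h : ∃ y, P x y then h.choose else x
  have hfP : ∀ x y, P x y → f x = y := by
    intro x y h
    have hx : ∃ y, P x y := ⟨y, h⟩
    simp only [f]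
    rw [dif_pos hx]
    exact hf x _ _ hx.choose_spec h
  obtain ⟨g, hg⟩ := Set.MapsTo.exists_equiv_extend_of_card_eq (α := Fin n)
    (t := (Finset.univ : Finset (Fin n))) (by simp) (s := {x | ∃ y, P x y}) (f := f)
    (fun x _ => by simp) (by
      rintro x ⟨y, hy⟩ x' ⟨y', hy'⟩ h
      rw [hfP x y hy, hfP x' y' hy'] at h
      subst h
      exact hi _ _ _ hy hy')
  refine ⟨g.trans (Equiv.subtypeUnivEquiv (by simp)), ?_⟩
  intro x y h
  have := hg x ⟨y, h⟩
  rw [hfP x y h] at this
  simpa using this

theorem free_residuallyFinite {B : Type*} (w : FreeGroup B) (hw : w ≠ 1) :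
    ∃ (n : ℕ) (ρ : FreeGroup B →* Equiv.Perm (Fin n)), ρ w ≠ 1 := by
  classical
  set L := w.toWord with hL
  have hred : FreeGroup.IsReduced L := FreeGroup.isReduced_toWord
  have hne : L ≠ [] := fun h => hw (FreeGroup.toWord_eq_nil_iff.1 h)
  have hpos : 0 < L.length := List.length_pos_iff.2 hne
  have hadj : ∀ i (h : i + 1 < L.length), (L[i]).1 = (L[i + 1]).1 → (L[i]).2 = (L[i + 1]).2 := by
    intro i h
    exact List.isChain_iff_getElem.1 hred i h
  let P : B → Fin (L.length + 1) → Fin (L.length + 1) → Prop := fun b x y =>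
    ∃ (i : ℕ) (hi : i < L.length), (L[i] = (b, true) ∧ x.val = i + 1 ∧ y.val = i) ∨
      (L[i] = (b, false) ∧ x.val = i ∧ y.val = i + 1)
  have hP1 : ∀ b x y y', P b x y → P b x y' → y = y' := by
    rintro b x y y' ⟨i, hi, h | h⟩ ⟨j, hj, h' | h'⟩
    · apply Fin.ext; omega
    · obtain ⟨h1, h2, h3⟩ := h
      obtain ⟨h1', h2', h3'⟩ := h'
      have : j = i + 1 := by omega
      subst this
      have := hadj i hj (by rw [h1, h1'])
      rw [h1, h1'] at this
      simp at this
    · obtain ⟨h1, h2, h3⟩ := h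
      obtain ⟨h1', h2', h3'⟩ := h'
      have : i = j + 1 := by omega
      subst this
      have := hadj j hi (by rw [h1, h1'])
      rw [h1, h1'] at this
      simp at this
    · apply Fin.ext; omega
  have hP2 : ∀ b x x' y, P b x y → P b x' y → x = x' := by
    rintro b x x' y ⟨i, hi, h | h⟩ ⟨j, hj, h' | h'⟩
    · apply Fin.ext; omega
    · obtain ⟨h1, h2, h3⟩ := h
      obtain ⟨h1', h2', h3'⟩ := h'
      have : i = j + 1 := by omega
      subst this
      have := hadj j hi (by rw [h1, h1'])
      rw [h1, h1'] at this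
      simp at this
    · obtain ⟨h1, h2, h3⟩ := h
      obtain ⟨h1', h2', h3'⟩ := h'
      have : j = i + 1 := by omega
      subst this
      have := hadj i hj (by rw [h1, h1'])
      rw [h1, h1'] at this
      simp at this
    · apply Fin.ext; omega
  choose σ hσ using fun b => exists_perm_of_partial (P b) (hP1 b) (hP2 b)
  refine ⟨L.length + 1, FreeGroup.lift σ, ?_⟩
  have key : ∀ k (hk : k ≤ L.length),
      (((L.take k).map fun x => cond x.2 (σ x.1) (σ x.1)⁻¹).prod : Equiv.Perm (Fin (L.length + 1)))
        ⟨k, by omega⟩ = ⟨0, by omega⟩ := by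
    intro k
    induction k with
    | zero => intro _; simp
    | succ k ih =>
      intro hk
      have hk' : k < L.length := by omega
      rw [List.take_succ_eq_append_getElem hk', List.map_append, List.prod_append, Equiv.Perm.mul_apply]
      have h1 : (([L[k]].map fun x => cond x.2 (σ x.1) (σ x.1)⁻¹).prod : Equiv.Perm
          (Fin (L.length + 1))) ⟨k + 1, by omega⟩ = ⟨k, by omega⟩ := by
        rw [List.map_singleton, List.prod_singleton]
        rcases hb : L[k] with ⟨b, _ | _⟩
        · simp only [cond_false]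
          rw [Equiv.Perm.inv_eq_iff_eq]
          symm
          exact hσ b _ _ ⟨k, hk', Or.inr ⟨hb, rfl, rfl⟩⟩
        · simp only [cond_true]
          exact hσ b _ _ ⟨k, hk', Or.inl ⟨hb, rfl, rfl⟩⟩
      rw [h1]
      exact ih (by omega)
  intro h1
  have h2 := key L.length le_rfl
  rw [List.take_length] at h2
  have h3 : FreeGroup.lift σ w = (L.map fun x => cond x.2 (σ x.1) (σ x.1)⁻¹).prod := by
    conv_lhs => rw [← FreeGroup.mk_toWord (x := w)]
    rw [FreeGroup.lift_mk]
  rw [← h3, h1] at h2
  have h4 : L.length = 0 := congrArg Fin.val h2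
  omega

theorem hopf {B B' : Type*} [Fintype B] [Fintype B'] (θ : FreeGroup B →* FreeGroup B')
    (hθ : Function.Surjective θ) (h : Fintype.card B ≤ Fintype.card B') :
    Function.Injective θ := by
  classical
  rw [injective_iff_map_eq_one]
  intro k hk
  by_contra hne
  obtain ⟨n, ρ, hρ⟩ := free_residuallyFinite k hne
  let Φ : (B' → Equiv.Perm (Fin n)) → (B → Equiv.Perm (Fin n)) := fun s b =>
    FreeGroup.lift s (θ (FreeGroup.of b))
  have hΦ : ∀ s, FreeGroup.lift (Φ s) = (FreeGroup.lift s).comp θ := by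
    intro s
    apply FreeGroup.ext_hom
    intro b
    simp [Φ]
  have hinj : Function.Injective Φ := by
    intro s s' hs
    have h1 : (FreeGroup.lift s).comp θ = (FreeGroup.lift s').comp θ := by
      rw [← hΦ, ← hΦ, hs]
    funext b
    obtain ⟨x, hx⟩ := hθ (FreeGroup.of b)
    have := DFunLike.congr_fun h1 x
    simpa [hx] using this
  have hcard : Fintype.card (B → Equiv.Perm (Fin n)) ≤ Fintype.card (B' → Equiv.Perm (Fin n)) := by
    rw [Fintype.card_fun, Fintype.card_fun]
    exact Nat.pow_le_pow_right Fintype.card_pos h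
  have hbij : Function.Bijective Φ :=
    (Fintype.bijective_iff_injective_and_card Φ).2
      ⟨hinj, le_antisymm (Fintype.card_le_of_injective Φ hinj) hcard⟩
  obtain ⟨s, hs⟩ := hbij.2 (fun b => ρ (FreeGroup.of b))
  apply hρ
  have h2 : ρ = (FreeGroup.lift s).comp θ := by
    rw [← hΦ, hs]
    apply FreeGroup.ext_hom
    intro b
    simp
  rw [h2, MonoidHom.comp_apply, hk, map_one]

end Pool.Agent.Work.MP_7dea6f_gt
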