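import Mathlib

/-! The tree-like graph on `Fin n × FreeGroup (Fin n × Fin n)`. -/

namespace Pool.Agent.Work.MP_7dea6f_gt

variable {n : ℕ}

/-- the free group on pairs -/
abbrev GG (n : ℕ) := FreeGroup (Fin n × Fin n)

/-- generator attached to an oriented pair -/
def gen (i j : Fin n) : GG n :=
  if i < j then FreeGroup.of (i, j) else if j < i then (FreeGroup.of (j, i))⁻¹ else 1

theorem gen_self (i : Fin n) : gen i i = 1 := by simp [gen]

theorem gen_inv (i j : Fin n) : (gen i j)⁻¹ = gen j i := by
  rcases lt_trichotomy i j with h | h | h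
  · simp [gen, h, h.not_gt]
  · subst h; simp [gen_self]
  · simp [gen, h, h.not_gt]

theorem gen_mul (i j : Fin n) : gen i j * gen j i = 1 := by
  rw [← gen_inv i j, mul_inv_cancel]

/-- the letter of an oriented pair -/
def letter (i j : Fin n) : (Fin n × Fin n) × Bool :=
  if i < j then ((i, j), true) else ((j, i), false)

theorem mk_letter {i j : Fin n} (h : i ≠ j) : FreeGroup.mk [letter i j] = gen i j := by
  rcases lt_trichotomy i j with h' | h' | h'
  · simp [gen, letter, h', FreeGroup.of]
  · exact absurd h' h
  · simp [gen, letter, h', h'.not_gt, FreeGroup.of, FreeGroup.invRev]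

theorem letter_fst {i j k : Fin n} (hij : i ≠ j) (hjk : j ≠ k) (hik : i ≠ k) :
    (letter i j).1 ≠ (letter j k).1 := by
  unfold letter
  intro h
  split_ifs at h with h1 h2 h2
  · simp only [Prod.mk.injEq] at h; exact hij h.1
  · simp only [Prod.mk.injEq] at h; exact hik h.1
  · simp only [Prod.mk.injEq] at h; exact hik h.2
  · simp only [Prod.mk.injEq] at h; exact hjk h.1

/-- the graph -/
def TT (n : ℕ) : SimpleGraph (Fin n × GG n) where
  Adj v w := v.1 ≠ w.1 ∧ w.2 = v.2 * gen v.1 w.1
  symm := ⟨fun v w h => ⟨h.1.symm, by rw [h.2, mul_assoc, gen_mul, mul_one]⟩⟩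
  loopless := ⟨fun _ h => h.1 rfl⟩

/-- letters of a walk -/
def letters : ∀ {v w : Fin n × GG n}, (TT n).Walk v w → List ((Fin n × Fin n) × Bool)
  | _, _, .nil => []
  | v, _, .cons (v := u) _ p => letter v.1 u.1 :: letters p

theorem letters_mk {v w : Fin n × GG n} (p : (TT n).Walk v w) :
    w.2 = v.2 * FreeGroup.mk (letters p) := by
  induction p with
  | nil => simp [letters, FreeGroup.one_eq_mk.symm]
  | @cons u v w h p ih =>
    rw [ih, h.2]
    rw [show letters (SimpleGraph.Walk.cons h p) = [letter u.1 v.1] ++ letters p from rfl,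
      ← FreeGroup.mul_mk, mk_letter h.1, mul_assoc]

theorem letters_reduced {v w : Fin n × GG n} (p : (TT n).Walk v w) (hp : p.IsTrail) :
    FreeGroup.IsReduced (letters p) := by
  induction p with
  | nil => simp [letters, FreeGroup.IsReduced]
  | @cons u v w h p ih =>
    rw [SimpleGraph.Walk.isTrail_cons] at hp
    have ih' := ih hp.1
    cases p with
    | nil => simp [letters, FreeGroup.IsReduced]
    | @cons _ x _ h' p' =>
      have hne : u.1 ≠ x.1 := by
        intro hux
        apply hp.2
        rw [SimpleGraph.Walk.edges_cons, List.mem_cons]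
        left
        have : u = x := by
          refine Prod.ext hux ?_
          rw [h'.2, h.2, mul_assoc, ← hux, gen_mul, mul_one]
        rw [this]; exact Sym2.eq_swap
      show FreeGroup.IsReduced (letter u.1 v.1 :: letter v.1 x.1 :: letters p')
      have ih2 : FreeGroup.IsReduced (letter v.1 x.1 :: letters p') := ih'
      unfold FreeGroup.IsReduced at ih2 ⊢
      rw [List.isChain_cons_cons]
      exact ⟨fun h1 => absurd h1 (letter_fst h.1 h'.1 hne), ih2⟩

theorem TT_acyclic (n : ℕ) : (TT n).IsAcyclic := by
  classical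
  intro v c hc
  have h1 := letters_mk c
  have h2 := letters_reduced c hc.isTrail
  have h3 : FreeGroup.mk (letters c) = 1 := by
    have : v.2 * 1 = v.2 * FreeGroup.mk (letters c) := by rw [mul_one]; exact h1
    exact (mul_left_cancel this).symm
  have h4 : letters c = [] := by
    have h5 := congrArg FreeGroup.toWord h3
    rw [FreeGroup.toWord_mk, h2.reduce_eq, FreeGroup.toWord_one] at h5
    exact h5
  cases c with
  | nil => exact hc.ne_nil rfl
  | cons h p => simp [letters] at h4

end Pool.Agent.Work.MP_7dea6f_gt
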