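import Mathlib
import Pool.Agent.Work.MP_7dea6f_gt.Cov
import Pool.Agent.Work.MP_7dea6f_gt.Tree

/-! The covering space attached to an open cover of order `≤ 2`. -/

namespace Pool.Agent.Work.MP_7dea6f_gt

open Classical Filter Topology

/-- an open cover of order ≤ 2 -/
structure Cover2 (X : Type) [TopologicalSpace X] where
  n : ℕ
  U : Fin n → Set X
  isOpen : ∀ i, IsOpen (U i)
  cover : ∀ x, ∃ i, x ∈ U i
  order : ∀ x i j k, x ∈ U i → x ∈ U j → x ∈ U k → i = j ∨ i = k ∨ j = k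

variable {X : Type} [MetricSpace X]

namespace Cover2

/-- an index of a member containing `x` -/
noncomputable def io (𝒰 : Cover2 X) (x : X) : Fin 𝒰.n := Classical.choose (𝒰.cover x)

theorem io_mem (𝒰 : Cover2 X) (x : X) : x ∈ 𝒰.U (𝒰.io x) := Classical.choose_spec (𝒰.cover x)

theorem gen3 (𝒰 : Cover2 X) {x : X} {a b c : Fin 𝒰.n} (ha : x ∈ 𝒰.U a) (hb : x ∈ 𝒰.U b)
    (hc : x ∈ 𝒰.U c) : gen a b * gen b c = gen a c := by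
  rcases 𝒰.order x a b c ha hb hc with h | h | h
  · subst h; rw [gen_self, one_mul]
  · subst h; rw [gen_mul, gen_self]
  · subst h; rw [gen_self, mul_one]

/-- the cocycle -/
noncomputable def cc (𝒰 : Cover2 X) (x y : X) : GG 𝒰.n :=
  if h : ∃ i, x ∈ 𝒰.U i ∧ y ∈ 𝒰.U i then
    gen (𝒰.io x) (Classical.choose h) * gen (Classical.choose h) (𝒰.io y) else 1

theorem cc_eq (𝒰 : Cover2 X) {x y : X} {i : Fin 𝒰.n} (hx : x ∈ 𝒰.U i) (hy : y ∈ 𝒰.U i) :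
    𝒰.cc x y = gen (𝒰.io x) i * gen i (𝒰.io y) := by
  have h : ∃ i, x ∈ 𝒰.U i ∧ y ∈ 𝒰.U i := ⟨i, hx, hy⟩
  rw [cc, dif_pos h]
  set j := Classical.choose h with hj
  obtain ⟨hxj, hyj⟩ := Classical.choose_spec h
  rw [← hj] at hxj hyj
  rw [← 𝒰.gen3 (𝒰.io_mem x) hx hxj, ← 𝒰.gen3 hyj hy (𝒰.io_mem y)]
  rw [mul_assoc, ← mul_assoc (gen i j), gen_mul, one_mul]

theorem exists_leb (𝒰 : Cover2 X) [CompactSpace X] :
    ∃ r > 0, ∀ x, ∃ i, Metric.ball x r ⊆ 𝒰.U i := by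
  obtain ⟨r, hr, h⟩ := lebesgue_number_lemma_of_metric (isCompact_univ (X := X)) 𝒰.isOpen
    (fun x _ => Set.mem_iUnion.2 (𝒰.cover x))
  exact ⟨r, hr, fun x => h x (Set.mem_univ x)⟩

/-- Lebesgue number -/
noncomputable def leb (𝒰 : Cover2 X) [CompactSpace X] : ℝ := Classical.choose 𝒰.exists_leb

theorem leb_pos (𝒰 : Cover2 X) [CompactSpace X] : 0 < 𝒰.leb := (Classical.choose_spec 𝒰.exists_leb).1

theorem leb_spec (𝒰 : Cover2 X) [CompactSpace X] (x : X) : ∃ i, Metric.ball x 𝒰.leb ⊆ 𝒰.U i :=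
  (Classical.choose_spec 𝒰.exists_leb).2 x

/-- the cocycle datum of a cover -/
noncomputable def coc (𝒰 : Cover2 X) [CompactSpace X] : Coc X (GG 𝒰.n) where
  c := 𝒰.cc
  r := 𝒰.leb
  r_pos := 𝒰.leb_pos
  coc x y z hxy hyz hxz := by
    obtain ⟨i, hi⟩ := 𝒰.leb_spec x
    have hx : x ∈ 𝒰.U i := hi (Metric.mem_ball_self 𝒰.leb_pos)
    have hy : y ∈ 𝒰.U i := hi (by rw [Metric.mem_ball, dist_comm]; exact hxy)
    have hz : z ∈ 𝒰.U i := hi (by rw [Metric.mem_ball, dist_comm]; exact hxz)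
    rw [𝒰.cc_eq hx hy, 𝒰.cc_eq hy hz, 𝒰.cc_eq hx hz, mul_assoc, ← mul_assoc (gen i (𝒰.io y)),
      gen_mul, one_mul]

@[simp] theorem coc_c (𝒰 : Cover2 X) [CompactSpace X] : 𝒰.coc.c = 𝒰.cc := rfl
@[simp] theorem coc_r (𝒰 : Cover2 X) [CompactSpace X] : 𝒰.coc.r = 𝒰.leb := rfl

/-- the sheets over the members of the cover -/
def sheet (𝒰 : Cover2 X) [CompactSpace X] (w : Fin 𝒰.n × GG 𝒰.n) : Set (Cov 𝒰.coc) :=
  {e | e.pt ∈ 𝒰.U w.1 ∧ e.el * gen (𝒰.io e.pt) w.1 = w.2}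

variable [CompactSpace X] (𝒰 : Cover2 X)

theorem mem_sheet {w : Fin 𝒰.n × GG 𝒰.n} {e : Cov 𝒰.coc} :
    e ∈ 𝒰.sheet w ↔ e.pt ∈ 𝒰.U w.1 ∧ e.el * gen (𝒰.io e.pt) w.1 = w.2 := Iff.rfl

theorem sheet_cover (e : Cov 𝒰.coc) : ∃ w, e ∈ 𝒰.sheet w :=
  ⟨(𝒰.io e.pt, e.el * gen (𝒰.io e.pt) (𝒰.io e.pt)), 𝒰.io_mem _, rfl⟩

theorem sheet_open (w : Fin 𝒰.n × GG 𝒰.n) : IsOpen (𝒰.sheet w) := by
  rw [Metric.isOpen_iff]
  rintro e ⟨he, he2⟩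
  obtain ⟨ρ, hρ, hball⟩ := Metric.isOpen_iff.1 (𝒰.isOpen w.1) _ he
  refine ⟨min ρ 𝒰.coc.r, lt_min hρ 𝒰.coc.r_pos, fun y hy => ?_⟩
  rw [Metric.mem_ball, dist_comm] at hy
  have h1 : dist e y < 𝒰.coc.r := lt_of_lt_of_le hy (min_le_right _ _)
  have h2 := Cov.pt_dist h1
  have h3 : y.pt ∈ 𝒰.U w.1 := hball (by
    rw [Metric.mem_ball, dist_comm, h2]; exact lt_of_lt_of_le hy (min_le_left _ _))
  refine ⟨h3, ?_⟩
  rw [(Cov.cl_iff.2 h1).2, coc_c, 𝒰.cc_eq he h3, mul_assoc, mul_assoc, gen_mul, mul_one, he2]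

theorem sheet_smul (k : GG 𝒰.n) (w : Fin 𝒰.n × GG 𝒰.n) (e : Cov 𝒰.coc) :
    k • e ∈ 𝒰.sheet (w.1, k * w.2) ↔ e ∈ 𝒰.sheet w := by
  simp only [mem_sheet, Cov.smul_pt, Cov.smul_el, mul_assoc, mul_right_inj]

theorem sheet_adj {w w' : Fin 𝒰.n × GG 𝒰.n} (hne : w ≠ w')
    (h : (𝒰.sheet w ∩ 𝒰.sheet w').Nonempty) : (TT 𝒰.n).Adj w w' := by
  obtain ⟨e, ⟨h1, h2⟩, h3, h4⟩ := h
  have key : w'.2 = w.2 * gen w.1 w'.1 := by
    rw [← h4, ← h2, mul_assoc, 𝒰.gen3 (𝒰.io_mem _) h1 h3]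
  refine ⟨fun h5 => hne (Prod.ext h5 ?_), key⟩
  rw [key, ← h5, gen_self, mul_one]

/-- two points of the same sheet -/
theorem sheet_rel {w : Fin 𝒰.n × GG 𝒰.n} {e y : Cov 𝒰.coc} (he : e ∈ 𝒰.sheet w)
    (hy : y ∈ 𝒰.sheet w) : y.el = e.el * 𝒰.cc e.pt y.pt := by
  rw [𝒰.cc_eq he.1 hy.1, ← mul_assoc, he.2, ← hy.2, mul_assoc, gen_mul, mul_one]

/-- a small ball meets only finitely many sheets -/
theorem sheet_ball_finite (e : Cov 𝒰.coc) :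
    {w | (𝒰.sheet w ∩ Metric.ball e 𝒰.leb).Nonempty}.Finite := by
  obtain ⟨i, hi⟩ := 𝒰.leb_spec e.pt
  refine ((Set.finite_univ (α := Fin 𝒰.n)).image
    (fun j => (j, e.el * gen (𝒰.io e.pt) i * gen i j))).subset ?_
  rintro w ⟨y, ⟨hy1, hy2⟩, hy3⟩
  refine ⟨w.1, Set.mem_univ _, ?_⟩
  rw [Metric.mem_ball, dist_comm] at hy3
  have h1 : dist e y < 𝒰.coc.r := hy3
  have h2 := Cov.pt_dist h1
  have he : e.pt ∈ 𝒰.U i := hi (Metric.mem_ball_self 𝒰.leb_pos)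
  have hy : y.pt ∈ 𝒰.U i := hi (by rw [Metric.mem_ball, dist_comm, h2]; exact hy3)
  refine Prod.ext rfl ?_
  show e.el * gen (𝒰.io e.pt) i * gen i w.1 = w.2
  rw [← hy2, (Cov.cl_iff.2 h1).2, coc_c, 𝒰.cc_eq he hy]
  rw [mul_assoc, mul_assoc, mul_assoc, 𝒰.gen3 hy (𝒰.io_mem _) hy1]

theorem sheet_compact_finite {K : Set (Cov 𝒰.coc)} (hK : IsCompact K) :
    {w | (𝒰.sheet w ∩ K).Nonempty}.Finite := by
  obtain ⟨T, -, hT⟩ := hK.elim_nhds_subcover (fun e => Metric.ball e 𝒰.leb)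
    (fun e _ => Metric.ball_mem_nhds e 𝒰.leb_pos)
  refine (Set.Finite.biUnion T.finite_toSet (fun e _ => 𝒰.sheet_ball_finite e)).subset ?_
  rintro w ⟨y, hy1, hy2⟩
  have := hT hy2
  simp only [Set.mem_iUnion] at this
  obtain ⟨e, he, hye⟩ := this
  simp only [Set.mem_iUnion]
  exact ⟨e, he, y, hy1, hye⟩

end Cover2

end Pool.Agent.Work.MP_7dea6f_gt
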