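import Mathlib
import Pool.Agent.Work.MP_7dea6f_gt.Nerve
import Pool.Agent.Work.MP_7dea6f_gt.Chain
import Pool.Agent.Work.MP_7dea6f_gt.Hopf

/-! Comparison of the covering spaces of a cover and a refinement. -/

namespace Pool.Agent.Work.MP_7dea6f_gt

open Classical Filter Topology

variable {X : Type} [MetricSpace X] [CompactSpace X]

/-- a refinement -/
structure Refn (𝒱 𝒰 : Cover2 X) where
  τ : Fin 𝒱.n → Fin 𝒰.n
  sub : ∀ j, 𝒱.U j ⊆ 𝒰.U (τ j)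

namespace Refn

variable {𝒱 𝒰 : Cover2 X} (R : Refn 𝒱 𝒰) (x₀ : X)

/-- unnormalised homomorphism -/
def th0 : GG 𝒱.n →* GG 𝒰.n := FreeGroup.lift (fun p => gen (R.τ p.1) (R.τ p.2))

theorem th0_gen (i j : Fin 𝒱.n) : R.th0 (gen i j) = gen (R.τ i) (R.τ j) := by
  rcases lt_trichotomy i j with h | h | h
  · rw [show gen i j = FreeGroup.of (i, j) by simp [gen, h]]; simp [th0]
  · subst h; rw [gen_self, map_one, gen_self]
  · rw [show gen i j = (FreeGroup.of (j, i))⁻¹ by simp [gen, h, h.not_gt], map_inv,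
      ← gen_inv (R.τ j) (R.τ i)]
    simp [th0]

/-- unnormalised correction -/
noncomputable def aa (x : X) : GG 𝒰.n := gen (R.τ (𝒱.io x)) (𝒰.io x)

/-- the homomorphism normalised at `x₀` -/
noncomputable def th : GG 𝒱.n →* GG 𝒰.n :=
  (MulAut.conj (R.aa x₀)⁻¹).toMonoidHom.comp R.th0

theorem th_apply (k : GG 𝒱.n) : R.th x₀ k = (R.aa x₀)⁻¹ * R.th0 k * R.aa x₀ := by
  simp [th, MulAut.conj_apply]

/-- the comparison map -/
noncomputable def kap (y : Cov 𝒱.coc) : Cov 𝒰.coc :=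
  ⟨y.pt, (R.aa x₀)⁻¹ * R.th0 y.el * R.aa y.pt⟩

@[simp] theorem kap_pt (y : Cov 𝒱.coc) : (R.kap x₀ y).pt = y.pt := rfl

theorem kap_base : R.kap x₀ ⟨x₀, 1⟩ = ⟨x₀, 1⟩ := by
  ext <;> simp [kap]

theorem kap_smul (k : GG 𝒱.n) (y : Cov 𝒱.coc) : R.kap x₀ (k • y) = R.th x₀ k • R.kap x₀ y := by
  ext
  · rfl
  · simp only [kap, Cov.smul_pt, Cov.smul_el, th_apply, map_mul]
    group

theorem kap_rel {w : Fin 𝒱.n × GG 𝒱.n} {y z : Cov 𝒱.coc} (hy : y ∈ 𝒱.sheet w)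
    (hz : z ∈ 𝒱.sheet w) : (R.kap x₀ z).el = (R.kap x₀ y).el * 𝒰.cc y.pt z.pt := by
  have hyU : y.pt ∈ 𝒰.U (R.τ w.1) := R.sub _ hy.1
  have hzU : z.pt ∈ 𝒰.U (R.τ w.1) := R.sub _ hz.1
  have h1 := 𝒱.sheet_rel hy hz
  rw [𝒱.cc_eq hy.1 hz.1] at h1
  rw [𝒰.cc_eq hyU hzU]
  simp only [kap]
  rw [h1, map_mul, map_mul, R.th0_gen, R.th0_gen]
  have e1 : gen (R.τ w.1) (R.τ (𝒱.io z.pt)) * R.aa z.pt = gen (R.τ w.1) (𝒰.io z.pt) :=
    𝒰.gen3 hzU (R.sub _ (𝒱.io_mem _)) (𝒰.io_mem _)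
  have e2 : R.aa y.pt * gen (𝒰.io y.pt) (R.τ w.1) = gen (R.τ (𝒱.io y.pt)) (R.τ w.1) :=
    𝒰.gen3 (R.sub _ (𝒱.io_mem _)) (𝒰.io_mem _) hyU
  calc _ = (R.aa x₀)⁻¹ * (R.th0 y.el) * gen (R.τ (𝒱.io y.pt)) (R.τ w.1) *
        (gen (R.τ w.1) (R.τ (𝒱.io z.pt)) * R.aa z.pt) := by group
    _ = (R.aa x₀)⁻¹ * (R.th0 y.el) * (R.aa y.pt * gen (𝒰.io y.pt) (R.τ w.1)) *
        gen (R.τ w.1) (𝒰.io z.pt) := by rw [e1, e2]
    _ = _ := by group

theorem dist_kap_sheet {w : Fin 𝒱.n × GG 𝒱.n} {y z : Cov 𝒱.coc} (hy : y ∈ 𝒱.sheet w)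
    (hz : z ∈ 𝒱.sheet w) (h : dist y.pt z.pt < 𝒰.leb) :
    dist (R.kap x₀ y) (R.kap x₀ z) = dist y.pt z.pt :=
  Cov.dist_of_cl ⟨h, R.kap_rel x₀ hy hz⟩

omit R in
/-- close points lie on a common sheet -/
theorem common_sheet {y z : Cov 𝒱.coc} (h : dist y z < 𝒱.leb) :
    ∃ w, y ∈ 𝒱.sheet w ∧ z ∈ 𝒱.sheet w := by
  have h' : dist y z < 𝒱.coc.r := h
  obtain ⟨j, hj⟩ := 𝒱.leb_spec y.pt
  have hy : y.pt ∈ 𝒱.U j := hj (Metric.mem_ball_self 𝒱.leb_pos)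
  have hz : z.pt ∈ 𝒱.U j := hj (by rw [Metric.mem_ball, dist_comm, Cov.pt_dist h']; exact h)
  refine ⟨(j, y.el * gen (𝒱.io y.pt) j), ⟨hy, rfl⟩, hz, ?_⟩
  rw [(Cov.cl_iff.2 h').2, Cover2.coc_c, 𝒱.cc_eq hy hz, mul_assoc, mul_assoc, gen_mul, mul_one]

theorem dist_kap {y z : Cov 𝒱.coc} (h : dist y z < min 𝒱.leb 𝒰.leb) :
    dist (R.kap x₀ y) (R.kap x₀ z) = dist y z := by
  have h1 : dist y z < 𝒱.leb := lt_of_lt_of_le h (min_le_left _ _)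
  have h2 : dist y z < 𝒰.leb := lt_of_lt_of_le h (min_le_right _ _)
  have h3 : dist y.pt z.pt = dist y z := Cov.pt_dist (D := 𝒱.coc) h1
  obtain ⟨w, hy, hz⟩ := common_sheet h1
  rw [R.dist_kap_sheet x₀ hy hz (by rw [h3]; exact h2), h3]

theorem kap_continuous : Continuous (R.kap x₀) := by
  rw [Metric.continuous_iff]
  intro b ε hε
  have hpos : 0 < min 𝒱.leb 𝒰.leb := lt_min 𝒱.leb_pos 𝒰.leb_pos
  refine ⟨min ε (min 𝒱.leb 𝒰.leb), lt_min hε hpos, fun a ha => ?_⟩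
  rw [R.dist_kap x₀ (lt_of_lt_of_le ha (min_le_right _ _))]
  exact lt_of_lt_of_le ha (min_le_left _ _)

/-- lifting of small steps through the comparison map -/
theorem kap_lift {y : Cov 𝒱.coc} {z : Cov 𝒰.coc} (h : dist (R.kap x₀ y) z < min 𝒱.leb 𝒰.leb) :
    ∃ y', dist y y' = dist (R.kap x₀ y) z ∧ R.kap x₀ y' = z := by
  have h1 : dist (R.kap x₀ y) z < 𝒱.leb := lt_of_lt_of_le h (min_le_left _ _)
  have h2 : dist (R.kap x₀ y) z < 𝒰.coc.r := lt_of_lt_of_le h (min_le_right _ _)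
  have h3 : dist y.pt z.pt = dist (R.kap x₀ y) z := Cov.pt_dist h2
  have h4 : dist y.pt z.pt < 𝒱.coc.r := by rw [h3]; exact h1
  refine ⟨Cov.lp y z.pt, by rw [Cov.dist_lp h4, h3], ?_⟩
  have h5 : dist y (Cov.lp y z.pt) < 𝒱.leb := by rw [Cov.dist_lp h4]; exact h4
  obtain ⟨w, hy, hz⟩ := common_sheet h5
  refine Cov.ext rfl ?_
  rw [R.kap_rel x₀ hy hz]
  exact (Cov.cl_iff.2 h2).2.symm

/-- the comparison map carries component onto component -/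
theorem kap_component {e : Cov 𝒱.coc} {δ : ℝ} (hδ : 0 < δ)
    (hc : chainComp δ e = connectedComponent e) :
    R.kap x₀ '' (connectedComponent e) = connectedComponent (R.kap x₀ e) := by
  apply Set.Subset.antisymm
  · exact (R.kap_continuous x₀).image_connectedComponent_subset e
  · have hpos : 0 < min δ (min 𝒱.leb 𝒰.leb) := lt_min hδ (lt_min 𝒱.leb_pos 𝒰.leb_pos)
    have hstep : ∀ z ∈ R.kap x₀ '' (connectedComponent e), ∀ z', dist z z' < min δ (min 𝒱.leb 𝒰.leb) →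
        z' ∈ R.kap x₀ '' (connectedComponent e) := by
      rintro _ ⟨y, hy, rfl⟩ z' hz'
      obtain ⟨y', h1, h2⟩ := R.kap_lift x₀ (lt_of_lt_of_le hz' (min_le_right _ _))
      refine ⟨y', ?_, h2⟩
      rw [← hc] at hy ⊢
      exact chainComp_step hy (by rw [h1]; exact lt_of_lt_of_le hz' (min_le_left _ _))
    have hcl : IsClopen (R.kap x₀ '' (connectedComponent e)) := by
      constructor
      · rw [← isOpen_compl_iff, Metric.isOpen_iff]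
        intro y hy
        refine ⟨_, hpos, fun z hz hz' => hy ?_⟩
        exact hstep z hz' y (by rwa [Metric.mem_ball] at hz)
      · rw [Metric.isOpen_iff]
        intro y hy
        exact ⟨_, hpos, fun z hz => hstep y hy z (by rwa [Metric.mem_ball, dist_comm] at hz)⟩
    exact hcl.connectedComponent_subset ⟨e, mem_connectedComponent, rfl⟩

end Refn

end Pool.Agent.Work.MP_7dea6f_gt
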