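import Mathlib
import Pool.Agent.Work.MP_7dea6f_gt.Mor
import Pool.Agent.Work.MP_7dea6f_gt.Ends

/-! Assembly of the final contradiction. -/

namespace Pool.Agent.Work.MP_7dea6f_gt

open Classical Filter Topology

variable {X : Type} [MetricSpace X]

/-- homeomorphisms commuting with the action are transitive on chains -/
theorem exists_homeo {G : Type} [Group G] {D : Coc X G} (hU : UHG G (Cov D)) :
    ∃ δ > 0, ∀ x, ∀ y ∈ chainComp δ x, ∃ g : Cov D ≃ₜ Cov D,
      (∀ (k : G) z, g (k • z) = k • g z) ∧ g x = y := by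
  obtain ⟨δ, hδ, h⟩ := hU 1 one_pos
  refine ⟨δ, hδ, fun x y hy => ?_⟩
  induction hy with
  | refl => exact ⟨Homeomorph.refl _, fun _ _ => rfl, rfl⟩
  | @tail b c _ hbc ih =>
    obtain ⟨g, hg, hgx⟩ := ih
    obtain ⟨g', -, hg', hg''⟩ := h b c hbc
    refine ⟨g.trans g', fun k z => ?_, ?_⟩
    · show g' (g (k • z)) = k • g' (g z)
      rw [hg, hg'']
    · show g' (g x) = c
      rw [hgx, hg']

/-- properness of the action -/
theorem proper_cov {G : Type} [Group G] {D : Coc X G} {K L : Set (Cov D)} (hK : IsCompact K)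
    (hL : IsCompact L) : {k : G | ∃ x ∈ K, k • x ∈ L}.Finite := by
  have hr := D.r_pos
  obtain ⟨S, -, hS⟩ := hK.elim_nhds_subcover (fun e => Metric.ball e (D.r / 4))
    (fun e _ => Metric.ball_mem_nhds e (by linarith))
  obtain ⟨T, -, hT⟩ := hL.elim_nhds_subcover (fun e => Metric.ball e (D.r / 4))
    (fun e _ => Metric.ball_mem_nhds e (by linarith))
  have hsub : {k : G | ∃ x ∈ K, k • x ∈ L} ⊆ ⋃ a ∈ S, ⋃ b ∈ T, {k : G | dist (k • a) b < D.r / 2} := by
    rintro k ⟨x, hx, hkx⟩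
    have h1 := hS hx
    have h2 := hT hkx
    simp only [Set.mem_iUnion, Metric.mem_ball] at h1 h2
    obtain ⟨a, ha, hxa⟩ := h1
    obtain ⟨b, hb, hxb⟩ := h2
    simp only [Set.mem_iUnion]
    refine ⟨a, ha, b, hb, ?_⟩
    show dist (k • a) b < D.r / 2
    have h3 := dist_triangle (k • a) (k • x) b
    rw [Cov.dist_smul, dist_comm a x] at h3
    linarith
  refine Set.Finite.subset ?_ hsub
  refine Set.Finite.biUnion S.finite_toSet (fun a _ => Set.Finite.biUnion T.finite_toSet (fun b _ => ?_))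
  refine Set.Subsingleton.finite ?_
  intro k hk k' hk'
  have hk1 : dist (k • a) b < D.r / 2 := hk
  have hk2 : dist (k' • a) b < D.r / 2 := hk'
  have h1 : dist ((k'⁻¹ * k) • a) a < D.r := by
    have h2 : dist (k • a) (k' • a) < D.r := by
      have := dist_triangle_right (k • a) (k' • a) b
      linarith
    rw [← Cov.dist_smul k', ← mul_smul, mul_inv_cancel_left]
    exact h2
  have h2 := Cov.smul_close h1
  exact (inv_mul_eq_one.1 h2).symm

variable [CompactSpace X]

/-- the tree cover of the base component coming from a fine cover -/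
theorem exists_treeCover {𝒱 𝒰 : Cover2 X} (R : Refn 𝒱 𝒰) (x₀ : X) {δ δ' : ℝ}
    (hδ' : 0 < δ') {d d' : ℕ} {e : Cov 𝒰.coc} {e' : Cov 𝒱.coc} (he : e = ⟨x₀, 1⟩)
    (he' : e' = ⟨x₀, 1⟩)
    (hc : chainComp δ e = connectedComponent e)
    (hc' : chainComp δ' e' = connectedComponent e')
    (φ : FreeGroup (Fin d) ≃* stab e δ)
    (φ' : FreeGroup (Fin d') ≃* stab e' δ')
    (hdd : d' ≤ d)
    {ρ : ℝ} (hρ : ρ ≤ 𝒰.leb / 4)
    (hdiam : ∀ j, ∀ x ∈ 𝒱.U j, ∀ y ∈ 𝒱.U j, dist x y < ρ)
    [MulAction (FreeGroup (Fin d)) (connectedComponent e)]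
    (hact : ∀ (h : FreeGroup (Fin d)) (c : connectedComponent e),
      ((h • c : connectedComponent e) : Cov 𝒰.coc) = ((φ h : stab e δ) : GG 𝒰.n) • (c : Cov 𝒰.coc)) :
    ∃ T : TreeCover (connectedComponent e) (FreeGroup (Fin d)),
      ∀ w, ∀ c ∈ T.V w, ∀ c' ∈ T.V w, dist c c' < ρ := by
  have hbase : R.kap x₀ e' = e := by rw [he, he']; exact R.kap_base x₀
  have himg : R.kap x₀ '' (connectedComponent e') = connectedComponent e := by
    rw [R.kap_component x₀ hδ' hc', hbase]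
  have hmaps : ∀ y ∈ connectedComponent e', R.kap x₀ y ∈ connectedComponent e := fun y hy => by
    rw [← himg]; exact ⟨y, hy, rfl⟩
  -- the homomorphism on stabilizers
  have hth : ∀ k ∈ stab e' δ', R.th x₀ k ∈ stab e δ := by
    intro k hk
    have h1 : k • e' ∈ connectedComponent e' := by rw [← hc']; exact hk
    have h2 := hmaps _ h1
    rw [R.kap_smul, hbase, ← hc] at h2
    exact h2
  set θ : stab e' δ' →* stab e δ :=
    { toFun := fun k => ⟨R.th x₀ k, hth k k.2⟩
      map_one' := by apply Subtype.ext; simp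
      map_mul' := fun a b => by apply Subtype.ext; simp } with hθ
  have hθsurj : Function.Surjective θ := by
    rintro ⟨s, hs⟩
    have h1 : s • e ∈ connectedComponent e := by rw [← hc]; exact hs
    rw [← himg] at h1
    obtain ⟨y, hy, hy2⟩ := h1
    have hpt : y.pt = e'.pt := by
      have := congrArg Cov.pt hy2
      rw [he'] 
      simpa [he] using this
    obtain ⟨t, ht⟩ := Cov.exists_smul (e := e') (e' := y) hpt.symm
    have htm : t ∈ stab e' δ' := by
      rw [mem_stab, ← ht, hc']; exact hy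
    refine ⟨⟨t, htm⟩, ?_⟩
    apply Subtype.ext
    show R.th x₀ t = s
    rw [ht, R.kap_smul, hbase] at hy2
    have := congrArg Cov.el hy2
    simpa [he] using this
  have hθinj : Function.Injective θ := by
    have h1 : Function.Injective ((φ.symm.toMonoidHom.comp θ).comp φ'.toMonoidHom) := by
      refine hopf _ ?_ (by simpa using hdd)
      intro x
      obtain ⟨k, hk⟩ := hθsurj (φ x)
      refine ⟨φ'.symm k, ?_⟩
      simp [hk]
    intro a b hab
    have h2 : (φ.symm.toMonoidHom.comp θ).comp φ'.toMonoidHom (φ'.symm a) =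
      (φ.symm.toMonoidHom.comp θ).comp φ'.toMonoidHom (φ'.symm b) := by
      simp [hab]
    exact φ'.symm.injective (h1 h2)
  set Θ : stab e' δ' ≃* stab e δ := MulEquiv.ofBijective θ ⟨hθinj, hθsurj⟩ with hΘ
  set ψ : FreeGroup (Fin d) →* stab e' δ' := Θ.symm.toMonoidHom.comp φ.toMonoidHom with hψ
  have hψ1 : ∀ h, R.th x₀ (ψ h) = (φ h : stab e δ) := by
    intro h
    have h1 : Θ (ψ h) = φ h := by simp [hψ]
    have h2 := congrArg Subtype.val h1
    exact h2
  -- injectivity of the comparison map on the component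
  have hinj : ∀ y ∈ connectedComponent e', ∀ z ∈ connectedComponent e', R.kap x₀ y = R.kap x₀ z → y = z := by
    intro y hy z hz hyz
    have hpt : y.pt = z.pt := by
      have := congrArg Cov.pt hyz
      simpa using this
    obtain ⟨t, ht⟩ := Cov.exists_smul (e := z) (e' := y) hpt.symm
    have htm : t ∈ stab e' δ' := by
      refine mem_stab_of (y := z) ?_ ?_
      · rw [hc']; exact hz
      · rw [← ht, hc']; exact hy
    rw [ht, R.kap_smul] at hyz
    have h1 : R.th x₀ t = 1 := Cov.smul_eq_self hyz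
    have h2 : θ ⟨t, htm⟩ = 1 := Subtype.ext h1
    have h3 : (⟨t, htm⟩ : stab e' δ') = 1 := hθinj (by rw [h2, map_one])
    have h4 : t = 1 := congrArg Subtype.val h3
    rw [ht, h4, one_smul]
  have hstabC : ∀ k ∈ stab e' δ', ∀ y ∈ connectedComponent e', k • y ∈ connectedComponent e' := by
    intro k hk y hy
    rw [← hc'] at hy ⊢
    exact stab_smul_mem hk hy
  -- step lifting inside the component
  have hpos : 0 < min δ' (min 𝒱.leb 𝒰.leb) := lt_min hδ' (lt_min 𝒱.leb_pos 𝒰.leb_pos)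
  have hstep : ∀ y ∈ connectedComponent e', ∀ z, dist (R.kap x₀ y) z < min δ' (min 𝒱.leb 𝒰.leb) →
      ∃ y' ∈ connectedComponent e', dist y y' = dist (R.kap x₀ y) z ∧ R.kap x₀ y' = z := by
    intro y hy z hz
    obtain ⟨y', h1, h2⟩ := R.kap_lift x₀ (lt_of_lt_of_le hz (min_le_right _ _))
    refine ⟨y', ?_, h1, h2⟩
    rw [← hc'] at hy ⊢
    exact chainComp_step hy (by rw [h1]; exact lt_of_lt_of_le hz (min_le_left _ _))
  set W : Type := {w : Fin 𝒱.n × GG 𝒱.n // (𝒱.sheet w ∩ connectedComponent e').Nonempty} with hW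
  set V : W → Set (connectedComponent e) := fun w =>
    {c | ∃ y ∈ 𝒱.sheet w.1, y ∈ connectedComponent e' ∧ R.kap x₀ y = c} with hV
  have hsmall : ∀ w, ∀ c ∈ V w, ∀ c' ∈ V w, dist c c' < ρ := by
    rintro w c ⟨y, hy, -, hyc⟩ c' ⟨y', hy', -, hyc'⟩
    have h1 := hdiam _ _ hy.1 _ hy'.1
    have h2 : dist (R.kap x₀ y) (R.kap x₀ y') = dist y.pt y'.pt :=
      R.dist_kap_sheet x₀ hy hy' (by have := 𝒰.leb_pos; linarith)
    rw [Subtype.dist_eq, ← hyc, ← hyc', h2]
    exact h1
  have hψact : ∀ (h : FreeGroup (Fin d)) (w : Fin 𝒱.n × GG 𝒱.n),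
      (𝒱.sheet w ∩ connectedComponent e').Nonempty →
      (𝒱.sheet (w.1, ((ψ h : stab e' δ') : GG 𝒱.n) * w.2) ∩ connectedComponent e').Nonempty := by
    rintro h w ⟨y, hy1, hy2⟩
    exact ⟨((ψ h : stab e' δ') : GG 𝒱.n) • y, (𝒱.sheet_smul _ w y).2 hy1, hstabC _ (ψ h).2 _ hy2⟩
  refine ⟨{ W := W
            act := fun h w => ⟨(w.1.1, ((ψ h : stab e' δ') : GG 𝒱.n) * w.1.2), hψact h w.1 w.2⟩
            V := V
            isOpen := ?_
            nonempty := ?_
            cover := ?_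
            act_one := ?_
            act_mul := ?_
            equi := ?_
            relcpt := ?_
            locfin := ?_
            acyclic := ?_ }, hsmall⟩
  · -- open
    intro w
    rw [Metric.isOpen_iff]
    rintro c ⟨y, hy, hyC, hyc⟩
    obtain ⟨σ, hσ, hball⟩ := Metric.isOpen_iff.1 (𝒱.sheet_open w.1) y hy
    refine ⟨min σ (min δ' (min 𝒱.leb 𝒰.leb)), lt_min hσ hpos, fun z hz => ?_⟩
    rw [Metric.mem_ball, dist_comm, Subtype.dist_eq, ← hyc] at hz
    obtain ⟨y', hy'C, h1, h2⟩ := hstep y hyC z (lt_of_lt_of_le hz (min_le_right _ _))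
    refine ⟨y', hball ?_, hy'C, h2⟩
    rw [Metric.mem_ball, dist_comm, h1]
    exact lt_of_lt_of_le hz (min_le_left _ _)
  · -- nonempty
    rintro ⟨w, y, hy, hyC⟩
    exact ⟨⟨R.kap x₀ y, hmaps y hyC⟩, y, hy, hyC, rfl⟩
  · -- cover
    rintro ⟨c, hcC⟩
    have h1 := hcC
    rw [← himg] at h1
    obtain ⟨y, hy, hyc⟩ := h1
    obtain ⟨w, hw⟩ := 𝒱.sheet_cover y
    exact ⟨⟨w, y, hw, hy⟩, y, hw, hy, hyc⟩
  · intro w
    apply Subtype.ext
    refine Prod.ext rfl ?_
    simp
  · intro h k w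
    apply Subtype.ext
    refine Prod.ext rfl ?_
    simp [mul_assoc]
  · -- equivariance
    intro h w
    ext c
    constructor
    · rintro ⟨y, hy, hyC, hyc⟩
      set s : GG 𝒱.n := ((ψ h : stab e' δ') : GG 𝒱.n) with hs
      have hy1 : s⁻¹ • y ∈ 𝒱.sheet w.1 := by
        rw [← 𝒱.sheet_smul s w.1, smul_inv_smul]; exact hy
      have hy2 : s⁻¹ • y ∈ connectedComponent e' :=
        hstabC _ ((stab e' δ').inv_mem (ψ h).2) _ hyC
      refine ⟨⟨R.kap x₀ (s⁻¹ • y), hmaps _ hy2⟩, ⟨s⁻¹ • y, hy1, hy2, rfl⟩, ?_⟩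
      apply Subtype.ext
      show ((h • (⟨R.kap x₀ (s⁻¹ • y), hmaps _ hy2⟩ : connectedComponent e) : connectedComponent e) : Cov 𝒰.coc) = c
      rw [hact, ← hψ1, ← hs]
      show R.th x₀ s • R.kap x₀ (s⁻¹ • y) = c
      rw [← R.kap_smul, smul_inv_smul, hyc]
    · rintro ⟨c', ⟨y, hy, hyC, hyc⟩, rfl⟩
      refine ⟨((ψ h : stab e' δ') : GG 𝒱.n) • y, (𝒱.sheet_smul _ w.1 y).2 hy, hstabC _ (ψ h).2 _ hyC, ?_⟩
      show R.kap x₀ _ = ((h • c' : connectedComponent e) : Cov 𝒰.coc)
      rw [hact, R.kap_smul, hψ1, hyc]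
  · -- relatively compact
    rintro ⟨w, y, hy, hyC⟩
    refine ⟨Subtype.val ⁻¹' (Metric.closedBall (R.kap x₀ y) ρ), ?_, ?_⟩
    · have h1 : IsCompact (Metric.closedBall (R.kap x₀ y) ρ) :=
        Cov.isCompact_closedBall _ (by
          have := 𝒰.leb_pos
          show ρ < 𝒰.leb / 2
          linarith)
      exact (isClosed_connectedComponent.isClosedEmbedding_subtypeVal).isCompact_preimage h1
    · intro c hcw
      have h2 := hsmall ⟨w, y, hy, hyC⟩ c hcw ⟨R.kap x₀ y, hmaps y hyC⟩ ⟨y, hy, hyC, rfl⟩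
      rw [Subtype.dist_eq] at h2
      show (c : Cov 𝒰.coc) ∈ Metric.closedBall (R.kap x₀ y) ρ
      rw [Metric.mem_closedBall]
      exact h2.le
  · -- locally finite
    intro K hK
    obtain ⟨T, -, hT⟩ := hK.elim_nhds_subcover (fun c => Metric.ball c (min δ' (min 𝒱.leb 𝒰.leb)))
      (fun c _ => Metric.ball_mem_nhds c hpos)
    have hcfin : ∀ c : connectedComponent e,
        {w : W | (V w ∩ Metric.ball c (min δ' (min 𝒱.leb 𝒰.leb))).Nonempty}.Finite := by
      rintro ⟨c, hcC⟩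
      have h1 := hcC
      rw [← himg] at h1
      obtain ⟨y, hy, hyc⟩ := h1
      have hfin := 𝒱.sheet_ball_finite y
      have : Set.InjOn (Subtype.val : W → Fin 𝒱.n × GG 𝒱.n) (Subtype.val ⁻¹' {w | (𝒱.sheet w ∩ Metric.ball y 𝒱.leb).Nonempty}) :=
        Subtype.val_injective.injOn
      refine (Set.Finite.preimage this hfin).subset ?_
      rintro w ⟨z, ⟨y', hy', hy'C, hy'z⟩, hz⟩
      rw [Metric.mem_ball, dist_comm, Subtype.dist_eq] at hz
      have hz' : dist (R.kap x₀ y) z < min δ' (min 𝒱.leb 𝒰.leb) := by rw [hyc]; exact hz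
      obtain ⟨y'', hy''C, h1, h2⟩ := hstep y hy z hz'
      have h3 : y'' = y' := hinj _ hy''C _ hy'C (by rw [h2, hy'z])
      refine ⟨y', hy', ?_⟩
      rw [Metric.mem_ball, dist_comm, ← h3, h1]
      exact lt_of_lt_of_le hz' ((min_le_right _ _).trans (min_le_left _ _))
    refine (Set.Finite.biUnion T.finite_toSet (fun c _ => hcfin c)).subset ?_
    rintro w ⟨z, hz1, hz2⟩
    have := hT hz2
    simp only [Set.mem_iUnion] at this
    obtain ⟨c, hcT, hzc⟩ := this
    simp only [Set.mem_iUnion]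
    exact ⟨c, hcT, z, hz1, hzc⟩
  · -- acyclic
    refine (TT_acyclic 𝒱.n).comap ⟨Subtype.val, ?_⟩ Subtype.val_injective
    rintro w w' ⟨hne, c, ⟨y, hy, hyC, hyc⟩, y', hy', hy'C, hyc'⟩
    have : y = y' := hinj _ hyC _ hy'C (by rw [hyc, hyc'])
    subst this
    exact 𝒱.sheet_adj (fun h => hne (Subtype.ext h)) ⟨y, hy, hy'⟩

/-- the final contradiction -/
theorem final_contra [PreconnectedSpace X] {𝒰 : Cover2 X} (x₀ : X) {δ : ℝ} (hδ : 0 < δ)
    {e : Cov 𝒰.coc} (he : e = ⟨x₀, 1⟩)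
    (hc : chainComp δ e = connectedComponent e)
    {d : ℕ} (hd : 2 ≤ d) (φ : FreeGroup (Fin d) ≃* stab e δ)
    (hU : UHG (GG 𝒰.n) (Cov 𝒰.coc))
    (href : ∀ ρ > 0, ∃ (𝒱 : Cover2 X) (_ : Refn 𝒱 𝒰), (∀ j, ∀ x ∈ 𝒱.U j, ∀ y ∈ 𝒱.U j, dist x y < ρ) ∧
      ∃ δ' > 0, chainComp δ' (⟨x₀, 1⟩ : Cov 𝒱.coc) = connectedComponent (⟨x₀, 1⟩ : Cov 𝒱.coc) ∧
        ∃ d' ≤ d, Nonempty (FreeGroup (Fin d') ≃* stab (⟨x₀, 1⟩ : Cov 𝒱.coc) δ')) : False := by
  have hstabC : ∀ k ∈ stab e δ, ∀ y ∈ connectedComponent e, k • y ∈ connectedComponent e := by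
    intro k hk y hy
    rw [← hc] at hy ⊢
    exact stab_smul_mem hk hy
  let act : MulAction (FreeGroup (Fin d)) (connectedComponent e) :=
    { smul := fun h c => ⟨((φ h : stab e δ) : GG 𝒰.n) • (c : Cov 𝒰.coc), hstabC _ (φ h).2 _ c.2⟩
      one_smul := fun c => by
        apply Subtype.ext
        show ((φ 1 : stab e δ) : GG 𝒰.n) • (c : Cov 𝒰.coc) = c
        rw [map_one]; simp
      mul_smul := fun a b c => by
        apply Subtype.ext
        show ((φ (a * b) : stab e δ) : GG 𝒰.n) • (c : Cov 𝒰.coc) =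
          ((φ a : stab e δ) : GG 𝒰.n) • ((φ b : stab e δ) : GG 𝒰.n) • (c : Cov 𝒰.coc)
        rw [map_mul, Subgroup.coe_mul, mul_smul] }
  have hact : ∀ (h : FreeGroup (Fin d)) (c : connectedComponent e),
      ((h • c : connectedComponent e) : Cov 𝒰.coc) = ((φ h : stab e δ) : GG 𝒰.n) • (c : Cov 𝒰.coc) :=
    fun _ _ => rfl
  have : ConnectedSpace (connectedComponent e) :=
    Subtype.connectedSpace isConnected_connectedComponent
  have : LocallyCompactSpace (connectedComponent e) := isClosed_connectedComponent.locallyCompactSpace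
  have hcont : ∀ h : FreeGroup (Fin d), Continuous (fun x : connectedComponent e => h • x) := by
    intro h
    rw [Topology.IsEmbedding.subtypeVal.continuous_iff]
    exact (Cov.continuous_smul _).comp continuous_subtype_val
  have hr := 𝒰.leb_pos
  -- compact set K0
  set s : ℝ := min (δ / 2) (𝒰.leb / 4) with hs
  have hspos : 0 < s := lt_min (by linarith) (by linarith)
  have hsδ : s < δ := lt_of_le_of_lt (min_le_left _ _) (by linarith)
  have hsr : s < 𝒰.leb / 2 := lt_of_le_of_lt (min_le_right _ _) (by linarith)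
  obtain ⟨T, -, hT⟩ := (isCompact_univ (X := X)).elim_nhds_subcover (fun x => Metric.ball x s)
    (fun x _ => Metric.ball_mem_nhds x hspos)
  choose σ hσ hσ' using exists_above e hδ
  set K0 : Set (connectedComponent e) := Subtype.val ⁻¹' (⋃ x ∈ T, Metric.closedBall (σ x) s) with hK0
  have hK0c : IsCompact K0 := by
    refine (isClosed_connectedComponent.isClosedEmbedding_subtypeVal).isCompact_preimage ?_
    exact T.finite_toSet.isCompact_biUnion (fun x _ => Cov.isCompact_closedBall _ hsr)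
  have hcc : ∀ c : connectedComponent e, ∃ h : FreeGroup (Fin d), h • c ∈ K0 := by
    rintro ⟨c, hcC⟩
    have h1 := hT (Set.mem_univ c.pt)
    simp only [Set.mem_iUnion, Metric.mem_ball] at h1
    obtain ⟨x, hx, hcx⟩ := h1
    have hd1 : dist (σ x).pt c.pt < 𝒰.coc.r := by
      rw [hσ', dist_comm]; show dist c.pt x < 𝒰.leb; linarith
    set z := Cov.lp (σ x) c.pt with hz
    have hzd : dist (σ x) z = dist (σ x).pt c.pt := Cov.dist_lp hd1
    have hzs : dist (σ x) z < s := by rw [hzd, hσ', dist_comm]; exact hcx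
    have hzC : z ∈ chainComp δ e := chainComp_step (hσ x) (lt_trans hzs hsδ)
    obtain ⟨k, hk⟩ := Cov.exists_smul (e := c) (e' := z) rfl
    have hkm : k ∈ stab e δ := by
      refine mem_stab_of (y := c) ?_ ?_
      · rw [hc]; exact hcC
      · rw [← hk]; exact hzC
    refine ⟨φ.symm ⟨k, hkm⟩, ?_⟩
    show ((φ (φ.symm ⟨k, hkm⟩) : stab e δ) : GG 𝒰.n) • c ∈ ⋃ x ∈ T, Metric.closedBall (σ x) s
    rw [φ.apply_symm_apply]
    show k • c ∈ _
    rw [← hk]
    simp only [Set.mem_iUnion]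
    exact ⟨x, hx, by rw [Metric.mem_closedBall, dist_comm]; exact hzs.le⟩
  -- properness
  have hproper : ∀ K L : Set (connectedComponent e), IsCompact K → IsCompact L →
      {h : FreeGroup (Fin d) | (((fun x => h • x) '' K) ∩ L).Nonempty}.Finite := by
    intro K L hK hL
    have h1 := proper_cov (hK.image continuous_subtype_val) (hL.image continuous_subtype_val)
    have hinj : Function.Injective (fun h : FreeGroup (Fin d) => ((φ h : stab e δ) : GG 𝒰.n)) :=
      Subtype.val_injective.comp φ.injective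
    refine (Set.Finite.preimage hinj.injOn h1).subset ?_
    rintro h ⟨_, ⟨x, hx, rfl⟩, hx2⟩
    exact ⟨x, ⟨x, hx, rfl⟩, ⟨_, hx2, rfl⟩⟩
  -- transitivity
  have htrans : ∀ x y : connectedComponent e, ∃ g : connectedComponent e ≃ₜ connectedComponent e,
      (∀ (h : FreeGroup (Fin d)) z, g (h • z) = h • g z) ∧ g x = y := by
    rintro ⟨x, hx⟩ ⟨y, hy⟩
    obtain ⟨δ₁, hδ₁, hh⟩ := exists_homeo hU
    have hxy : y ∈ connectedComponent x := by rw [← connectedComponent_eq hx]; exact hy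
    obtain ⟨g, hg, hgx⟩ := hh x y (component_subset_chainComp hδ₁ x hxy)
    have hmem : ∀ z, z ∈ connectedComponent e ↔ g z ∈ connectedComponent e := by
      have h1 : ∀ z ∈ connectedComponent e, g z ∈ connectedComponent e := by
        intro z hz
        have h2 : z ∈ connectedComponent x := by rw [← connectedComponent_eq hx]; exact hz
        have h3 : g z ∈ connectedComponent (g x) := g.continuous.image_connectedComponent_subset x ⟨z, h2, rfl⟩
        rw [hgx, ← connectedComponent_eq hy] at h3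
        exact h3
      have h1' : ∀ z ∈ connectedComponent e, g.symm z ∈ connectedComponent e := by
        intro z hz
        have h2 : z ∈ connectedComponent y := by rw [← connectedComponent_eq hy]; exact hz
        have h3 : g.symm z ∈ connectedComponent (g.symm y) :=
          g.symm.continuous.image_connectedComponent_subset y ⟨z, h2, rfl⟩
        rw [← hgx, g.symm_apply_apply, ← connectedComponent_eq hx] at h3
        exact h3
      intro z
      refine ⟨h1 z, fun hz => ?_⟩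
      have := h1' _ hz
      rwa [g.symm_apply_apply] at this
    refine ⟨g.subtype hmem, fun h z => ?_, ?_⟩
    · apply Subtype.ext
      show g (((φ h : stab e δ) : GG 𝒰.n) • (z : Cov 𝒰.coc)) = ((φ h : stab e δ) : GG 𝒰.n) • g z
      rw [hg]
    · apply Subtype.ext
      exact hgx
  -- fine covers
  have hfine : ∀ O : connectedComponent e → Set (connectedComponent e), (∀ x, IsOpen (O x) ∧ x ∈ O x) →
      ∀ K : Set (connectedComponent e), IsCompact K →
      ∃ T : TreeCover (connectedComponent e) (FreeGroup (Fin d)), ∀ w, (T.V w ∩ K).Nonempty →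
        ∃ x, T.V w ⊆ O x := by
    intro O hO K hK
    obtain ⟨ρ, hρ, hleb⟩ := lebesgue_number_lemma_of_metric hK (fun x => (hO x).1)
      (fun x _ => Set.mem_iUnion.2 ⟨x, (hO x).2⟩)
    obtain ⟨𝒱, R, hdiam, δ', hδ', hc', d', hdd, ⟨φ'⟩⟩ := href (min ρ (𝒰.leb / 4))
      (lt_min hρ (by linarith))
    obtain ⟨T, hT⟩ := exists_treeCover R x₀ hδ' he rfl hc hc' φ φ' hdd (min_le_right ρ (𝒰.leb / 4))
      hdiam hact
    refine ⟨T, fun w hw => ?_⟩
    obtain ⟨c, hc1, hc2⟩ := hw
    obtain ⟨x, hx⟩ := hleb c hc2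
    refine ⟨x, fun c' hc' => hx ?_⟩
    rw [Metric.mem_ball]
    exact lt_of_lt_of_le (hT w c' hc' c hc1) (min_le_left _ _)
  exact no_homog_tree hcont (⟨0, by omega⟩ : Fin d) ⟨1, by omega⟩ (by simp [Fin.ext_iff])
    hproper K0 hK0c hcc htrans hfine

end Pool.Agent.Work.MP_7dea6f_gt
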