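import Mathlib
import Pool.Agent.Work.MP_7dea6f_gt.Defs

/-! Components of a locally compact uniformly micro-homogeneous metric space. -/

namespace Pool.Agent.Work.MP_7dea6f_gt

open Topology Set

section

variable {E : Type*} [MetricSpace E]

/-- a homeomorphism moves components to components -/
theorem cc_map (g : E ≃ₜ E) {x y : E}
    (h : (ConnectedComponents.mk x) = ConnectedComponents.mk y) :
    (ConnectedComponents.mk (g x)) = ConnectedComponents.mk (g y) := by
  rw [ConnectedComponents.coe_eq_coe'] at h ⊢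
  exact g.continuous.image_connectedComponent_subset y ⟨x, h, rfl⟩

theorem mk_isOpenMap (hE : UH E) : IsOpenMap (ConnectedComponents.mk : E → ConnectedComponents E) := by
  intro W hW
  rw [← ConnectedComponents.isQuotientMap_coe.isOpen_preimage, Metric.isOpen_iff]
  rintro y ⟨w, hw, hwy⟩
  obtain ⟨ε, hε, hball⟩ := Metric.isOpen_iff.1 hW w hw
  obtain ⟨δ, hδ, hg⟩ := hE ε hε
  refine ⟨δ, hδ, fun y' hy' => ?_⟩
  obtain ⟨g, hgd, hgy⟩ := hg y y' (by rw [dist_comm]; exact hy')
  refine ⟨g w, hball (hgd w), ?_⟩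
  rw [← hgy]
  exact cc_map g hwy

theorem mk_isOpenQuotientMap (hE : UH E) :
    IsOpenQuotientMap (ConnectedComponents.mk : E → ConnectedComponents E) :=
  IsOpenQuotientMap.iff_isOpenMap_isQuotientMap.2
    ⟨mk_isOpenMap hE, ConnectedComponents.isQuotientMap_coe⟩

theorem t2_components (hE : UH E) : T2Space (ConnectedComponents E) := by
  rw [t2Space_iff_of_isOpenQuotientMap (mk_isOpenQuotientMap hE), ← isOpen_compl_iff,
    Metric.isOpen_iff]
  rintro ⟨x, y⟩ hxy
  have hx : x ∈ (connectedComponent y)ᶜ := by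
    intro h
    exact hxy (ConnectedComponents.coe_eq_coe'.2 h)
  obtain ⟨ε, hε, hball⟩ := Metric.isOpen_iff.1 isClosed_connectedComponent.isOpen_compl x hx
  obtain ⟨δ, hδ, hg⟩ := hE (ε / 2) (half_pos hε)
  refine ⟨min δ (ε / 2), lt_min hδ (half_pos hε), ?_⟩
  rintro ⟨x', y'⟩ hxy' hq
  rw [Metric.mem_ball, Prod.dist_eq, max_lt_iff] at hxy'
  obtain ⟨h, hd, hh⟩ := hg y' y (lt_of_lt_of_le hxy'.2 (min_le_left _ _))
  have h1 : h x' ∈ Metric.ball x ε := by
    rw [Metric.mem_ball]
    calc dist (h x') x ≤ dist (h x') x' + dist x' x := dist_triangle _ _ _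
      _ < ε / 2 + ε / 2 := add_lt_add (hd x') (lt_of_lt_of_le hxy'.1 (min_le_right _ _))
      _ = ε := by ring
  refine hball h1 ?_
  have := cc_map h (show ConnectedComponents.mk x' = ConnectedComponents.mk y' from hq)
  rw [hh, ConnectedComponents.coe_eq_coe'] at this
  exact this

theorem exists_compact_clopen [LocallyCompactSpace E] (hE : UH E) (x : E)
    (U : Set (ConnectedComponents E)) (hU : U ∈ 𝓝 (ConnectedComponents.mk x)) :
    ∃ Q : Set (ConnectedComponents E), IsClopen Q ∧ IsCompact Q ∧ ConnectedComponents.mk x ∈ Q ∧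
      Q ⊆ U := by
  have := t2_components hE
  have : LocallyCompactSpace (ConnectedComponents E) :=
    (mk_isOpenQuotientMap hE).locallyCompactSpace
  obtain ⟨K, hK, hKU, hKc⟩ := LocallyCompactSpace.local_compact_nhds _ _ hU
  obtain ⟨Q, hQ, hxQ, hQK⟩ :=
    (loc_compact_Haus_tot_disc_of_zero_dim (H := ConnectedComponents E)).mem_nhds_iff.1 hK
  exact ⟨Q, hQ, hKc.of_isClosed_subset hQ.1 hQK, hxQ, hQK.trans hKU⟩

theorem exists_delta (hE : UH E) (Q : Set (ConnectedComponents E)) (hQo : IsOpen Q)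
    (hQc : IsCompact Q) : ∃ δ > 0, ∀ e e' : E, ConnectedComponents.mk e ∈ Q → dist e e' < δ →
      ConnectedComponents.mk e' ∈ Q := by
  have hgen : ∃ δ > 0, ∀ e e' : E, ConnectedComponents.mk e ∈ Q → dist e e' < δ →
      ConnectedComponents.mk e' ∈ Q := by
    refine hQc.induction_on (p := fun S => ∃ δ > 0, ∀ e e' : E, ConnectedComponents.mk e ∈ S →
      dist e e' < δ → ConnectedComponents.mk e' ∈ Q) ?_ ?_ ?_ ?_
    · exact ⟨1, one_pos, fun e e' h => absurd h (Set.notMem_empty _)⟩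
    · rintro s t hst ⟨δ, hδ, h⟩
      exact ⟨δ, hδ, fun e e' he => h e e' (hst he)⟩
    · rintro s t ⟨δ, hδ, h⟩ ⟨δ', hδ', h'⟩
      refine ⟨min δ δ', lt_min hδ hδ', ?_⟩
      rintro e e' (he | he) hd
      · exact h e e' he (lt_of_lt_of_le hd (min_le_left _ _))
      · exact h' e e' he (lt_of_lt_of_le hd (min_le_right _ _))
    · intro ξ hξ
      obtain ⟨x, rfl⟩ := ConnectedComponents.surjective_coe ξ
      have hP : IsOpen ((ConnectedComponents.mk : E → ConnectedComponents E) ⁻¹' Q) :=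
        hQo.preimage ConnectedComponents.continuous_coe
      obtain ⟨ε, hε, hball⟩ := Metric.isOpen_iff.1 hP x hξ
      obtain ⟨δ, hδ, hg⟩ := hE (ε / 2) (half_pos hε)
      refine ⟨ConnectedComponents.mk '' Metric.ball x (ε / 2), mem_nhdsWithin_of_mem_nhds
        ((mk_isOpenMap hE _ Metric.isOpen_ball).mem_nhds
          ⟨x, Metric.mem_ball_self (half_pos hε), rfl⟩), δ, hδ, ?_⟩
      rintro e e' ⟨z, hz, hze⟩ hd
      obtain ⟨g, hgd, hge⟩ := hg e e' hd
      have h1 : g z ∈ Metric.ball x ε := by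
        rw [Metric.mem_ball] at hz ⊢
        calc dist (g z) x ≤ dist (g z) z + dist z x := dist_triangle _ _ _
          _ < ε / 2 + ε / 2 := add_lt_add (hgd z) hz
          _ = ε := by ring
      have h2 := hball h1
      rw [← hge]
      have h3 := cc_map g hze
      rw [← h3]
      exact h2
  exact hgen

theorem chainComp_subset {Q : Set (ConnectedComponents E)} {δ₀ : ℝ}
    (h : ∀ e e' : E, ConnectedComponents.mk e ∈ Q → dist e e' < δ₀ →
      ConnectedComponents.mk e' ∈ Q) (x : E) (hx : ConnectedComponents.mk x ∈ Q) {δ : ℝ}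
    (hδ : δ ≤ δ₀) : ∀ y ∈ chainComp δ x, ConnectedComponents.mk y ∈ Q := by
  intro y hy
  induction hy with
  | refl => exact hx
  | tail _ h2 ih => exact h _ _ ih (lt_of_lt_of_le h2 hδ)

theorem chainComp_isClopen {δ : ℝ} (hδ : 0 < δ) (x : E) : IsClopen (chainComp δ x) := by
  constructor
  · rw [← isOpen_compl_iff, Metric.isOpen_iff]
    intro y hy
    refine ⟨δ, hδ, fun z hz hz' => hy ?_⟩
    exact Relation.ReflTransGen.tail hz' (by simpa using hz)
  · rw [Metric.isOpen_iff]
    intro y hy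
    refine ⟨δ, hδ, fun z hz => ?_⟩
    exact Relation.ReflTransGen.tail hy (by rw [dist_comm]; simpa using hz)

/-- clopen sets are saturated -/
theorem clopen_sat {O : Set E} (hO : IsClopen O) {y z : E} (hz : z ∈ O)
    (h : ConnectedComponents.mk z = ConnectedComponents.mk y) : y ∈ O := by
  have : y ∈ connectedComponent z := ConnectedComponents.coe_eq_coe'.1 h.symm
  exact hO.connectedComponent_subset hz this

end

theorem chainComp_compact {E : Type*} [MetricSpace E] [LocallyCompactSpace E] (hE : UH E) (x : E) :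
    ∃ δ₀ > 0, ∀ δ > 0, δ ≤ δ₀ → ∀ (ι : Type) (O : ι → Set E), (∀ i, IsClopen (O i)) →
      chainComp δ x ⊆ ⋃ i, O i → ∃ t : Finset ι, chainComp δ x ⊆ ⋃ i ∈ t, O i := by
  obtain ⟨Q, hQ, hQc, hxQ, -⟩ := exists_compact_clopen hE x Set.univ Filter.univ_mem
  obtain ⟨δ₀, hδ₀, h0⟩ := exists_delta hE Q hQ.2 hQc
  refine ⟨δ₀, hδ₀, fun δ hδ hle ι O hO hcov => ?_⟩
  have hsub := chainComp_subset h0 x hxQ hle
  have hclop := chainComp_isClopen hδ x
  have himc : IsClosed (ConnectedComponents.mk '' chainComp δ x) := by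
    rw [← ConnectedComponents.isQuotientMap_coe.isClosed_preimage]
    have : (ConnectedComponents.mk : E → ConnectedComponents E) ⁻¹'
        (ConnectedComponents.mk '' chainComp δ x) = chainComp δ x := by
      ext y
      constructor
      · rintro ⟨z, hz, hzy⟩
        exact clopen_sat hclop hz hzy
      · intro hy
        exact ⟨y, hy, rfl⟩
    rw [this]
    exact hclop.1
  have hcomp : IsCompact (ConnectedComponents.mk '' chainComp δ x) := by
    refine hQc.of_isClosed_subset himc ?_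
    rintro _ ⟨y, hy, rfl⟩
    exact hsub y hy
  obtain ⟨t, ht⟩ := hcomp.elim_finite_subcover (fun i => ConnectedComponents.mk '' O i)
    (fun i => mk_isOpenMap hE _ (hO i).2) (by
      rintro _ ⟨y, hy, rfl⟩
      obtain ⟨i, hi⟩ := mem_iUnion.1 (hcov hy)
      exact mem_iUnion.2 ⟨i, y, hi, rfl⟩)
  refine ⟨t, fun y hy => ?_⟩
  obtain ⟨i, hi⟩ := mem_iUnion.1 (ht ⟨y, hy, rfl⟩)
  obtain ⟨hit, z, hz, hzy⟩ := mem_iUnion.1 hi
  exact mem_iUnion₂.2 ⟨i, hit, clopen_sat (hO i) hz hzy⟩

theorem mem_component_of_chainComp {E : Type*} [MetricSpace E] [LocallyCompactSpace E] (hE : UH E)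
    (x y : E) (h : ∀ δ > 0, y ∈ chainComp δ x) : y ∈ connectedComponent x := by
  by_contra hy
  have := t2_components hE
  have hne : ConnectedComponents.mk x ≠ ConnectedComponents.mk y := by
    intro h'
    exact hy (ConnectedComponents.coe_eq_coe'.1 h'.symm)
  obtain ⟨Q, hQ, hQc, hxQ, hQU⟩ := exists_compact_clopen hE x {ConnectedComponents.mk y}ᶜ
    (isOpen_compl_singleton.mem_nhds hne)
  obtain ⟨δ₀, hδ₀, h0⟩ := exists_delta hE Q hQ.2 hQc
  exact hQU (chainComp_subset h0 x hxQ le_rfl y (h δ₀ hδ₀)) rfl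

end Pool.Agent.Work.MP_7dea6f_gt
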