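import Mathlib
import Pool.Agent.Work.MP_7dea6f_gt.Chain

/-! Upper bound for the rank of the stabilizer. -/

namespace Pool.Agent.Work.MP_7dea6f_gt

open Classical Filter Topology

variable {X G : Type} [MetricSpace X] [Group G] {D : Coc X G}

theorem Cov.continuousAt_lp (y : Cov D) : ContinuousAt (Cov.lp y) y.pt := by
  have hr := D.r_pos
  rw [Metric.continuousAt_iff]
  intro ε hε
  refine ⟨min ε D.r, lt_min hε hr, fun x hx => ?_⟩
  have h1 : dist y.pt x < D.r := by rw [dist_comm]; exact lt_of_lt_of_le hx (min_le_right _ _)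
  rw [Cov.lp_self, dist_comm, Cov.dist_lp h1, dist_comm]
  exact lt_of_lt_of_le hx (min_le_left _ _)

/-- invariant functions descend -/
theorem descend [PreconnectedSpace X] (e : Cov D) {δ : ℝ} (hδ : 0 < δ) {Z : Type*}
    [TopologicalSpace Z] (Φ : Cov D → Z) (hΦ : Continuous Φ)
    (hinv : ∀ s ∈ stab e δ, ∀ y ∈ chainComp δ e, Φ (s • y) = Φ y) :
    ∃ φ : C(X, Z), ∀ y ∈ chainComp δ e, φ y.pt = Φ y := by
  have hr := D.r_pos
  choose σ hσ hσ' using exists_above e hδ
  have key : ∀ y ∈ chainComp δ e, Φ (σ y.pt) = Φ y := by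
    intro y hy
    obtain ⟨k, hk⟩ := Cov.exists_smul (e := y) (e' := σ y.pt) (hσ' _).symm
    rw [hk]
    exact hinv k (mem_stab_of hy (hk ▸ hσ _)) y hy
  refine ⟨⟨fun x => Φ (σ x), ?_⟩, fun y hy => key y hy⟩
  rw [continuous_iff_continuousAt]
  intro x
  have h1 : ContinuousAt (fun z => Φ (Cov.lp (σ x) z)) x := by
    have h2 : ContinuousAt (Cov.lp (σ x)) x := by
      have := Cov.continuousAt_lp (σ x)
      rwa [hσ'] at this
    exact hΦ.continuousAt.comp h2
  refine h1.congr ?_
  have hball : Metric.ball x (min δ D.r) ∈ 𝓝 x := Metric.ball_mem_nhds _ (lt_min hδ hr)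
  filter_upwards [hball] with z hz
  have hz1 : dist (σ x).pt z < min δ D.r := by rw [hσ', dist_comm]; exact hz
  have h3 : Cov.lp (σ x) z ∈ chainComp δ e := by
    refine chainComp_step (hσ x) ?_
    rw [Cov.dist_lp (lt_of_lt_of_le hz1 (min_le_right _ _))]
    exact lt_of_lt_of_le hz1 (min_le_left _ _)
  have := key _ h3
  rw [Cov.lp_pt] at this
  exact this.symm

/-- coset extension of an additive function on a subgroup -/
theorem coset_ext (S : Subgroup G) (u : S →* Multiplicative ℤ) :
    ∃ v : G → ℤ, ∀ (s : S) (k : G), v (s * k) = Multiplicative.toAdd (u s) + v k := by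
  let rep : G → G := fun k => (Quotient.mk (QuotientGroup.rightRel S) k).out
  have hrep : ∀ k, k * (rep k)⁻¹ ∈ S := by
    intro k
    have : (QuotientGroup.rightRel S) (rep k) k := Quotient.mk_out (s := QuotientGroup.rightRel S) k
    rwa [QuotientGroup.rightRel_apply] at this
  have hrep2 : ∀ (s : S) (k : G), rep (s * k) = rep k := by
    intro s k
    show (Quotient.mk (QuotientGroup.rightRel S) (s * k)).out = (Quotient.mk (QuotientGroup.rightRel S) k).out
    congr 1
    apply Quotient.sound
    show (QuotientGroup.rightRel S) (s * k) k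
    rw [QuotientGroup.rightRel_apply]
    simp
  refine ⟨fun k => Multiplicative.toAdd (u ⟨k * (rep k)⁻¹, hrep k⟩), fun s k => ?_⟩
  rw [← toAdd_mul, ← map_mul]
  have h : (⟨(s : G) * k * (rep (s * k))⁻¹, hrep _⟩ : S) = s * ⟨k * (rep k)⁻¹, hrep k⟩ := by
    apply Subtype.ext
    simp [hrep2, mul_assoc]
  show Multiplicative.toAdd (u ⟨(s : G) * k * (rep (s * k))⁻¹, hrep _⟩) = _
  rw [h]

/-- equivariant real functions from homomorphisms -/
theorem equivariant_fun [CompactSpace X] (S : Subgroup G) (u : S →* Multiplicative ℤ) :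
    ∃ F : Cov D → ℝ, Continuous F ∧
      ∀ (s : S) (y : Cov D), F ((s : G) • y) = F y + (Multiplicative.toAdd (u s) : ℤ) := by
  have hr := D.r_pos
  obtain ⟨v, hv⟩ := coset_ext S u
  obtain ⟨T, -, hT⟩ := (isCompact_univ (X := X)).elim_nhds_subcover (fun x => Metric.ball x (D.r / 3))
    (fun x _ => Metric.ball_mem_nhds x (by linarith))
  set a : X → X → ℝ := fun j x => max 0 (D.r / 3 - dist x j) with ha
  have ha0 : ∀ j x, 0 ≤ a j x := fun j x => le_max_left _ _
  have hac : ∀ j, Continuous (a j) := fun j => by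
    simp only [ha]; fun_prop
  set A : X → ℝ := fun x => ∑ j ∈ T, a j x with hA
  have hApos : ∀ x, 0 < A x := by
    intro x
    have := hT (Set.mem_univ x)
    simp only [Set.mem_iUnion, Metric.mem_ball] at this
    obtain ⟨j, hj, hjx⟩ := this
    refine lt_of_lt_of_le ?_ (Finset.single_le_sum (f := fun j => a j x) (fun i _ => ha0 i x) hj)
    show 0 < max 0 (D.r / 3 - dist x j)
    rw [lt_max_iff]; right; linarith
  have hAc : Continuous A := by
    simp only [hA]; exact continuous_finsetSum _ (fun j _ => hac j)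
  refine ⟨fun y => (∑ j ∈ T, a j y.pt * (v (y.el * D.c y.pt j) : ℝ)) / A y.pt, ?_, ?_⟩
  · rw [continuous_iff_continuousAt]
    intro e
    have h1 : ContinuousAt (fun y : Cov D => (∑ j ∈ T, a j y.pt * (v (e.el * D.c e.pt j) : ℝ)) / A y.pt) e := by
      refine ContinuousAt.div ?_ ?_ (hApos _).ne'
      · refine Continuous.continuousAt ?_
        refine continuous_finsetSum _ (fun j _ => ?_)
        exact ((hac j).comp Cov.continuous_pt).mul continuous_const
      · exact (hAc.comp Cov.continuous_pt).continuousAt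
    refine h1.congr ?_
    have hball : Metric.ball e (D.r / 3) ∈ 𝓝 e := Metric.ball_mem_nhds _ (by linarith)
    filter_upwards [hball] with y hy
    rw [Metric.mem_ball, dist_comm] at hy
    have hy1 : dist e y < D.r := by linarith
    have hy2 := Cov.pt_dist hy1
    congr 1
    refine Finset.sum_congr rfl fun j _ => ?_
    by_cases hj : dist y.pt j < D.r / 3
    · have hcl := (Cov.cl_iff.2 hy1).2
      have hd : dist e.pt j < D.r := by
        have := dist_triangle e.pt y.pt j
        linarith
      rw [hcl, mul_assoc, D.coc _ _ _ (by linarith) (by linarith) hd]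
    · have : a j y.pt = 0 := by
        simp only [ha]
        rw [max_eq_left]; linarith
      rw [this]; simp
  · intro s y
    show (∑ j ∈ T, a j y.pt * (v ((s : G) * y.el * D.c y.pt j) : ℝ)) / A y.pt = _
    have h1 : ∀ j, v ((s : G) * y.el * D.c y.pt j) = Multiplicative.toAdd (u s) + v (y.el * D.c y.pt j) := by
      intro j
      rw [mul_assoc, hv]
    simp only [h1]
    push_cast
    simp only [mul_add, Finset.sum_add_distrib, ← Finset.sum_mul]
    rw [add_div, add_comm, mul_comm, mul_div_assoc]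
    change _ + _ * (A y.pt / A y.pt) = _
    rw [div_self (hApos _).ne', mul_one]

theorem circle_exp_sum {ι : Type*} (s : Finset ι) (f : ι → ℝ) :
    Circle.exp (∑ i ∈ s, f i) = ∏ i ∈ s, Circle.exp (f i) := by
  induction s using Finset.induction_on with
  | empty => simp [Circle.exp_zero]
  | insert a s ha ih => rw [Finset.sum_insert ha, Finset.prod_insert ha, Circle.exp_add, ih]

/-- the finite rank hypothesis of the frozen statement -/
def FinRank (X : Type) [TopologicalSpace X] (m : ℕ) : Prop :=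
  ∀ g : Fin (m + 1) → C(X, Circle), ∃ k : Fin (m + 1) → ℤ, k ≠ 0 ∧
        ∃ f : C(X, ℝ), ∀ x : X,
          (((∏ i, (g i x) ^ (k i) : Circle)) : ℂ) = Complex.exp ((f x : ℂ) * Complex.I)

theorem rank_upper [CompactSpace X] [PreconnectedSpace X] {m : ℕ} (hm : FinRank X m)
    (e : Cov D) {δ : ℝ} (hδ : 0 < δ) (hQ : QC (chainComp δ e)) {B : Type}
    (φ : FreeGroup B ≃* stab e δ) (b : Fin (m + 1) → B) : ¬ Function.Injective b := by
  intro hb
  set u : Fin (m + 1) → (stab e δ →* Multiplicative ℤ) := fun i =>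
    (FreeGroup.lift (fun b' => if b' = b i then Multiplicative.ofAdd (1 : ℤ) else 1)).comp
      φ.symm.toMonoidHom with hu
  have hu1 : ∀ i j, Multiplicative.toAdd (u i (φ (FreeGroup.of (b j)))) = if j = i then (1 : ℤ) else 0 := by
    intro i j
    simp only [hu, MonoidHom.comp_apply, MulEquiv.coe_toMonoidHom, MulEquiv.symm_apply_apply,
      FreeGroup.lift_apply_of]
    by_cases hij : j = i
    · subst hij; simp
    · rw [if_neg hij, if_neg (fun h => hij (hb h))]; rfl
  choose F hFc hF using fun i => equivariant_fun (D := D) (stab e δ) (u i)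
  have hdes : ∀ i, ∃ g : C(X, Circle), ∀ y ∈ chainComp δ e, g y.pt = Circle.exp (2 * Real.pi * F i y) := by
    intro i
    refine descend e hδ (fun y => Circle.exp (2 * Real.pi * F i y)) ?_ ?_
    · exact Circle.exp.continuous.comp (continuous_const.mul (hFc i))
    · intro s hs y _
      show Circle.exp (2 * Real.pi * F i (s • y)) = _
      have := hF i ⟨s, hs⟩ y
      rw [show (s • y : Cov D) = ((⟨s, hs⟩ : stab e δ) : G) • y from rfl, this, mul_add]
      rw [show 2 * Real.pi * F i y + 2 * Real.pi * ((Multiplicative.toAdd (u i ⟨s, hs⟩) : ℤ) : ℝ)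
        = 2 * Real.pi * F i y + (Multiplicative.toAdd (u i ⟨s, hs⟩) : ℤ) * (2 * Real.pi) by ring]
      rw [Circle.exp_add, Circle.exp_int_mul_two_pi, mul_one]
  choose g hg using hdes
  obtain ⟨k, hk0, f, hf⟩ := hm g
  -- the integer valued function
  set N : Cov D → ℝ := fun y => (∑ i, (k i : ℝ) * F i y) - f y.pt / (2 * Real.pi) with hN
  have hNc : Continuous N := by
    refine Continuous.sub ?_ ?_
    · exact continuous_finsetSum _ (fun i _ => continuous_const.mul (hFc i))
    · exact (f.continuous.comp Cov.continuous_pt).div_const _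
  have hNint : ∀ y ∈ chainComp δ e, ∃ t : ℤ, N y = t := by
    intro y hy
    have h1 := hf y.pt
    have h2 : (∏ i, (g i y.pt) ^ (k i) : Circle) = Circle.exp (2 * Real.pi * ∑ i, (k i : ℝ) * F i y) := by
      have : ∀ i, (g i y.pt) ^ (k i) = Circle.exp (2 * Real.pi * ((k i : ℝ) * F i y)) := by
        intro i
        rw [hg i y hy, ← Circle.exp_intCast_mul]
        congr 1; ring
      simp only [this]
      rw [Finset.mul_sum, circle_exp_sum]
    rw [h2, Circle.coe_exp, Complex.exp_eq_exp_iff_exists_int] at h1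
    obtain ⟨t, ht⟩ := h1
    refine ⟨t, ?_⟩
    have hpi : (2 * Real.pi) ≠ 0 := by positivity
    have h3 : (2 * Real.pi * ∑ i, (k i : ℝ) * F i y) = f y.pt + t * (2 * Real.pi) := by
      have h4 : ((2 * Real.pi * ∑ i, (k i : ℝ) * F i y : ℝ) : ℂ) * Complex.I =
          ((f y.pt + t * (2 * Real.pi) : ℝ) : ℂ) * Complex.I := by
        rw [ht]; push_cast; ring
      have h5 := mul_right_cancel₀ Complex.I_ne_zero h4
      exact_mod_cast h5
    show (∑ i, (k i : ℝ) * F i y) - f y.pt / (2 * Real.pi) = t
    field_simp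
    linarith
  have hOc := isClopen_chainComp hδ e
  obtain ⟨T, hT⟩ := hQ ℤ (fun t => {y | y ∈ chainComp δ e ∧ N y = t}) (fun t => by
    constructor
    · exact hOc.1.inter (isClosed_singleton.preimage hNc)
    · have : {y | y ∈ chainComp δ e ∧ N y = t} = chainComp δ e ∩ N ⁻¹' (Set.Ioo ((t : ℝ) - 1/2) (t + 1/2)) := by
        ext y
        simp only [Set.mem_ofPred_eq, Set.mem_inter_iff, Set.mem_preimage, Set.mem_Ioo]
        constructor
        · rintro ⟨h1, h2⟩
          exact ⟨h1, by rw [h2]; constructor <;> linarith⟩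
        · rintro ⟨h1, h2, h3⟩
          obtain ⟨s, hs⟩ := hNint y h1
          rw [hs] at h2 h3 ⊢
          refine ⟨h1, ?_⟩
          have h4 : (t : ℝ) < s + 1 := by linarith
          have h5 : (s : ℝ) < t + 1 := by linarith
          have h6 : t < s + 1 := by exact_mod_cast h4
          have h7 : s < t + 1 := by exact_mod_cast h5
          have : s = t := by omega
          rw [this]
      rw [this]
      exact hOc.2.inter (isOpen_Ioo.preimage hNc)) (by
    intro y hy
    obtain ⟨t, ht⟩ := hNint y hy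
    exact Set.mem_iUnion.2 ⟨t, hy, ht⟩)
  have hNbd : ∃ M : ℝ, ∀ y ∈ chainComp δ e, |N y| ≤ M := by
    refine ⟨∑ t ∈ T, |(t : ℝ)|, fun y hy => ?_⟩
    have := hT hy
    simp only [Set.mem_iUnion] at this
    obtain ⟨t, ht, -, h2⟩ := this
    rw [h2]
    exact Finset.single_le_sum (f := fun t : ℤ => |(t : ℝ)|) (fun _ _ => abs_nonneg _) ht
  obtain ⟨M, hM⟩ := hNbd
  apply hk0
  funext j
  have hstep : ∀ n : ℕ, (((φ (FreeGroup.of (b j))) ^ n : stab e δ) : G) • e ∈ chainComp δ e ∧
      N ((((φ (FreeGroup.of (b j))) ^ n : stab e δ) : G) • e) = N e + n * k j := by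
    intro n
    induction n with
    | zero => simp [chainComp_self]
    | succ n ih =>
      obtain ⟨h1, h2⟩ := ih
      have h3 : (((φ (FreeGroup.of (b j))) ^ (n + 1) : stab e δ) : G) • e =
          ((φ (FreeGroup.of (b j)) : stab e δ) : G) • ((((φ (FreeGroup.of (b j))) ^ n : stab e δ) : G) • e) := by
        rw [← mul_smul, pow_succ', Subgroup.coe_mul]
      refine ⟨?_, ?_⟩
      · rw [h3]; exact stab_smul_mem (SetLike.coe_mem _) h1
      · rw [h3]
        show (∑ i, (k i : ℝ) * F i _) - f _ / (2 * Real.pi) = _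
        simp only [hF, Cov.smul_pt, hu1, mul_add, Finset.sum_add_distrib]
        have h4 : N ((((φ (FreeGroup.of (b j))) ^ n : stab e δ) : G) • e) =
          (∑ i, (k i : ℝ) * F i ((((φ (FreeGroup.of (b j))) ^ n : stab e δ) : G) • e)) - f e.pt / (2 * Real.pi) := rfl
        rw [h2] at h4
        simp only [hF] at h4
        have h5 : ∑ i, (k i : ℝ) * ((if j = i then (1 : ℤ) else 0 : ℤ) : ℝ) = k j := by
          simp
        rw [h5]
        push_cast
        simp only [mul_add, Finset.sum_add_distrib] at h4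
        linarith
  by_contra hkj
  have hkj' : (1 : ℝ) ≤ |(k j : ℝ)| := by
    have : (1 : ℤ) ≤ |k j| := Int.one_le_abs hkj
    exact_mod_cast this
  obtain ⟨n, hn⟩ := exists_nat_gt (2 * M)
  have h1 := (hstep n).2
  have h2 := hM _ (hstep n).1
  have h3 := hM _ (chainComp_self δ e)
  rw [h1] at h2
  have h4 : |(n : ℝ) * k j| ≤ 2 * M := by
    have : (n : ℝ) * k j = (N e + n * k j) - N e := by ring
    rw [this]
    calc _ ≤ |N e + n * k j| + |N e| := abs_sub _ _
      _ ≤ 2 * M := by linarith
  rw [abs_mul, Nat.abs_cast] at h4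
  have h5 : (n : ℝ) ≤ n * |(k j : ℝ)| := by
    have : (0 : ℝ) ≤ n := Nat.cast_nonneg n
    nlinarith
  linarith

end Pool.Agent.Work.MP_7dea6f_gt
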