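import Mathlib
import Pool.Agent.Work.MP_7dea6f_gt.Nerve
import Pool.Agent.Work.MP_7dea6f_gt.RankUp

/-! Lower bound for the rank of the stabilizer. -/

namespace Pool.Agent.Work.MP_7dea6f_gt

open Classical Filter Topology

variable {X : Type} [MetricSpace X]

/-- `𝒰` is fine with respect to the circle valued map `g` -/
def FineFor (𝒰 : Cover2 X) (g : C(X, Circle)) : Prop :=
  ∀ i, ∀ x ∈ 𝒰.U i, ∀ y ∈ 𝒰.U i, dist (g x) (g y) < 1

/-- base point in a member of the cover -/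
noncomputable def bp [Nonempty X] (𝒰 : Cover2 X) (i : Fin 𝒰.n) : X :=
  if h : (𝒰.U i).Nonempty then h.some else Classical.arbitrary X

theorem bp_mem [Nonempty X] (𝒰 : Cover2 X) {i : Fin 𝒰.n} {x : X} (hx : x ∈ 𝒰.U i) :
    bp 𝒰 i ∈ 𝒰.U i := by
  have h : (𝒰.U i).Nonempty := ⟨x, hx⟩
  rw [bp, dif_pos h]; exact h.some_mem

/-- local lift of `g` -/
noncomputable def th [Nonempty X] (𝒰 : Cover2 X) (g : C(X, Circle)) (i : Fin 𝒰.n) (x : X) : ℝ :=
  Complex.arg (g (bp 𝒰 i)) + Complex.arg ((g x / g (bp 𝒰 i) : Circle) : ℂ)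

theorem exp_th [Nonempty X] (𝒰 : Cover2 X) (g : C(X, Circle)) (i : Fin 𝒰.n) (x : X) :
    Circle.exp (th 𝒰 g i x) = g x := by
  rw [th, Circle.exp_add, Circle.exp_arg, Circle.exp_arg]
  simp

theorem re_pos_of_dist {a b : Circle} (h : dist a b < 1) : 0 < ((a / b : Circle) : ℂ).re := by
  have h1 : ‖((a / b : Circle) : ℂ) - 1‖ < 1 := by
    have hb : (b : ℂ) ≠ 0 := Circle.coe_ne_zero b
    have : ((a / b : Circle) : ℂ) - 1 = ((a : ℂ) - b) / b := by
      rw [Circle.coe_div]; field_simp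
    rw [this, norm_div, Circle.norm_coe, div_one]
    have h2 : dist (a : ℂ) (b : ℂ) < 1 := h
    rwa [dist_eq_norm] at h2
  have h2 := Complex.abs_re_le_norm (((a / b : Circle) : ℂ) - 1)
  rw [Complex.sub_re, Complex.one_re] at h2
  have h3 := abs_lt.1 (lt_of_le_of_lt h2 h1)
  linarith [h3.1]

theorem abs_arg_of_dist {a b : Circle} (h : dist a b < 1) :
    |Complex.arg ((a / b : Circle) : ℂ)| < Real.pi / 2 :=
  Complex.abs_arg_lt_pi_div_two_iff.2 (Or.inl (re_pos_of_dist h))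

theorem th_close [Nonempty X] {𝒰 : Cover2 X} {g : C(X, Circle)} (hf : FineFor 𝒰 g)
    {i : Fin 𝒰.n} {x y : X} (hx : x ∈ 𝒰.U i) (hy : y ∈ 𝒰.U i) :
    |th 𝒰 g i x - th 𝒰 g i y| < Real.pi := by
  have h1 := abs_arg_of_dist (hf i x hx _ (bp_mem 𝒰 hx))
  have h2 := abs_arg_of_dist (hf i y hy _ (bp_mem 𝒰 hx))
  have : th 𝒰 g i x - th 𝒰 g i y = Complex.arg ((g x / g (bp 𝒰 i) : Circle) : ℂ) -
      Complex.arg ((g y / g (bp 𝒰 i) : Circle) : ℂ) := by simp only [th]; ring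
  rw [this]
  refine lt_of_le_of_lt (abs_sub _ _) ?_
  linarith

theorem th_continuousAt [Nonempty X] {𝒰 : Cover2 X} {g : C(X, Circle)} (hf : FineFor 𝒰 g)
    {i : Fin 𝒰.n} {x : X} (hx : x ∈ 𝒰.U i) : ContinuousAt (th 𝒰 g i) x := by
  have h1 := re_pos_of_dist (hf i x hx _ (bp_mem 𝒰 hx))
  have h2 : ContinuousAt Complex.arg ((g x / g (bp 𝒰 i) : Circle) : ℂ) :=
    Complex.continuousAt_arg (Or.inl h1)
  have h3 : ContinuousAt (fun x => ((g x / g (bp 𝒰 i) : Circle) : ℂ)) x := by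
    refine Continuous.continuousAt ?_
    exact continuous_subtype_val.comp (g.continuous.div' continuous_const)
  exact continuousAt_const.add (ContinuousAt.comp (f := fun x => ((g x / g (bp 𝒰 i) : Circle) : ℂ)) (g := Complex.arg) h2 h3)

/-- the transition integers -/
theorem exists_nu [Nonempty X] {𝒰 : Cover2 X} {g : C(X, Circle)} (hf : FineFor 𝒰 g)
    (i j : Fin 𝒰.n) : ∃ m : ℤ, ∀ x, x ∈ 𝒰.U i → x ∈ 𝒰.U j →
      th 𝒰 g i x = th 𝒰 g j x + m * (2 * Real.pi) := by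
  by_cases h : (𝒰.U i ∩ 𝒰.U j).Nonempty
  · obtain ⟨z, hz1, hz2⟩ := h
    have hz : Circle.exp (th 𝒰 g i z) = Circle.exp (th 𝒰 g j z) := by rw [exp_th, exp_th]
    obtain ⟨m, hm⟩ := Circle.exp_eq_exp.1 hz
    refine ⟨m, fun x hx1 hx2 => ?_⟩
    have hx : Circle.exp (th 𝒰 g i x) = Circle.exp (th 𝒰 g j x) := by rw [exp_th, exp_th]
    obtain ⟨m', hm'⟩ := Circle.exp_eq_exp.1 hx
    have h1 := abs_lt.1 (th_close hf hz1 hx1)
    have h2 := abs_lt.1 (th_close hf hz2 hx2)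
    have hpi := Real.pi_pos
    have h3 : ((m : ℝ) - m') * (2 * Real.pi) < 1 * (2 * Real.pi) := by
      have : ((m : ℝ) - m') * (2 * Real.pi) = (th 𝒰 g i z - th 𝒰 g i x) - (th 𝒰 g j z - th 𝒰 g j x) := by
        rw [hm, hm']; ring
      rw [this]; linarith [h1.2, h2.1]
    have h4 : (-1) * (2 * Real.pi) < ((m : ℝ) - m') * (2 * Real.pi) := by
      have : ((m : ℝ) - m') * (2 * Real.pi) = (th 𝒰 g i z - th 𝒰 g i x) - (th 𝒰 g j z - th 𝒰 g j x) := by
        rw [hm, hm']; ring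
      rw [this]; linarith [h1.1, h2.2]
    have h5 : ((m : ℝ) - m') < 1 := lt_of_mul_lt_mul_right h3 (by positivity)
    have h6 : (-1 : ℝ) < ((m : ℝ) - m') := lt_of_mul_lt_mul_right h4 (by positivity)
    have h7 : m - m' < 1 := by exact_mod_cast h5
    have h8 : -1 < m - m' := by exact_mod_cast h6
    have : m = m' := by omega
    rw [this]; exact hm'
  · exact ⟨0, fun x hx1 hx2 => absurd ⟨x, hx1, hx2⟩ h⟩

/-- circle valued maps lift to equivariant real functions on the covering -/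
theorem exists_lift [CompactSpace X] [Nonempty X] {𝒰 : Cover2 X} {g : C(X, Circle)}
    (hf : FineFor 𝒰 g) : ∃ (u : GG 𝒰.n →* Multiplicative ℤ) (F : Cov 𝒰.coc → ℝ), Continuous F ∧
      (∀ (k : GG 𝒰.n) y, F (k • y) = F y + (Multiplicative.toAdd (u k) : ℤ)) ∧
      (∀ y, Circle.exp (2 * Real.pi * F y) = g y.pt) := by
  choose ν hν using exists_nu hf
  set u : GG 𝒰.n →* Multiplicative ℤ :=
    FreeGroup.lift (fun p : Fin 𝒰.n × Fin 𝒰.n => Multiplicative.ofAdd (ν p.1 p.2)) with hu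
  have hpi := Real.pi_pos
  have hgen : ∀ i j x, x ∈ 𝒰.U i → x ∈ 𝒰.U j →
      th 𝒰 g i x / (2 * Real.pi) = th 𝒰 g j x / (2 * Real.pi) + (Multiplicative.toAdd (u (gen i j)) : ℤ) := by
    intro i j x hi hj
    rcases lt_trichotomy i j with h | h | h
    · have : u (gen i j) = Multiplicative.ofAdd (ν i j) := by
        simp [hu, gen, h]
      rw [this, toAdd_ofAdd, hν i j x hi hj]
      field_simp
    · subst h
      rw [gen_self, map_one]; simp
    · have : u (gen i j) = Multiplicative.ofAdd (-(ν j i)) := by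
        simp [hu, gen, h, h.not_gt]
      rw [this, toAdd_ofAdd, hν j i x hj hi]
      push_cast
      field_simp
      ring
  set F : Cov 𝒰.coc → ℝ := fun y => th 𝒰 g (𝒰.io y.pt) y.pt / (2 * Real.pi) +
    (Multiplicative.toAdd (u y.el) : ℤ) with hF
  have hchart : ∀ w, ∀ y ∈ 𝒰.sheet w, F y = th 𝒰 g w.1 y.pt / (2 * Real.pi) +
      (Multiplicative.toAdd (u w.2) : ℤ) := by
    rintro w y ⟨h1, h2⟩
    simp only [hF]
    rw [hgen _ w.1 y.pt (𝒰.io_mem _) h1, ← h2, map_mul, toAdd_mul]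
    push_cast; ring
  refine ⟨u, F, ?_, ?_, ?_⟩
  · rw [continuous_iff_continuousAt]
    intro e
    obtain ⟨w, hw⟩ := 𝒰.sheet_cover e
    have h1 : ContinuousAt (fun y : Cov 𝒰.coc => th 𝒰 g w.1 y.pt / (2 * Real.pi) +
      ((Multiplicative.toAdd (u w.2) : ℤ) : ℝ)) e := by
      refine ContinuousAt.add (ContinuousAt.div_const ?_ _) continuousAt_const
      exact ContinuousAt.comp (f := Cov.pt) (g := th 𝒰 g w.1) (th_continuousAt hf hw.1)
        Cov.continuous_pt.continuousAt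
    refine h1.congr ?_
    filter_upwards [(𝒰.sheet_open w).mem_nhds hw] with y hy
    exact (hchart w y hy).symm
  · intro k y
    simp only [hF, Cov.smul_pt, Cov.smul_el, map_mul, toAdd_mul]
    push_cast; ring
  · intro y
    simp only [hF]
    rw [mul_add, show 2 * Real.pi * (th 𝒰 g (𝒰.io y.pt) y.pt / (2 * Real.pi)) = th 𝒰 g (𝒰.io y.pt) y.pt by
      field_simp, Circle.exp_add, Circle.exp_two_pi_mul_int, mul_one, exp_th]

/-- independence of two classes -/
def Indep (g₁ g₂ : C(X, Circle)) : Prop :=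
  ∀ a b : ℤ, (a ≠ 0 ∨ b ≠ 0) → ¬ ∃ f : C(X, ℝ), ∀ x : X,
          ((((g₁ x) ^ a * (g₂ x) ^ b : Circle)) : ℂ) = Complex.exp ((f x : ℂ) * Complex.I)

theorem rank_lower [CompactSpace X] [PreconnectedSpace X] [Nonempty X] {g₁ g₂ : C(X, Circle)}
    (hi : Indep g₁ g₂) {𝒰 : Cover2 X} (hf₁ : FineFor 𝒰 g₁) (hf₂ : FineFor 𝒰 g₂)
    (e : Cov 𝒰.coc) {δ : ℝ} (hδ : 0 < δ) {B : Type} (φ : FreeGroup B ≃* stab e δ) :
    Nontrivial B := by
  obtain ⟨u₁, F₁, hc₁, hk₁, he₁⟩ := exists_lift hf₁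
  obtain ⟨u₂, F₂, hc₂, hk₂, he₂⟩ := exists_lift hf₂
  have key : ∀ a b : ℤ, (∀ k ∈ stab e δ, a * Multiplicative.toAdd (u₁ k) + b * Multiplicative.toAdd (u₂ k) = 0) →
      a = 0 ∧ b = 0 := by
    intro a b hab
    by_contra hne
    have hne' : a ≠ 0 ∨ b ≠ 0 := by
      by_contra h
      push Not at h
      exact hne h
    apply hi a b hne'
    obtain ⟨f, hf⟩ := descend e hδ (fun y => 2 * Real.pi * (a * F₁ y + b * F₂ y))
      (by fun_prop) (by
        intro s hs y _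
        show 2 * Real.pi * (a * F₁ (s • y) + b * F₂ (s • y)) = 2 * Real.pi * (a * F₁ y + b * F₂ y)
        rw [hk₁, hk₂]
        have := hab s hs
        have h' : (a : ℝ) * ((Multiplicative.toAdd (u₁ s) : ℤ) : ℝ) + b * ((Multiplicative.toAdd (u₂ s) : ℤ) : ℝ) = 0 := by
          exact_mod_cast this
        congr 1
        linear_combination h')
    refine ⟨f, fun x => ?_⟩
    obtain ⟨y, hy, rfl⟩ := exists_above e hδ x
    rw [hf y hy, ← he₁ y, ← he₂ y, ← Circle.exp_intCast_mul, ← Circle.exp_intCast_mul,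
      ← Circle.exp_add, Circle.coe_exp]
    congr 2
    push_cast; ring
  by_contra hB
  rw [not_nontrivial_iff_subsingleton] at hB
  set v₁ : FreeGroup B →* Multiplicative ℤ := (u₁.comp (stab e δ).subtype).comp φ.toMonoidHom
  set v₂ : FreeGroup B →* Multiplicative ℤ := (u₂.comp (stab e δ).subtype).comp φ.toMonoidHom
  have hv₁ : ∀ k : stab e δ, u₁ k = v₁ (φ.symm k) := by intro k; simp [v₁]
  have hv₂ : ∀ k : stab e δ, u₂ k = v₂ (φ.symm k) := by intro k; simp [v₂]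
  rcases isEmpty_or_nonempty B with hE | ⟨⟨b⟩⟩
  · have h1 : ∀ x : FreeGroup B, x = 1 := fun x => Subsingleton.elim _ _
    have := key 1 0 (by
      intro k hk
      rw [show (k : GG 𝒰.n) = ((⟨k, hk⟩ : stab e δ) : GG 𝒰.n) from rfl, hv₁, hv₂, h1 (φ.symm _)]
      simp)
    exact one_ne_zero this.1
  · set p := Multiplicative.toAdd (v₁ (FreeGroup.of b))
    set q := Multiplicative.toAdd (v₂ (FreeGroup.of b))
    have hrel : ∀ a c : ℤ, a * p + c * q = 0 → ∀ x : FreeGroup B,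
        a * Multiplicative.toAdd (v₁ x) + c * Multiplicative.toAdd (v₂ x) = 0 := by
      intro a c hac x
      induction x using FreeGroup.induction_on with
      | C1 => simp
      | of b' => rw [Subsingleton.elim b' b]; exact hac
      | inv_of b' ih =>
        rw [map_inv v₁, map_inv v₂, toAdd_inv, toAdd_inv]; linarith
      | mul x y hx hy =>
        rw [map_mul v₁, map_mul v₂, toAdd_mul, toAdd_mul]; linarith
    have hrel' : ∀ a c : ℤ, a * p + c * q = 0 → a = 0 ∧ c = 0 := by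
      intro a c hac
      refine key a c (fun k hk => ?_)
      rw [show (k : GG 𝒰.n) = ((⟨k, hk⟩ : stab e δ) : GG 𝒰.n) from rfl, hv₁, hv₂]
      exact hrel a c hac _
    have h1 := hrel' q (-p) (by ring)
    have h2 := hrel' 1 0 (by rw [show p = 0 by linarith [h1.2]]; ring)
    exact one_ne_zero h2.1

end Pool.Agent.Work.MP_7dea6f_gt
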