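import Mathlib

set_option autoImplicit false

namespace Pool.Agent.Work.MP_7dea6f_gt

open Multiplicative

section Ext

variable {S : Type*} [Group S] {B B' : Type*}

/-- The homomorphism to the rationals with prescribed values on a basis. -/
noncomputable def homOf (e : FreeGroup B ≃* S) (f : B → ℚ) : S →* Multiplicative ℚ :=
  (FreeGroup.lift (fun b => ofAdd (f b))).comp e.symm.toMonoidHom

lemma homOf_gen (e : FreeGroup B ≃* S) (f : B → ℚ) (b : B) :
    homOf e f (e (FreeGroup.of b)) = ofAdd (f b) := by
  simp [homOf]

lemma homOf_add (e : FreeGroup B ≃* S) (f g : B → ℚ) (s : S) :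
    toAdd (homOf e (f + g) s) = toAdd (homOf e f s) + toAdd (homOf e g s) := by
  have h : (homOf e (f + g)).comp e.toMonoidHom =
      ((homOf e f) * (homOf e g)).comp e.toMonoidHom := by
    apply FreeGroup.ext_hom
    intro b
    simp [homOf]
  have h2 := DFunLike.congr_fun h (e.symm s)
  simp only [MonoidHom.comp_apply, MulEquiv.coe_toMonoidHom, MulEquiv.apply_symm_apply,
    MonoidHom.mul_apply] at h2
  rw [h2, toAdd_mul]

/-- Multiplication by a rational as an endomorphism. -/
def mulQ (c : ℚ) : Multiplicative ℚ →* Multiplicative ℚ :=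
  AddMonoidHom.toMultiplicative (AddMonoidHom.mulLeft c)

lemma homOf_smul (e : FreeGroup B ≃* S) (c : ℚ) (f : B → ℚ) (s : S) :
    toAdd (homOf e (c • f) s) = c * toAdd (homOf e f s) := by
  have h : (homOf e (c • f)).comp e.toMonoidHom =
      ((mulQ c).comp (homOf e f)).comp e.toMonoidHom := by
    apply FreeGroup.ext_hom
    intro b
    simp [homOf, mulQ]
  have h2 := DFunLike.congr_fun h (e.symm s)
  simp only [MonoidHom.comp_apply, MulEquiv.coe_toMonoidHom, MulEquiv.apply_symm_apply] at h2
  rw [h2]
  rfl

/-- Restriction of homomorphisms to the subgroup, in coordinates. -/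
noncomputable def resMap (e : FreeGroup B ≃* S) (S' : Subgroup S) (e' : FreeGroup B' ≃* S') :
    (B → ℚ) →ₗ[ℚ] (B' → ℚ) where
  toFun f b' := toAdd (homOf e f (e' (FreeGroup.of b') : S))
  map_add' f g := by
    funext b'
    exact homOf_add e f g _
  map_smul' c f := by
    funext b'
    exact homOf_smul e c f _

lemma eq_on_of_eq_gen (S' : Subgroup S) (e' : FreeGroup B' ≃* S')
    (u v : S' →* Multiplicative ℚ) (h : ∀ b', u (e' (FreeGroup.of b')) = v (e' (FreeGroup.of b'))) :
    u = v := by
  have h1 : u.comp e'.toMonoidHom = v.comp e'.toMonoidHom := by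
    apply FreeGroup.ext_hom
    intro b'
    exact h b'
  ext s
  have h2 := DFunLike.congr_fun h1 (e'.symm s)
  simp only [MonoidHom.comp_apply, MulEquiv.coe_toMonoidHom, MulEquiv.apply_symm_apply] at h2
  rw [h2]

lemma resMap_injective (e : FreeGroup B ≃* S) (S' : Subgroup S) [S'.FiniteIndex]
    (e' : FreeGroup B' ≃* S') : Function.Injective (resMap e S' e') := by
  rw [← LinearMap.ker_eq_bot, LinearMap.ker_eq_bot']
  intro f hf
  have h1 : (homOf e f).comp S'.subtype = 1 := by
    apply eq_on_of_eq_gen S' e'
    intro b'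
    have := congrFun hf b'
    simp only [MonoidHom.comp_apply, MonoidHom.one_apply]
    change toAdd (homOf e f (e' (FreeGroup.of b') : S)) = 0 at this
    rw [← ofAdd_zero, ← this]
    rfl
  funext b
  obtain ⟨m, hm, hmem⟩ := Subgroup.exists_pow_mem_of_index_ne_zero
    (H := S') Subgroup.FiniteIndex.index_ne_zero (e (FreeGroup.of b))
  have h2 := DFunLike.congr_fun h1 ⟨_, hmem.2⟩
  simp only [MonoidHom.comp_apply, Subgroup.coe_subtype, MonoidHom.one_apply, map_pow] at h2
  rw [homOf_gen, ← ofAdd_nsmul] at h2
  have h3 : m • f b = 0 := by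
    have := congrArg toAdd h2
    simpa using this
  rw [nsmul_eq_mul] at h3
  rcases mul_eq_zero.1 h3 with h4 | h4
  · exfalso
    have : m = 0 := by exact_mod_cast h4
    omega
  · exact h4

/-- Every homomorphism on `S'` extends to `S`. -/
lemma exists_extension [Fintype B] [Fintype B'] (e : FreeGroup B ≃* S) (S' : Subgroup S)
    [S'.FiniteIndex] (e' : FreeGroup B' ≃* S') (h : Fintype.card B' ≤ Fintype.card B)
    (u : S' →* Multiplicative ℚ) : ∃ v : S →* Multiplicative ℚ, ∀ s : S', v s = u s := by
  have hinj := resMap_injective e S' e'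
  have hcard : Fintype.card B = Fintype.card B' := by
    apply le_antisymm _ h
    have := LinearMap.finrank_le_finrank_of_injective hinj
    simpa using this
  have hsurj : Function.Surjective (resMap e S' e') := by
    rw [← LinearMap.injective_iff_surjective_of_finrank_eq_finrank]
    · exact hinj
    · simpa using hcard
  obtain ⟨f, hf⟩ := hsurj (fun b' => toAdd (u (e' (FreeGroup.of b'))))
  refine ⟨homOf e f, fun s => ?_⟩
  have h1 : (homOf e f).comp S'.subtype = u := by
    apply eq_on_of_eq_gen S' e'
    intro b'
    have := congrFun hf b'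
    change toAdd (homOf e f (e' (FreeGroup.of b') : S)) = toAdd (u (e' (FreeGroup.of b'))) at this
    exact toAdd.injective this
  exact DFunLike.congr_fun h1 s

end Ext

section Cocycle

variable {S : Type*} [Group S] {B B' : Type*}

/-- The action of `S` on functions on the coset space. -/
def shiftAut (S' : Subgroup S) : S →* MulAut (S ⧸ S' → Multiplicative ℚ) where
  toFun s :=
    { toFun := fun f w => f (s⁻¹ • w)
      invFun := fun f w => f (s • w)
      left_inv := fun f => by funext w; simp
      right_inv := fun f => by funext w; simp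
      map_mul' := fun f g => by funext w; rfl }
  map_one' := by
    ext f w
    simp
  map_mul' s t := by
    ext f w
    simp [mul_smul]

/-- A cocycle with prescribed values on the generators. -/
lemma exists_cocycle (e : FreeGroup B ≃* S) (S' : Subgroup S) (δ : B → S ⧸ S' → ℚ) :
    ∃ c : S → S ⧸ S' → ℚ, (∀ s t w, c (s * t) w = c s (t • w) + c t w) ∧
      ∀ b w, c (e (FreeGroup.of b)) w = δ b w := by
  classical
  let θ : FreeGroup B →* (S ⧸ S' → Multiplicative ℚ) ⋊[shiftAut S'] S :=
    FreeGroup.lift (fun b =>
      ⟨fun w => ofAdd (δ b ((e (FreeGroup.of b))⁻¹ • w)), e (FreeGroup.of b)⟩)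
  have hright : ∀ x, (θ x).right = e x := by
    intro x
    have : SemidirectProduct.rightHom.comp θ = e.toMonoidHom := by
      apply FreeGroup.ext_hom
      intro b
      simp [θ]
    exact DFunLike.congr_fun this x
  refine ⟨fun s w => toAdd ((θ (e.symm s)).left (s • w)), ?_, ?_⟩
  · intro s t w
    have h1 : (θ (e.symm (s * t))).left =
        (θ (e.symm s)).left * shiftAut S' s (θ (e.symm t)).left := by
      rw [map_mul, map_mul, SemidirectProduct.mul_left, hright, MulEquiv.apply_symm_apply]
    simp only [h1, Pi.mul_apply, toAdd_mul]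
    congr 1
    · rw [mul_smul]
    · change toAdd ((θ (e.symm t)).left (s⁻¹ • ((s * t) • w))) = _
      rw [mul_smul, inv_smul_smul]
  · intro b w
    simp [θ]

end Cocycle

/-- A subgroup of finite index in a free group of finite rank at least two whose rank is not
larger is the whole group. -/
theorem schreier_strict {S : Type*} [Group S] {B B' : Type*} [Fintype B] [Fintype B']
    (e : FreeGroup B ≃* S) (S' : Subgroup S) [S'.FiniteIndex] (e' : FreeGroup B' ≃* S')
    (hB : 2 ≤ Fintype.card B) (h : Fintype.card B' ≤ Fintype.card B) : S' = ⊤ := by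
  classical
  have : Finite (S ⧸ S') := inferInstance
  let _ : Fintype (S ⧸ S') := Fintype.ofFinite _
  set w0 : S ⧸ S' := QuotientGroup.mk (1 : S) with hw0
  have hstab : ∀ s : S, s ∈ S' ↔ s • w0 = w0 := by
    intro s
    rw [hw0, MulAction.Quotient.smul_coe, smul_eq_mul, mul_one, eq_comm, QuotientGroup.eq]
    simp
  have htrans : ∀ w : S ⧸ S', ∃ s : S, w = s • w0 := by
    intro w
    induction w using QuotientGroup.induction_on with
    | H s => exact ⟨s, by rw [hw0, MulAction.Quotient.smul_coe, smul_eq_mul, mul_one]⟩
  -- each generator `b' ≠ b` fixes every coset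
  have key : ∀ b b' : B, b' ≠ b → ∀ w1 : S ⧸ S', e (FreeGroup.of b') • w1 = w1 := by
    intro b b' hbb' w1
    obtain ⟨c, hc, hcgen⟩ := exists_cocycle e S' (fun b' w => if b' = b ∧ w = w1 then 1 else 0)
    -- the homomorphism on `S'`
    have hone : ∀ w, c 1 w = 0 := by
      intro w
      have := hc 1 1 w
      rw [mul_one, one_smul] at this
      linarith
    let u' : S' →* Multiplicative ℚ :=
      { toFun := fun s => ofAdd (c s w0)
        map_one' := by
          change ofAdd (c 1 w0) = 1
          rw [hone, ofAdd_zero]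
        map_mul' := fun s t => by
          change ofAdd (c (s * t) w0) = ofAdd (c s w0) * ofAdd (c t w0)
          rw [hc, (hstab t).1 t.2, ofAdd_add] }
    obtain ⟨u, hu⟩ := exists_extension e S' e' h u'
    have hu0 : ∀ s ∈ S', toAdd (u s) = c s w0 := by
      intro s hs
      have := hu ⟨s, hs⟩
      simp only at this
      rw [this]
      rfl
    -- the potential
    choose σ hσ using htrans
    set k : S ⧸ S' → ℚ := fun w => c (σ w) w0 - toAdd (u (σ w)) with hk
    have hkwd : ∀ s : S, c s w0 - toAdd (u s) = k (s • w0) := by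
      intro s
      have hmem : (σ (s • w0))⁻¹ * s ∈ S' := by
        rw [hstab, mul_smul]
        have := hσ (s • w0)
        rw [inv_smul_eq_iff]
        exact this
      have h1 := hu0 _ hmem
      have h2 : c (σ (s • w0) * ((σ (s • w0))⁻¹ * s)) w0 =
          c (σ (s • w0)) w0 + c ((σ (s • w0))⁻¹ * s) w0 := by
        rw [hc, (hstab _).1 hmem]
      rw [mul_inv_cancel_left] at h2
      rw [map_mul, map_inv, toAdd_mul, toAdd_inv] at h1
      simp only [hk]
      linarith
    have hcob : ∀ s w, c s w = toAdd (u s) + k (s • w) - k w := by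
      intro s w
      have h1 := hkwd (s * σ w)
      have h2 := hkwd (σ w)
      rw [hc, mul_smul, ← hσ w, map_mul, toAdd_mul] at h1
      rw [← hσ w] at h2
      linarith
    have hsum : ∀ s, ∑ w, c s w = Fintype.card (S ⧸ S') * toAdd (u s) := by
      intro s
      simp only [hcob]
      rw [Finset.sum_sub_distrib, Finset.sum_add_distrib]
      have : ∑ w, k (s • w) = ∑ w, k w :=
        Fintype.sum_equiv (MulAction.toPerm s) _ _ fun w => rfl
      rw [this, Finset.sum_const, Finset.card_univ, nsmul_eq_mul]
      ring
    have hn : (0 : ℚ) < Fintype.card (S ⧸ S') := by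
      exact_mod_cast Fintype.card_pos_iff.2 ⟨w0⟩
    have hub : 0 < toAdd (u (e (FreeGroup.of b))) := by
      have h1 := hsum (e (FreeGroup.of b))
      rw [Finset.sum_congr rfl fun w _ => hcgen b w] at h1
      have h2 : ∑ w : S ⧸ S', (if b = b ∧ w = w1 then (1 : ℚ) else 0) = 1 := by
        simp
      rw [h2] at h1
      by_contra hcon
      push Not at hcon
      nlinarith
    have hub' : toAdd (u (e (FreeGroup.of b'))) = 0 := by
      have h1 := hsum (e (FreeGroup.of b'))
      simp only [hcgen] at h1
      have h2 : ∑ w : S ⧸ S', (if b' = b ∧ w = w1 then (1 : ℚ) else 0) = 0 := by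
        simp [hbb']
      rw [h2] at h1
      rcases mul_eq_zero.1 h1.symm with h3 | h3
      · exact absurd h3 hn.ne'
      · exact h3
    -- the minimum of `k` is attained only at `w1`
    obtain ⟨wm, _, hwm⟩ := Finset.exists_min_image Finset.univ k ⟨w0, Finset.mem_univ _⟩
    have honly : ∀ w, (∀ w', k w ≤ k w') → w = w1 := by
      intro w hw
      by_contra hne
      have h1 := hcob (e (FreeGroup.of b)) w
      rw [hcgen, if_neg (by tauto)] at h1
      have h2 := hw (e (FreeGroup.of b) • w)
      linarith
    have hmin1 : ∀ w', k w1 ≤ k w' := by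
      have := honly wm fun w' => hwm w' (Finset.mem_univ _)
      rw [← this]
      exact fun w' => hwm w' (Finset.mem_univ _)
    apply honly
    intro w'
    have h1 := hcob (e (FreeGroup.of b')) w1
    rw [hcgen, if_neg (by tauto), hub'] at h1
    have := hmin1 w'
    linarith
  -- every generator acts trivially
  have hgen : ∀ b : B, ∀ w : S ⧸ S', e (FreeGroup.of b) • w = w := by
    intro b w
    have : Nontrivial B := Fintype.one_lt_card_iff_nontrivial.1 (by omega)
    obtain ⟨b2, hb2⟩ := exists_ne b
    exact key b2 b (Ne.symm hb2) w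
  have hall : ∀ x : FreeGroup B, e x • w0 = w0 := by
    intro x
    induction x using FreeGroup.induction_on with
    | C1 => rw [map_one, one_smul]
    | of b => exact hgen b w0
    | inv_of b ih => rw [map_inv, inv_smul_eq_iff]; exact ih.symm
    | mul x y hx hy => rw [map_mul, mul_smul, hy, hx]
  rw [eq_top_iff]
  intro s _
  rw [hstab]
  have := hall (e.symm s)
  rwa [MulEquiv.apply_symm_apply] at this

end Pool.Agent.Work.MP_7dea6f_gt
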