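import Mathlib
import Pool.Agent.Work.MP_7dea6f_gt.RankLow
import Pool.Agent.Work.MP_7dea6f_gt.Comp
import Pool.Agent.Work.MP_7dea6f_gt.Sch

/-! The component of the base point is a chain component, with free stabilizer. -/

namespace Pool.Agent.Work.MP_7dea6f_gt

open Classical Filter Topology

variable {X : Type} [MetricSpace X]

theorem stab_free [CompactSpace X] [PreconnectedSpace X] [Nonempty X] {m : ℕ} (hm : FinRank X m)
    {g₁ g₂ : C(X, Circle)} (hi : Indep g₁ g₂) {𝒰 : Cover2 X} (hf₁ : FineFor 𝒰 g₁)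
    (hf₂ : FineFor 𝒰 g₂) (e : Cov 𝒰.coc) {δ : ℝ} (hδ : 0 < δ) (hQ : QC (chainComp δ e)) :
    ∃ d : ℕ, 2 ≤ d ∧ d ≤ m ∧ Nonempty (FreeGroup (Fin d) ≃* stab e δ) := by
  have : IsFreeGroup (stab e δ) := subgroupIsFreeOfIsFree _
  set B : Type := IsFreeGroup.Generators (stab e δ) with hB
  let φ : FreeGroup B ≃* stab e δ := IsFreeGroup.mulEquiv (stab e δ)
  have hup := fun b => rank_upper hm e hδ hQ φ b
  have hfin : Finite B := by
    by_contra hinf
    rw [not_finite_iff_infinite] at hinf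
    have := hinf
    exact hup _ (((Fin.valEmbedding).trans (Infinite.natEmbedding B)).injective)
  have := Fintype.ofFinite B
  have hcard : Fintype.card B ≤ m := by
    by_contra h
    push Not at h
    have : Fintype.card (Fin (m + 1)) ≤ Fintype.card B := by simpa using h
    obtain ⟨f⟩ := Function.Embedding.nonempty_of_card_le this
    exact hup f f.injective
  have : Nontrivial B := rank_lower hi hf₁ hf₂ e hδ φ
  refine ⟨Fintype.card B, Fintype.one_lt_card, hcard, ⟨?_⟩⟩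
  exact (FreeGroup.freeGroupCongr (Fintype.equivFin B).symm).trans φ

theorem stable [CompactSpace X] [PreconnectedSpace X] [Nonempty X] {m : ℕ} (hm : FinRank X m)
    {g₁ g₂ : C(X, Circle)} (hi : Indep g₁ g₂) {𝒰 : Cover2 X} (hf₁ : FineFor 𝒰 g₁)
    (hf₂ : FineFor 𝒰 g₂) (hUH : UH (Cov 𝒰.coc)) (e : Cov 𝒰.coc) :
    ∃ δ > 0, chainComp δ e = connectedComponent e ∧ ∃ d : ℕ, 2 ≤ d ∧ d ≤ m ∧
      Nonempty (FreeGroup (Fin d) ≃* stab e δ) := by
  obtain ⟨δ₀, hδ₀, hQ₀⟩ := chainComp_compact hUH e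
  have hQ : ∀ δ > 0, δ ≤ δ₀ → QC (chainComp δ e) := fun δ h1 h2 ι O => hQ₀ δ h1 h2 ι O
  set P : ℕ → Prop := fun d => ∃ δ > 0, δ ≤ δ₀ ∧ Nonempty (FreeGroup (Fin d) ≃* stab e δ) with hP
  -- all ranks are bounded
  have hbd : ∀ d, P d → d ≤ m := by
    rintro d ⟨δ, h1, h2, ⟨φ⟩⟩
    by_contra h
    push Not at h
    have : Fintype.card (Fin (m + 1)) ≤ Fintype.card (Fin d) := by simpa using h
    obtain ⟨f⟩ := Function.Embedding.nonempty_of_card_le this
    exact rank_upper hm e h1 (hQ δ h1 h2) φ f f.injective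
  have hex : ∃ d, P d := by
    obtain ⟨d, -, -, h⟩ := stab_free hm hi hf₁ hf₂ e hδ₀ (hQ _ hδ₀ le_rfl)
    exact ⟨d, δ₀, hδ₀, le_rfl, h⟩
  obtain ⟨d, hd, hmax⟩ : ∃ d, P d ∧ ∀ d', P d' → d' ≤ d := by
    have hfin : Set.Finite {d | P d} := (Set.finite_Iic m).subset (fun d hd => hbd d hd)
    obtain ⟨d, hd1, hd2⟩ := hfin.exists_maximalFor id _ hex
    refine ⟨d, hd1, fun d' hd' => ?_⟩
    by_contra h
    push Not at h
    have := hd2 hd' h.le
    simp only [id] at this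
    omega
  obtain ⟨δ₁, hδ₁, hδ₁', ⟨φ₁⟩⟩ := hd
  have hd2 : 2 ≤ d := by
    have := rank_lower hi hf₁ hf₂ e hδ₁ φ₁
    have := Fintype.one_lt_card (α := Fin d)
    rw [Fintype.card_fin] at this
    exact this
  have hst : ∀ δ > 0, δ ≤ δ₁ → stab e δ₁ ≤ stab e δ := by
    intro δ hδ hle
    obtain ⟨d', h1, h2, ⟨φ⟩⟩ := stab_free hm hi hf₁ hf₂ e hδ (hQ _ hδ (hle.trans hδ₁'))
    have hdd : d' ≤ d := hmax d' ⟨δ, hδ, hle.trans hδ₁', ⟨φ⟩⟩
    have := finiteIndex_of_QC e hδ hle (hQ _ hδ₁ hδ₁')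
    have h3 : (stab e δ).subgroupOf (stab e δ₁) = ⊤ := by
      refine schreier_strict φ₁ ((stab e δ).subgroupOf (stab e δ₁))
        (φ.trans (Subgroup.subgroupOfEquivOfLe (stab_mono e hle)).symm) ?_ ?_
      · simpa using hd2
      · simpa using hdd
    rwa [Subgroup.subgroupOf_eq_top] at h3
  refine ⟨δ₁, hδ₁, ?_, d, hd2, hbd d ⟨δ₁, hδ₁, hδ₁', ⟨φ₁⟩⟩, ⟨φ₁⟩⟩
  apply Set.Subset.antisymm
  · intro y hy
    refine mem_component_of_chainComp hUH e y (fun δ hδ => ?_)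
    rcases le_total δ δ₁ with h | h
    · exact chainComp_eq_of_stab e hδ h (hst δ hδ h) hy
    · exact chainComp_mono h e hy
  · exact component_subset_chainComp hδ₁ e

end Pool.Agent.Work.MP_7dea6f_gt
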