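import Mathlib
import Pool.Agent.Work.MP_7dea6f_gt.Final
import Pool.Agent.Work.MP_7dea6f_gt.Stable
import Pool.Agent.Work.MP_7dea6f_gt.Effros

/-! Main theorem. -/

namespace Pool.Agent.Work.MP_7dea6f_gt

open Filter Topology

/-- the dimension hypothesis of the frozen statement -/
def DimOne (X : Type) [TopologicalSpace X] : Prop :=
  ∀ (n : ℕ) (U : Fin n → Set X), (∀ i, IsOpen (U i)) → (⋃ i, U i) = Set.univ →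
        ∃ (m : ℕ) (V : Fin m → Set X), (∀ j, IsOpen (V j)) ∧ (⋃ j, V j) = Set.univ ∧
          (∀ j, ∃ i, V j ⊆ U i) ∧
          ∀ (x : X) (j₁ j₂ j₃ : Fin m), x ∈ V j₁ → x ∈ V j₂ → x ∈ V j₃ →
            j₁ = j₂ ∨ j₁ = j₃ ∨ j₂ = j₃

theorem exists_cover2 {X : Type} [MetricSpace X] [CompactSpace X] (hdim : DimOne X) {ρ : ℝ}
    (hρ : 0 < ρ) : ∃ 𝒱 : Cover2 X, ∀ j, ∀ x ∈ 𝒱.U j, ∀ y ∈ 𝒱.U j, dist x y < ρ := by
  classical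
  obtain ⟨T, -, hT⟩ := (isCompact_univ (X := X)).elim_nhds_subcover (fun x => Metric.ball x (ρ / 2))
    (fun x _ => Metric.ball_mem_nhds x (by linarith))
  obtain ⟨m, V, h1, h2, h3, h4⟩ := hdim T.card (fun i => Metric.ball ((T.equivFin.symm i : T) : X) (ρ / 2))
    (fun i => Metric.isOpen_ball) (by
      rw [Set.eq_univ_iff_forall]
      intro x
      have := hT (Set.mem_univ x)
      simp only [Set.mem_iUnion] at this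
      obtain ⟨z, hz, hxz⟩ := this
      refine Set.mem_iUnion.2 ⟨T.equivFin ⟨z, hz⟩, ?_⟩
      rw [Equiv.symm_apply_apply]
      exact hxz)
  refine ⟨⟨m, V, h1, fun x => ?_, h4⟩, ?_⟩
  · have : x ∈ ⋃ j, V j := by rw [h2]; trivial
    exact Set.mem_iUnion.1 this
  · intro j x hx y hy
    obtain ⟨i, hi⟩ := h3 j
    have hx' := hi hx
    have hy' := hi hy
    rw [Metric.mem_ball] at hx' hy'
    have := dist_triangle_right x y ((T.equivFin.symm i : T) : X)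
    linarith

theorem exists_refn {X : Type} [MetricSpace X] [CompactSpace X] [Nonempty X] {𝒱 𝒰 : Cover2 X}
    (h : ∀ j, ∀ x ∈ 𝒱.U j, ∀ y ∈ 𝒱.U j, dist x y < 𝒰.leb) : Nonempty (Refn 𝒱 𝒰) := by
  have : ∀ j, ∃ i, 𝒱.U j ⊆ 𝒰.U i := by
    intro j
    rcases (𝒱.U j).eq_empty_or_nonempty with he | ⟨x, hx⟩
    · obtain ⟨i, -⟩ := 𝒰.cover (Classical.arbitrary X)
      exact ⟨i, by rw [he]; exact Set.empty_subset _⟩
    · obtain ⟨i, hi⟩ := 𝒰.leb_spec x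
      exact ⟨i, fun y hy => hi (by rw [Metric.mem_ball]; exact h j y hy x hx)⟩
  choose τ hτ using this
  exact ⟨⟨τ, hτ⟩⟩

theorem exists_fineFor {X : Type} [MetricSpace X] [CompactSpace X] (g : C(X, Circle)) :
    ∃ ρ > 0, ∀ 𝒱 : Cover2 X, (∀ j, ∀ x ∈ 𝒱.U j, ∀ y ∈ 𝒱.U j, dist x y < ρ) → FineFor 𝒱 g := by
  have huc := CompactSpace.uniformContinuous_of_continuous g.continuous
  obtain ⟨ρ, hρ, h⟩ := Metric.uniformContinuous_iff.1 huc 1 one_pos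
  exact ⟨ρ, hρ, fun 𝒱 h𝒱 i x hx y hy => h (h𝒱 i x hx y hy)⟩

theorem main {X : Type} [MetricSpace X] [CompactSpace X] [ConnectedSpace X] (hdim : DimOne X)
    (hhom : ∀ x y : X, ∃ h : X ≃ₜ X, h x = y) {m : ℕ} (hm : FinRank X m)
    (g₁ g₂ : C(X, Circle)) : ¬ Indep g₁ g₂ := by
  classical
  intro hi
  have hne : Nonempty X := inferInstance
  obtain ⟨x₀⟩ := hne
  have : Nonempty X := ⟨x₀⟩
  have heff : ∀ ε > (0:ℝ), ∃ δ > 0, ∀ x y : X, dist x y < δ → ∃ h : X ≃ₜ X, h x = y ∧ ∀ z, dist (h z) z < ε :=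
    fun ε hε => effros hhom ε hε
  have hU : ∀ 𝒰 : Cover2 X, UHG (GG 𝒰.n) (Cov 𝒰.coc) := fun 𝒰 => uhg_cov _ heff
  obtain ⟨ρ₁, hρ₁, hf₁⟩ := exists_fineFor g₁
  obtain ⟨ρ₂, hρ₂, hf₂⟩ := exists_fineFor g₂
  set P : ℕ → Prop := fun d => 2 ≤ d ∧ d ≤ m ∧ ∃ 𝒰 : Cover2 X, FineFor 𝒰 g₁ ∧ FineFor 𝒰 g₂ ∧
    ∃ δ > 0, chainComp δ (⟨x₀, 1⟩ : Cov 𝒰.coc) = connectedComponent (⟨x₀, 1⟩ : Cov 𝒰.coc) ∧
      Nonempty (FreeGroup (Fin d) ≃* stab (⟨x₀, 1⟩ : Cov 𝒰.coc) δ) with hP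
  have hall : ∀ 𝒰 : Cover2 X, FineFor 𝒰 g₁ → FineFor 𝒰 g₂ →
      ∃ δ > 0, chainComp δ (⟨x₀, 1⟩ : Cov 𝒰.coc) = connectedComponent (⟨x₀, 1⟩ : Cov 𝒰.coc) ∧
      ∃ d, P d ∧ Nonempty (FreeGroup (Fin d) ≃* stab (⟨x₀, 1⟩ : Cov 𝒰.coc) δ) := by
    intro 𝒰 h1 h2
    obtain ⟨δ, hδ, hc, d, hd1, hd2, hφ⟩ := stable hm hi h1 h2 (hU 𝒰).uh (⟨x₀, 1⟩ : Cov 𝒰.coc)
    exact ⟨δ, hδ, hc, d, ⟨hd1, hd2, 𝒰, h1, h2, δ, hδ, hc, hφ⟩, hφ⟩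
  have hex : ∃ d, P d := by
    obtain ⟨𝒱, h𝒱⟩ := exists_cover2 hdim (lt_min hρ₁ hρ₂)
    obtain ⟨-, -, -, d, hd, -⟩ := hall 𝒱
      (hf₁ 𝒱 (fun j x hx y hy => lt_of_lt_of_le (h𝒱 j x hx y hy) (min_le_left _ _)))
      (hf₂ 𝒱 (fun j x hx y hy => lt_of_lt_of_le (h𝒱 j x hx y hy) (min_le_right _ _)))
    exact ⟨d, hd⟩
  obtain ⟨d, hd, hmax⟩ : ∃ d, P d ∧ ∀ d', P d' → d' ≤ d := by
    have hfin : Set.Finite {d | P d} := (Set.finite_Iic m).subset (fun d hd => hd.2.1)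
    obtain ⟨d, hd1, hd2⟩ := hfin.exists_maximalFor id _ hex
    refine ⟨d, hd1, fun d' hd' => ?_⟩
    by_contra h
    push Not at h
    have := hd2 hd' h.le
    simp only [id] at this
    omega
  obtain ⟨hd2, hdm, 𝒰, h1, h2, δ, hδ, hc, ⟨φ⟩⟩ := hd
  refine final_contra x₀ hδ (e := ⟨x₀, 1⟩) rfl hc hd2 φ (hU 𝒰) (fun ρ hρ => ?_)
  obtain ⟨𝒱, h𝒱⟩ := exists_cover2 hdim
    (lt_min hρ (lt_min 𝒰.leb_pos (lt_min hρ₁ hρ₂)))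
  have ha : ∀ j, ∀ x ∈ 𝒱.U j, ∀ y ∈ 𝒱.U j, dist x y < ρ := fun j x hx y hy =>
    lt_of_lt_of_le (h𝒱 j x hx y hy) (min_le_left _ _)
  have hb : ∀ j, ∀ x ∈ 𝒱.U j, ∀ y ∈ 𝒱.U j, dist x y < 𝒰.leb := fun j x hx y hy =>
    lt_of_lt_of_le (h𝒱 j x hx y hy) ((min_le_right _ _).trans (min_le_left _ _))
  have hc1 := hf₁ 𝒱 (fun j x hx y hy => lt_of_lt_of_le (h𝒱 j x hx y hy)
    ((min_le_right _ _).trans ((min_le_right _ _).trans (min_le_left _ _))))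
  have hc2 := hf₂ 𝒱 (fun j x hx y hy => lt_of_lt_of_le (h𝒱 j x hx y hy)
    ((min_le_right _ _).trans ((min_le_right _ _).trans (min_le_right _ _))))
  obtain ⟨R⟩ := exists_refn hb
  obtain ⟨δ', hδ', hc', d', hd', hφ'⟩ := hall 𝒱 hc1 hc2
  exact ⟨𝒱, R, ha, δ', hδ', hc', d', hmax d' hd', hφ'⟩

end Pool.Agent.Work.MP_7dea6f_gt
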